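import Pool.Agent.Lib.MP_754fa1_al.G1b

open LaurentPolynomial

namespace Pool.Agent.Lib.MP_754fa1_al

universe u v w

variable {B : Type u} {W : Type v} [Group W] {M : CoxeterMatrix B}

/-! G2a. Suffixes and lists of pairwise commuting generators. -/

variable (cs : CoxeterSystem M W)

theorem suf_iff (x y : W) : Suf cs x y ↔ ∃ z, y = z * x ∧ cs.length y = cs.length z + cs.length x := by
  constructor
  · intro h
    exact ⟨y * x⁻¹, by simp, h⟩
  · rintro ⟨z, rfl, h⟩
    unfold Suf
    rw [mul_inv_cancel_right]
    exact h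

theorem suf_refl (x : W) : Suf cs x x := by
  unfold Suf
  simp

theorem suf_trans {x y z : W} (h : Suf cs x y) (k : Suf cs y z) : Suf cs x z := by
  unfold Suf at *
  have h1 : cs.length (z * x⁻¹) ≤ cs.length (z * y⁻¹) + cs.length (y * x⁻¹) := by
    have := cs.length_mul_le (z * y⁻¹) (y * x⁻¹)
    simpa [mul_assoc] using this
  have h2 : cs.length z ≤ cs.length (z * x⁻¹) + cs.length x := by
    have := cs.length_mul_le (z * x⁻¹) x
    simpa [mul_assoc] using this
  omega

theorem suf_len {x y : W} (h : Suf cs x y) : cs.length x ≤ cs.length y := by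
  unfold Suf at h
  omega

theorem suf_eq {x y : W} (h : Suf cs x y) (k : cs.length y ≤ cs.length x) : x = y := by
  unfold Suf at h
  have h1 : cs.length (y * x⁻¹) = 0 := by omega
  rw [cs.length_eq_zero_iff] at h1
  exact (mul_inv_eq_one.mp h1).symm

theorem suf_simple {x : W} {i : B} (h : cs.IsLeftDescent x i) : Suf cs (cs.simple i * x) x := by
  rw [suf_iff]
  refine ⟨cs.simple i, by simp, ?_⟩
  rw [cs.isLeftDescent_iff] at h
  rw [cs.length_simple]
  omega

theorem suf_mul {x y : W} (h : cs.length (x * y) = cs.length x + cs.length y) : Suf cs y (x * y) :=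
  (suf_iff cs y (x * y)).2 ⟨x, rfl, h⟩

/-- a proper suffix is obtained by first removing a left descent -/
theorem suf_step {x y : W} (h : Suf cs x y) (hne : x ≠ y) :
    ∃ i, cs.IsLeftDescent y i ∧ Suf cs x (cs.simple i * y) := by
  obtain ⟨z, hz, hl⟩ := (suf_iff cs x y).1 h
  have hz1 : z ≠ 1 := by
    rintro rfl
    exact hne (by simpa using hz.symm)
  obtain ⟨i, hi⟩ := cs.exists_leftDescent_of_ne_one hz1
  have h1 : cs.length (cs.simple i * y) ≤ cs.length (cs.simple i * z) + cs.length x := by
    have := cs.length_mul_le (cs.simple i * z) x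
    rwa [mul_assoc, ← hz] at this
  have h2 := (cs.isLeftDescent_iff).1 hi
  have hd : cs.IsLeftDescent y i := by
    unfold CoxeterSystem.IsLeftDescent
    omega
  refine ⟨i, hd, (suf_iff cs _ _).2 ⟨cs.simple i * z, by rw [mul_assoc, ← hz], ?_⟩⟩
  have h3 := (cs.isLeftDescent_iff).1 hd
  omega

theorem pc_comm (i : B) (P : List B) (h : ∀ j ∈ P, M i j = 2) :
    cs.simple i * cs.wordProd P = cs.wordProd P * cs.simple i := by
  induction P with
  | nil => simp
  | cons a P ih =>
    rw [cs.wordProd_cons, ← mul_assoc, simple_comm cs (h a (by simp)), mul_assoc,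
      ih (fun j hj => h j (by simp [hj])), mul_assoc]

theorem pc_split (P : List B) (hP : PC M P) (i : B) (hi : i ∈ P) :
    ∃ Q, PC M Q ∧ (∀ j, j ∈ P ↔ j = i ∨ j ∈ Q) ∧ (∀ j ∈ Q, M i j = 2) ∧
      cs.wordProd P = cs.simple i * cs.wordProd Q ∧ Q.length + 1 = P.length := by
  induction P with
  | nil => simp at hi
  | cons a P ih =>
    unfold PC at hP
    rw [List.pairwise_cons] at hP
    by_cases hai : i = a
    · subst hai
      exact ⟨P, hP.2, by simp, hP.1, cs.wordProd_cons _ _, by simp⟩
    · have hiP : i ∈ P := by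
        rcases List.mem_cons.1 hi with h | h
        · exact absurd h hai
        · exact h
      obtain ⟨Q, h1, h2, h3, h4, h5⟩ := ih hP.2 hiP
      refine ⟨a :: Q, ?_, ?_, ?_, ?_, ?_⟩
      · unfold PC
        rw [List.pairwise_cons]
        exact ⟨fun j hj => hP.1 j ((h2 j).2 (Or.inr hj)), h1⟩
      · intro j
        rw [List.mem_cons, List.mem_cons, h2 j]
        tauto
      · intro j hj
        rcases List.mem_cons.1 hj with h | h
        · subst h
          rw [M.symmetric]
          exact hP.1 i hiP
        · exact h3 j h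
      · rw [cs.wordProd_cons, h4, cs.wordProd_cons, ← mul_assoc, ← mul_assoc,
          simple_comm cs (hP.1 i hiP)]
      · simp [← h5]

section
variable (hM : RightAngled M)
include hM

/-- `x π(P)` is reduced if `P` is a list of commuting generators that are not right descents -/
theorem len_mul_pc (x : W) (P : List B) (hP : PC M P) (h : ∀ i ∈ P, ¬ cs.IsRightDescent x i) :
    cs.length (x * cs.wordProd P) = cs.length x + P.length := by
  induction P generalizing x with
  | nil => simp
  | cons a P ih =>
    unfold PC at hP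
    rw [List.pairwise_cons] at hP
    have ha := h a (by simp)
    have hne : ∀ j ∈ P, j ≠ a := by
      rintro j hj rfl
      have := hP.1 j hj
      rw [M.diagonal] at this
      omega
    rw [cs.wordProd_cons, ← mul_assoc, ih (x * cs.simple a) hP.2 ?_,
      (cs.not_isRightDescent_iff).1 ha, List.length_cons]
    · omega
    · intro j hj hd
      exact h j (by simp [hj]) (rdesc_of_mul cs hM ha hd (hne j hj)).2

theorem len_pc (P : List B) (hP : PC M P) : cs.length (cs.wordProd P) = P.length := by
  have := len_mul_pc cs hM 1 P hP (fun i _ => cs.not_isRightDescent_one i)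
  simpa using this

omit hM in
/-- `π(P)` is an involution -/
theorem pc_inv' (P : List B) (hP : PC M P) : (cs.wordProd P)⁻¹ = cs.wordProd P := by
  induction P with
  | nil => simp
  | cons a P ih =>
    unfold PC at hP
    rw [List.pairwise_cons] at hP
    rw [cs.wordProd_cons, mul_inv_rev, ih hP.2, cs.inv_simple, pc_comm cs a P hP.1]

/-- `π(P)` is an involution -/
theorem pc_inv (P : List B) (hP : PC M P) : (cs.wordProd P)⁻¹ = cs.wordProd P :=
  pc_inv' cs P hP

omit hM in
theorem inv_pc_mul (x : W) (P : List B) (hP : PC M P) :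
    (cs.wordProd P * x)⁻¹ = x⁻¹ * cs.wordProd P := by
  rw [mul_inv_rev, pc_inv' cs P hP]

theorem len_pc_mul (x : W) (P : List B) (hP : PC M P) (h : ∀ i ∈ P, ¬ cs.IsLeftDescent x i) :
    cs.length (cs.wordProd P * x) = P.length + cs.length x := by
  rw [← cs.length_inv, inv_pc_mul cs x P hP, len_mul_pc cs hM _ P hP, cs.length_inv]
  · omega
  · intro i hi
    rw [cs.isRightDescent_inv_iff]
    exact h i hi

/-- the elements of `P` are left descents of `π(P) x` -/
theorem ldesc_pc_mul (x : W) (P : List B) (hP : PC M P) (h : ∀ i ∈ P, ¬ cs.IsLeftDescent x i)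
    (i : B) (hi : i ∈ P) : cs.IsLeftDescent (cs.wordProd P * x) i := by
  obtain ⟨Q, h1, h2, h3, h4, h5⟩ := pc_split cs P hP i hi
  unfold CoxeterSystem.IsLeftDescent
  rw [len_pc_mul cs hM x P hP h, h4, mul_assoc, cs.simple_mul_simple_cancel_left,
    len_pc_mul cs hM x Q h1 (fun j hj => h j ((h2 j).2 (Or.inr hj)))]
  omega

/-- the elements of `P` are right descents of `x π(P)` -/
theorem rdesc_mul_pc (x : W) (P : List B) (hP : PC M P) (h : ∀ i ∈ P, ¬ cs.IsRightDescent x i)
    (i : B) (hi : i ∈ P) : cs.IsRightDescent (x * cs.wordProd P) i := by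
  have h1 := ldesc_pc_mul cs hM x⁻¹ P hP (fun j hj => by
    rw [cs.isLeftDescent_inv_iff]; exact h j hj) i hi
  rw [← cs.isRightDescent_inv_iff, inv_pc_mul cs _ P hP, inv_inv] at h1
  exact h1

theorem rdesc_mul_pc_iff (x : W) (P : List B) (hP : PC M P) (h : ∀ i ∈ P, ¬ cs.IsRightDescent x i)
    (j : B) (hj : j ∉ P) (hc : ∀ i ∈ P, M j i = 2) :
    cs.IsRightDescent (x * cs.wordProd P) j ↔ cs.IsRightDescent x j := by
  induction P generalizing x with
  | nil => simp
  | cons a P ih =>
    unfold PC at hP
    rw [List.pairwise_cons] at hP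
    have ha := h a (by simp)
    have hne : ∀ k ∈ P, k ≠ a := by
      rintro k hk rfl
      have := hP.1 k hk
      rw [M.diagonal] at this
      omega
    rw [cs.wordProd_cons, ← mul_assoc, ih (x * cs.simple a) hP.2 ?_ (fun hh => hj (by simp [hh]))
      (fun i hi => hc i (by simp [hi]))]
    · constructor
      · intro hd
        exact (rdesc_of_mul cs hM ha hd (fun hh => hj (by simp [hh]))).2
      · intro hd
        exact rdesc_mul cs hM hd (hc a (by simp))
    · intro k hk hd
      exact h k (by simp [hk]) (rdesc_of_mul cs hM ha hd (hne k hk)).2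

/-- enumeration of a left descent set -/
theorem exists_list [Fintype B] (L : B → ℕ) (x : W) :
    ∃ P : List B, PC M P ∧ (∀ i, i ∈ P ↔ cs.IsLeftDescent x i) ∧ wl L P = lam cs L x := by
  classical
  refine ⟨(Finset.univ.filter (fun i => cs.IsLeftDescent x i)).toList, ?_, ?_, ?_⟩
  · unfold PC
    refine (Finset.nodup_toList _).pairwise_of_forall_ne ?_
    intro a ha b hb hab
    rw [Finset.mem_toList, Finset.mem_filter] at ha hb
    exact desc_comm cs hM ha.2 hb.2 hab
  · intro i
    simp
  · unfold wl lam
    rw [Finset.sum_map_toList]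

/-- removing a set of left descents -/
theorem pc_factor (x : W) (P : List B) (hP : PC M P) (h : ∀ i ∈ P, cs.IsLeftDescent x i) :
    Suf cs (cs.wordProd P * x) x ∧ (∀ i ∈ P, ¬ cs.IsLeftDescent (cs.wordProd P * x) i) ∧
    cs.length x = P.length + cs.length (cs.wordProd P * x) := by
  have key : ∀ (P : List B) (i : B), (∀ j ∈ P, M i j = 2) → cs.IsLeftDescent x i →
      cs.IsLeftDescent (cs.wordProd P * x) i := by
    intro P i
    induction P with
    | nil => intro _ hh; simpa using hh
    | cons a P ih =>
      intro h1 h2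
      rw [cs.wordProd_cons, mul_assoc]
      exact desc_mul cs hM (ih (fun j hj => h1 j (by simp [hj])) h2) (h1 a (by simp))
  induction P with
  | nil => simp [suf_refl]
  | cons a P ih =>
    unfold PC at hP
    rw [List.pairwise_cons] at hP
    obtain ⟨h1, h2, h3⟩ := ih hP.2 (fun i hi => h i (by simp [hi]))
    have ha := key P a hP.1 (h a (by simp))
    rw [cs.wordProd_cons, mul_assoc]
    refine ⟨suf_trans cs (suf_simple cs ha) h1, ?_, ?_⟩
    · intro j hj hd
      rcases List.mem_cons.1 hj with hh | hh
      · subst hh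
        exact (cs.isLeftDescent_iff_not_isLeftDescent_mul.1 ha) hd
      · have h4 : cs.IsLeftDescent (cs.simple a * (cs.simple a * (cs.wordProd P * x))) j :=
          desc_mul cs hM hd (by rw [M.symmetric]; exact hP.1 j hh)
        rw [cs.simple_mul_simple_cancel_left] at h4
        exact h2 j hh h4
    · have := (cs.isLeftDescent_iff).1 ha
      rw [List.length_cons]
      omega

/-- removing a set of right descents -/
theorem pc_factor_right (x : W) (P : List B) (hP : PC M P) (h : ∀ i ∈ P, cs.IsRightDescent x i) :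
    (∀ i ∈ P, ¬ cs.IsRightDescent (x * cs.wordProd P) i) ∧
    cs.length x = cs.length (x * cs.wordProd P) + P.length := by
  obtain ⟨_, h2, h3⟩ := pc_factor cs hM x⁻¹ P hP (fun j hj => by
    rw [cs.isLeftDescent_inv_iff]; exact h j hj)
  have he : (x * cs.wordProd P)⁻¹ = cs.wordProd P * x⁻¹ := by
    rw [mul_inv_rev, pc_inv' cs P hP]
  rw [← he] at h2 h3
  refine ⟨?_, ?_⟩
  · intro i hi hd
    exact h2 i hi (by rw [cs.isLeftDescent_inv_iff]; exact hd)
  · rw [cs.length_inv, cs.length_inv] at h3
    omega

end

end Pool.Agent.Lib.MP_754fa1_al
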