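import Pool.Agent.Lib.MP_754fa1_al.HB2

open LaurentPolynomial

namespace Pool.Agent.Lib.MP_754fa1_al

universe u v w

variable {B : Type u} {W : Type v} [Group W] {M : CoxeterMatrix B}

/-! OP. The opposite data on `Hᵐᵒᵖ`: `t' x = op (t x⁻¹)`, `c' x = op (c x⁻¹)`. -/

open MulOpposite

namespace Hecke

variable {cs : CoxeterSystem M W} {L : B → ℕ} {H : Type w} [Ring H] [Algebra Lau H]

/-- the opposite Hecke data -/
noncomputable def opp (D : Hecke cs L H) : Hecke cs L Hᵐᵒᵖ where
  t := (D.t.map (opLinearEquiv Lau)).reindex (Equiv.inv W)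
  t_mul x y h := by
    simp only [Module.Basis.reindex_apply, Module.Basis.map_apply, Equiv.inv_symm, Equiv.inv_apply,
      coe_opLinearEquiv]
    rw [← op_mul, D.t_mul, mul_inv_rev]
    rw [← mul_inv_rev, cs.length_inv, cs.length_inv, cs.length_inv, h, add_comm]
  t_quad i := by
    simp only [Module.Basis.reindex_apply, Module.Basis.map_apply, Equiv.inv_symm, Equiv.inv_apply,
      coe_opLinearEquiv, cs.inv_simple, MulOpposite.algebraMap_apply]
    rw [← op_sub, ← op_add, ← op_mul]
    have h := D.t_quad i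
    have e1 : algebraMap Lau H (T (L i : ℤ)) * D.t (cs.simple i) =
        D.t (cs.simple i) * algebraMap Lau H (T (L i : ℤ)) := Algebra.commutes _ _
    have e2 : algebraMap Lau H (T (-(L i : ℤ))) * D.t (cs.simple i) =
        D.t (cs.simple i) * algebraMap Lau H (T (-(L i : ℤ))) := Algebra.commutes _ _
    have e3 : algebraMap Lau H (T (-(L i : ℤ))) * algebraMap Lau H (T (L i : ℤ)) =
        algebraMap Lau H (T (L i : ℤ)) * algebraMap Lau H (T (-(L i : ℤ))) :=
      Algebra.commutes _ _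
    have h2 : (D.t (cs.simple i) + algebraMap Lau H (T (-(L i : ℤ)))) *
        (D.t (cs.simple i) - algebraMap Lau H (T (L i : ℤ))) = 0 := by
      rw [← h]
      generalize D.t (cs.simple i) = x at *
      generalize algebraMap Lau H (T (L i : ℤ)) = a at *
      generalize algebraMap Lau H (T (-(L i : ℤ))) = b at *
      rw [add_mul, sub_mul, mul_add, mul_sub, mul_sub, mul_add, e1, e2, e3]
      abel
    rw [h2, op_zero]

theorem opp_t (D : Hecke cs L H) (x : W) : D.opp.t x = op (D.t x⁻¹) := by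
  simp [opp]

theorem opp_repr (D : Hecke cs L H) (h : Hᵐᵒᵖ) (x : W) :
    D.opp.t.repr h x = D.t.repr (unop h) x⁻¹ := by
  simp only [opp, Module.Basis.repr_reindex_apply]
  rfl

end Hecke

namespace KL

variable {cs : CoxeterSystem M W} {L : B → ℕ} {H : Type w} [Ring H] [Algebra Lau H]

/-- the opposite data -/
noncomputable def opp (D : KL cs L H) : KL cs L Hᵐᵒᵖ where
  toHecke := D.toHecke.opp
  bar := RingHom.op D.bar
  bar_alg a := by
    show op (D.bar (unop (algebraMap Lau Hᵐᵒᵖ a))) = _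
    rw [MulOpposite.algebraMap_apply, MulOpposite.algebraMap_apply, unop_op, D.bar_alg]
  bar_t x := by
    show op (D.bar (unop (D.toHecke.opp.t x))) * D.toHecke.opp.t x⁻¹ = 1
    rw [Hecke.opp_t, Hecke.opp_t, unop_op, inv_inv, ← op_mul]
    have h := congrArg D.bar (D.bar_t x)
    rw [map_mul, D.bar_bar, map_one] at h
    rw [h, op_one]
  c x := op (D.c x⁻¹)
  bar_c x := by
    show op (D.bar (unop (op (D.c x⁻¹)))) = _
    rw [unop_op, D.bar_c]
  c_sub x y n hn := by
    rw [Hecke.opp_t, ← op_sub, Hecke.opp_repr, unop_op]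
    exact D.c_sub _ _ _ hn

theorem opp_c (D : KL cs L H) (x : W) : D.opp.c x = MulOpposite.op (D.c x⁻¹) := rfl

theorem opp_t (D : KL cs L H) (x : W) : D.opp.t x = MulOpposite.op (D.t x⁻¹) := Hecke.opp_t _ _

theorem opp_repr (D : KL cs L H) (h : Hᵐᵒᵖ) (x : W) :
    D.opp.t.repr h x = D.t.repr (unop h) x⁻¹ := Hecke.opp_repr _ _ _

theorem opp_lat (D : KL cs L H) (n : ℤ) (h : Hᵐᵒᵖ) : D.opp.Lat n h ↔ D.Lat n (unop h) := by
  constructor
  · intro k z
    have := k z⁻¹
    rw [opp_repr, inv_inv] at this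
    exact this
  · intro k z
    rw [opp_repr]
    exact k z⁻¹

theorem opp_cB (D : KL cs L H) (x : W) : D.opp.cB x = MulOpposite.op (D.cB x⁻¹) := by
  rw [cB_apply, cB_apply]; rfl

theorem opp_cB_repr (D : KL cs L H) (h : Hᵐᵒᵖ) (x : W) :
    D.opp.cB.repr h x = D.cB.repr (unop h) x⁻¹ := by
  have e : D.opp.cB = (D.cB.map (opLinearEquiv Lau)).reindex (Equiv.inv W) := by
    apply Module.Basis.eq_of_apply_eq
    intro x
    rw [opp_cB, Module.Basis.reindex_apply, Module.Basis.map_apply, Equiv.inv_symm, Equiv.inv_apply,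
      coe_opLinearEquiv]
  rw [e, Module.Basis.repr_reindex_apply]
  rfl

end KL

end Pool.Agent.Lib.MP_754fa1_al
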