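import Pool.Agent.Lib.MP_754fa1_al.HB2
import Pool.Agent.Lib.MP_754fa1_al.G2a
import Pool.Agent.Lib.MP_754fa1_al.OP

open LaurentPolynomial

namespace Pool.Agent.Lib.MP_754fa1_al

universe u v w

variable {B : Type u} {W : Type v} [Group W] {M : CoxeterMatrix B}

namespace Hecke

variable {cs : CoxeterSystem M W} {L : B → ℕ} {H : Type w} [Ring H] [Algebra Lau H]

variable (D : Hecke cs L H)

theorem repr_s_mul (i : B) (h : H) (z : W) (hz : ¬ cs.IsLeftDescent z i) :
    D.t.repr (D.t (cs.simple i) * h) z = D.t.repr h (cs.simple i * z) := by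
  have key : (Finsupp.lapply z).comp (D.t.repr.toLinearMap.comp
      (LinearMap.mulLeft Lau (D.t (cs.simple i)))) =
      (Finsupp.lapply (cs.simple i * z)).comp D.t.repr.toLinearMap := by
    classical
    apply D.t.ext
    intro w
    simp only [LinearMap.comp_apply, LinearMap.mulLeft_apply, LinearEquiv.coe_coe,
      Finsupp.lapply_apply, Module.Basis.repr_self]
    have e1 : (cs.simple i * w = z) ↔ (w = cs.simple i * z) := by
      constructor
      · rintro rfl; simp
      · rintro rfl; simp
    by_cases hw : cs.IsLeftDescent w i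
    · have hne : w ≠ z := by rintro rfl; exact hz hw
      rw [D.s_mul_down i w hw, map_add, map_smul, Module.Basis.repr_self, Module.Basis.repr_self,
        Finsupp.add_apply, Finsupp.smul_apply, Finsupp.single_apply, Finsupp.single_apply,
        Finsupp.single_apply, if_neg hne, smul_zero, add_zero]
      simp only [e1]
    · rw [D.s_mul_up i w hw, Module.Basis.repr_self, Finsupp.single_apply, Finsupp.single_apply]
      simp only [e1]
  exact LinearMap.congr_fun key h

/-- no top coefficient of a left eigenvector outside the left descents -/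
theorem eig_top (hL : ∀ i, 0 < L i) {i : B} {g : H}
    (hg : D.t (cs.simple i) * g = (T (L i : ℤ) : Lau) • g) {n : ℤ} (hl : D.Lat n g) {z : W}
    (hz : ¬ cs.IsLeftDescent z i) : (D.t.repr g z).coeff n = 0 := by
  have e := D.repr_s_mul i g z hz
  rw [hg, map_smul, Finsupp.smul_apply, smul_eq_mul] at e
  have h1 : ((D.t.repr g) (cs.simple i * z)).coeff (L i + n) = 0 :=
    hl (cs.simple i * z) _ (by have := hL i; omega)
  rw [← e, coeff_mul_top (DegLe.T le_rfl) (hl z)] at h1
  simpa using h1

theorem repr_mul_s_up (i : B) (h : H) (z : W) (hz : ¬ cs.IsRightDescent z i) :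
    D.t.repr (h * D.t (cs.simple i)) z = D.t.repr h (z * cs.simple i) := by
  have h1 := D.opp.repr_s_mul i (MulOpposite.op h) z⁻¹ (by rw [cs.isLeftDescent_inv_iff]; exact hz)
  rw [opp_t, opp_repr, opp_repr, cs.inv_simple, ← MulOpposite.op_mul, MulOpposite.unop_op,
    MulOpposite.unop_op, inv_inv, mul_inv_rev, inv_inv, cs.inv_simple] at h1
  exact h1

theorem repr_mul_s_down (i : B) (h : H) (z : W) (hz : cs.IsRightDescent z i) :
    D.t.repr (h * D.t (cs.simple i)) z =
      D.t.repr h (z * cs.simple i) + xi (L i) * D.t.repr h z := by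
  have key : (Finsupp.lapply z).comp (D.t.repr.toLinearMap.comp
      (LinearMap.mulRight Lau (D.t (cs.simple i)))) =
      (Finsupp.lapply (z * cs.simple i)).comp D.t.repr.toLinearMap +
      xi (L i) • (Finsupp.lapply z).comp D.t.repr.toLinearMap := by
    classical
    apply D.t.ext
    intro w
    simp only [LinearMap.comp_apply, LinearMap.mulRight_apply, LinearEquiv.coe_coe,
      Finsupp.lapply_apply, Module.Basis.repr_self, LinearMap.add_apply, LinearMap.smul_apply]
    have e1 : (w * cs.simple i = z) ↔ (w = z * cs.simple i) := by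
      constructor
      · rintro rfl; simp
      · rintro rfl; simp
    by_cases hw : cs.IsRightDescent w i
    · rw [D.mul_s_down i w hw, map_add, map_smul, Module.Basis.repr_self, Module.Basis.repr_self,
        Finsupp.add_apply, Finsupp.smul_apply, Finsupp.single_apply, Finsupp.single_apply,
        Finsupp.single_apply]
      simp only [e1]
    · have hne : w ≠ z := by rintro rfl; exact hw hz
      rw [D.mul_s_up i w hw, Module.Basis.repr_self, Finsupp.single_apply, Finsupp.single_apply,
        Finsupp.single_apply, if_neg hne, smul_zero, add_zero]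
      simp only [e1]
  have := LinearMap.congr_fun key h
  simpa using this

end Hecke

namespace KL

variable {cs : CoxeterSystem M W} {L : B → ℕ} {H : Type w} [Ring H] [Algebra Lau H]

variable (D : KL cs L H)

theorem c_simple (hL : ∀ i, 0 < L i) (i : B) :
    D.c (cs.simple i) = D.t (cs.simple i) + (T (-(L i : ℤ)) : Lau) • (1 : H) := by
  symm
  apply D.c_eq
  · rw [map_add, D.bar_t_simple, D.bar_smul, map_one, invert_T, neg_neg, xi, sub_smul]
    abel
  · rw [add_sub_cancel_left]
    have h1 : D.Lat 0 (1 : H) := by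
      rw [← D.toHecke.t_one]; exact D.toHecke.lat_t 1
    have := D.toHecke.lat_smul (p := (T (-(L i : ℤ)) : Lau)) (m := -1)
      (DegLe.T (by have := hL i; omega)) h1
    simpa using this

theorem t_mul_cs (hL : ∀ i, 0 < L i) (i : B) :
    D.t (cs.simple i) * D.c (cs.simple i) = (T (L i : ℤ) : Lau) • D.c (cs.simple i) := by
  rw [D.c_simple hL, mul_add, D.toHecke.t_sq, mul_smul_comm, mul_one, smul_add, smul_smul,
    ← T_add, add_neg_cancel, T_zero, one_smul, xi, sub_smul]
  abel

/-- subtracting the part in a set of `C_z` which are eigenvectors -/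
theorem eig_zero_of_lat (hL : ∀ i, 0 < L i) {i : B} {g : H}
    (hg : D.t (cs.simple i) * g = (T (L i : ℤ) : Lau) • g)
    (h0 : ∀ z, cs.IsLeftDescent z i → D.cB.repr g z = 0) : g = 0 := by
  have step : ∀ n : ℤ, D.Lat n g → D.Lat (n - 1) g := by
    intro n hn
    rw [D.lat_iff] at hn ⊢
    intro z
    by_cases hz : cs.IsLeftDescent z i
    · rw [h0 z hz]; exact DegLe.zero
    · refine (hn z).of_top ?_
      rw [D.top_eq (D.lat_iff.2 hn)]
      exact D.toHecke.eig_top hL hg (D.lat_iff.2 hn) hz
  obtain ⟨n0, hn0⟩ := D.toHecke.lat_exists g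
  have all : ∀ k : ℕ, D.Lat (n0 - k) g := by
    intro k
    induction k with
    | zero => simpa using hn0
    | succ k ih => have := step _ ih; rw [Nat.cast_succ, ← sub_sub]; exact this
  by_contra hne
  have : D.cB.repr g ≠ 0 := by
    intro h
    exact hne (D.cB.repr.map_eq_zero_iff.1 h)
  obtain ⟨z, hz⟩ := Finsupp.ne_iff.1 this
  obtain ⟨d, hd, -⟩ := DegLe.exists_top hz
  have := (D.lat_iff.1 (all (n0 - d + 1).toNat)) z d (by
    have := Int.self_le_toNat (n0 - d + 1)
    omega)
  exact hd this

/-- a bar-invariant version: the coordinates outside the descent set are bar invariant, the others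
have degree `≤ 0` -/
theorem eig_coord_zero (hL : ∀ i, 0 < L i) {i : B} {g : H}
    (hg : D.t (cs.simple i) * g = (T (L i : ℤ) : Lau) • g)
    (h0 : ∀ z, cs.IsLeftDescent z i → DegLe 0 (D.cB.repr g z))
    (h1 : ∀ z, ¬ cs.IsLeftDescent z i → invert (D.cB.repr g z) = D.cB.repr g z)
    (z : W) (hz : ¬ cs.IsLeftDescent z i) : D.cB.repr g z = 0 := by
  have step : ∀ n : ℤ, D.Lat n g → 
      ∀ z, ¬ cs.IsLeftDescent z i → DegLe (n - 1) (D.cB.repr g z) := by
    intro n hn z hz
    refine (D.lat_iff.1 hn z).of_top ?_
    rw [D.top_eq hn]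
    exact D.toHecke.eig_top hL hg hn hz
  obtain ⟨n0, hn0⟩ := D.toHecke.lat_exists g
  have hn1 : D.Lat (n0.toNat : ℕ) g := D.toHecke.lat_mono hn0 (Int.self_le_toNat n0)
  have all : ∀ k : ℕ, D.Lat k g → D.Lat 0 g := by
    intro k
    induction k with
    | zero => intro h; simpa using h
    | succ k ih =>
      intro h
      apply ih
      rw [D.lat_iff]
      intro z
      by_cases hz : cs.IsLeftDescent z i
      · exact (h0 z hz).mono (by omega)
      · have := step _ h z hz
        exact this.mono (by push_cast; omega)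
  have hl := all _ hn1
  exact bar_neg (h1 z hz) (by simpa using step 0 hl z hz)

/-- sums of eigenvectors -/
theorem eig_symm {i : B} (a : W →₀ Lau)
    (h : ∀ z, a z ≠ 0 → D.t (cs.simple i) * D.c z = (T (L i : ℤ) : Lau) • D.c z) :
    D.t (cs.simple i) * D.cB.repr.symm a = (T (L i : ℤ) : Lau) • D.cB.repr.symm a := by
  rw [Module.Basis.repr_symm_apply, Finsupp.linearCombination_apply, Finsupp.sum,
    Finset.mul_sum, Finset.smul_sum]
  apply Finset.sum_congr rfl
  intro z hz
  rw [mul_smul_comm, cB_apply, h z (Finsupp.mem_support_iff.1 hz), smul_smul, smul_smul, mul_comm]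

theorem span_t_le (n : ℕ) : Submodule.span Lau (D.t '' {y | cs.length y < n}) ≤
    Submodule.span Lau (D.c '' {y | cs.length y < n}) := by
  rw [Submodule.span_le]
  rintro _ ⟨z, hz, rfl⟩
  have h1 := D.t_tri z
  have h2 : D.t z = D.c z + (D.t z - D.c z) := by abel
  rw [h2]
  refine Submodule.add_mem _ (Submodule.subset_span ⟨z, hz, rfl⟩) ?_
  refine Submodule.span_mono (Set.image_mono ?_) h1
  intro y hy
  exact lt_trans (show cs.length y < cs.length z from hy) (show cs.length z < n from hz)

theorem s_mul_span {i : B} {n : ℕ} {h : H}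
    (hh : h ∈ Submodule.span Lau (D.t '' {y | cs.length y < n})) :
    D.t (cs.simple i) * h ∈ Submodule.span Lau (D.t '' {y | cs.length y < n + 1}) := by
  induction hh using Submodule.span_induction with
  | mem x hx =>
    obtain ⟨z, hz, rfl⟩ := hx
    have hz' : cs.length z < n := hz
    by_cases hd : cs.IsLeftDescent z i
    · rw [D.toHecke.s_mul_down i z hd]
      refine Submodule.add_mem _ (Submodule.subset_span ⟨_, ?_, rfl⟩)
        (Submodule.smul_mem _ _ (Submodule.subset_span ⟨_, ?_, rfl⟩))
      · have := cs.isLeftDescent_iff.1 hd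
        show cs.length (cs.simple i * z) < n + 1
        omega
      · show cs.length z < n + 1
        omega
    · rw [D.toHecke.s_mul_up i z hd]
      refine Submodule.subset_span ⟨_, ?_, rfl⟩
      have := cs.not_isLeftDescent_iff.1 hd
      show cs.length (cs.simple i * z) < n + 1
      omega
  | zero => rw [mul_zero]; exact Submodule.zero_mem _
  | add x y _ _ hx hy => rw [mul_add]; exact Submodule.add_mem _ hx hy
  | smul a x _ hx => rw [mul_smul_comm]; exact Submodule.smul_mem _ _ hx

theorem c_span_coord {n : ℕ} {h : H}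
    (hh : h ∈ Submodule.span Lau (D.c '' {y | cs.length y < n})) {z : W} (hz : n ≤ cs.length z) :
    D.cB.repr h z = 0 := by
  induction hh using Submodule.span_induction with
  | mem x hx =>
    obtain ⟨y, hy, rfl⟩ := hx
    have hne : y ≠ z := by
      rintro rfl
      exact absurd hy (by show ¬ (cs.length y < n); omega)
    rw [← cB_apply, Module.Basis.repr_self, Finsupp.single_eq_of_ne hne.symm]
  | zero => simp
  | add x y _ _ hx hy => rw [map_add, Finsupp.add_apply, hx, hy, add_zero]
  | smul a x _ hx => rw [map_smul, Finsupp.smul_apply, hx, smul_zero]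

theorem cs_mul_c_mem (hL : ∀ i, 0 < L i) {i : B} {x : W} (hx : cs.IsLeftDescent x i) :
    D.c (cs.simple i) * D.c (cs.simple i * x) - D.c x ∈
      Submodule.span Lau (D.c '' {y | cs.length y < cs.length x}) := by
  set y := cs.simple i * x with hy
  have hlen : cs.length y + 1 = cs.length x := cs.isLeftDescent_iff.1 hx
  have hnd : ¬ cs.IsLeftDescent y i := by
    rw [cs.not_isLeftDescent_iff, hy, cs.simple_mul_simple_cancel_left, ← hy, hlen]
  have hsy : cs.simple i * y = x := by rw [hy, cs.simple_mul_simple_cancel_left]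
  have e1 : D.c (cs.simple i) * D.c y - D.c x = D.t (cs.simple i) * (D.c y - D.t y) +
      (T (-(L i : ℤ)) : Lau) • (D.c y - D.t y) + (T (-(L i : ℤ)) : Lau) • D.t y
      + (D.t x - D.c x) := by
    rw [D.c_simple hL, add_mul, smul_mul_assoc, one_mul, mul_sub, D.toHecke.s_mul_up i y hnd, hsy,
      smul_sub]
    abel
  rw [e1]
  have hle := D.span_t_le (cs.length x)
  have h1 := D.c_tri y
  have h2 := D.s_mul_span (i := i) h1
  rw [hlen] at h2
  refine Submodule.add_mem _ (Submodule.add_mem _ (Submodule.add_mem _ (hle h2)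
    (Submodule.smul_mem _ _ (hle ?_))) (Submodule.smul_mem _ _ (hle ?_))) (D.t_tri x)
  · refine Submodule.span_mono (Set.image_mono ?_) h1
    intro z hz
    have hz' : cs.length z < cs.length y := hz
    show cs.length z < cs.length x
    omega
  · refine Submodule.subset_span ⟨y, ?_, rfl⟩
    show cs.length y < cs.length x
    omega

/-- `T_i C_x = v^{L_i} C_x` for left descents -/
theorem t_mul_c (hL : ∀ i, 0 < L i) {i : B} {x : W} (h : cs.IsLeftDescent x i) :
    D.t (cs.simple i) * D.c x = (T (L i : ℤ) : Lau) • D.c x := by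
  classical
  induction hn : cs.length x using Nat.strong_induction_on generalizing x with
  | _ n ih =>
    subst hn
    set g0 := D.c (cs.simple i) * D.c (cs.simple i * x) with hg0
    have hmem := D.cs_mul_c_mem hL h
    rw [← hg0] at hmem
    have hb : D.bar g0 = g0 := by rw [hg0, map_mul, D.bar_c, D.bar_c]
    have he : D.t (cs.simple i) * g0 = (T (L i : ℤ) : Lau) • g0 := by
      rw [hg0, ← mul_assoc, D.t_mul_cs hL, smul_mul_assoc]
    set p : W → Prop := fun z => cs.IsLeftDescent z i ∧ z ≠ x with hp
    set a := D.cB.repr g0 with ha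
    have hax : a x = 1 := by
      have := D.c_span_coord hmem (le_refl (cs.length x))
      rw [map_sub, Finsupp.sub_apply, ← D.cB_apply, Module.Basis.repr_self,
        Finsupp.single_eq_same, sub_eq_zero] at this
      exact this
    have haz : ∀ z, cs.length x ≤ cs.length z → z ≠ x → a z = 0 := by
      intro z hz hne
      have := D.c_span_coord hmem hz
      rw [map_sub, Finsupp.sub_apply, ← D.cB_apply, Module.Basis.repr_self,
        Finsupp.single_eq_of_ne hne, sub_zero] at this
      exact this
    have h1 : D.t (cs.simple i) * D.cB.repr.symm (a.filter p) =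
        (T (L i : ℤ) : Lau) • D.cB.repr.symm (a.filter p) := by
      apply D.eig_symm
      intro z hz
      have hpz : p z := by
        by_contra hc
        exact hz (Finsupp.filter_apply_neg p a hc)
      rw [Finsupp.filter_apply_pos p a hpz] at hz
      have hlt : cs.length z < cs.length x := by
        by_contra hc
        exact hz (haz z (not_lt.1 hc) hpz.2)
      exact ih _ hlt hpz.1 rfl
    set g := g0 - D.cB.repr.symm (a.filter p) with hg
    have hge : D.t (cs.simple i) * g = (T (L i : ℤ) : Lau) • g := by
      rw [hg, mul_sub, smul_sub, he, h1]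
    have hgc : ∀ z, D.cB.repr g z = a z - a.filter p z := by
      intro z
      rw [hg, map_sub, LinearEquiv.apply_symm_apply, Finsupp.sub_apply]
    have hgp : ∀ z, cs.IsLeftDescent z i → z ≠ x → D.cB.repr g z = 0 := by
      intro z hz hne
      rw [hgc, Finsupp.filter_apply_pos p a ⟨hz, hne⟩, sub_self]
    have hgn : ∀ z, ¬ p z → D.cB.repr g z = a z := by
      intro z hz
      rw [hgc, Finsupp.filter_apply_neg p a hz, sub_zero]
    have hgx : D.cB.repr g x = 1 := by
      rw [hgn x (fun hc => hc.2 rfl), hax]
    have hfin : g = D.c x := by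
      apply D.cB.repr.injective
      rw [← D.cB_apply, Module.Basis.repr_self]
      ext1 z
      by_cases hzx : z = x
      · rw [hzx, hgx, Finsupp.single_eq_same]
      · rw [Finsupp.single_eq_of_ne hzx]
        by_cases hz : cs.IsLeftDescent z i
        · exact hgp z hz hzx
        · refine D.eig_coord_zero hL hge ?_ ?_ z hz
          · intro y hy
            by_cases hyx : y = x
            · rw [hyx, hgx]; exact DegLe.one
            · rw [hgp y hy hyx]; exact DegLe.zero
          · intro y hy
            rw [hgn y (fun hc => hy hc.1)]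
            exact D.bar_coord hb y
    rw [← hfin]
    exact hge

/-- a left eigenvector only involves `C_z` with the left descent `i` -/
theorem eig_span_left (hL : ∀ i, 0 < L i) {i : B} {h : H}
    (he : D.t (cs.simple i) * h = (T (L i : ℤ) : Lau) • h) (z : W)
    (hz : D.cB.repr h z ≠ 0) : cs.IsLeftDescent z i := by
  classical
  set a := D.cB.repr h with ha
  set p : W → Prop := fun z => cs.IsLeftDescent z i with hp
  have h1 : D.t (cs.simple i) * D.cB.repr.symm (a.filter p) =
      (T (L i : ℤ) : Lau) • D.cB.repr.symm (a.filter p) := by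
    apply D.eig_symm
    intro z hz
    have hpz : p z := by
      by_contra hc
      exact hz (Finsupp.filter_apply_neg p a hc)
    exact D.t_mul_c hL hpz
  have h2 : h - D.cB.repr.symm (a.filter p) = 0 := by
    apply D.eig_zero_of_lat hL (i := i)
    · rw [mul_sub, smul_sub, he, h1]
    · intro z hz
      rw [map_sub, LinearEquiv.apply_symm_apply, Finsupp.sub_apply,
        Finsupp.filter_apply_pos p a hz, sub_self]
  by_contra hc
  apply hz
  have h3 := congrArg (fun g => D.cB.repr g z) h2
  simp only [map_sub, LinearEquiv.apply_symm_apply, Finsupp.sub_apply, map_zero,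
    Finsupp.zero_apply] at h3
  rw [Finsupp.filter_apply_neg p a hc, sub_zero] at h3
  exact h3

theorem c_mul_t (hL : ∀ i, 0 < L i) {i : B} {x : W} (h : cs.IsRightDescent x i) :
    D.c x * D.t (cs.simple i) = (T (L i : ℤ) : Lau) • D.c x := by
  have h1 := D.opp.t_mul_c hL (i := i) (x := x⁻¹) (cs.isLeftDescent_inv_iff.2 h)
  rw [opp_t, opp_c, cs.inv_simple, inv_inv, ← MulOpposite.op_mul, ← MulOpposite.op_smul] at h1
  exact MulOpposite.op_injective h1

/-- a right eigenvector only involves `C_z` with the right descent `i` -/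
theorem eig_span (hL : ∀ i, 0 < L i) {i : B} {h : H}
    (he : h * D.t (cs.simple i) = (T (L i : ℤ) : Lau) • h) (z : W)
    (hz : D.cB.repr h z ≠ 0) : cs.IsRightDescent z i := by
  rw [← cs.isLeftDescent_inv_iff]
  apply D.opp.eig_span_left hL (i := i) (h := MulOpposite.op h)
  · rw [opp_t, cs.inv_simple, ← MulOpposite.op_mul, he, MulOpposite.op_smul]
  · rw [opp_cB_repr, MulOpposite.unop_op, inv_inv]
    exact hz

theorem cs_mul_c (hL : ∀ i, 0 < L i) {i : B} {x : W} (h : cs.IsLeftDescent x i) :
    D.c (cs.simple i) * D.c x = eta (L i) • D.c x := by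
  rw [D.c_simple hL, add_mul, D.t_mul_c hL h, smul_mul_assoc, one_mul, eta, add_smul]

theorem cl_mul_c (hL : ∀ i, 0 < L i) (P : List B) {x : W} (h : ∀ i ∈ P, cs.IsLeftDescent x i) :
    D.cl P * D.c x = etaL L P • D.c x := by
  induction P with
  | nil => simp [cl, etaL]
  | cons i P ih =>
    have e1 : D.cl (i :: P) = D.c (cs.simple i) * D.cl P := by simp [cl]
    have e2 : etaL L (i :: P) = eta (L i) * etaL L P := by simp [etaL]
    rw [e1, e2, mul_assoc, ih (fun j hj => h j (List.mem_cons_of_mem _ hj)), mul_smul_comm,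
      D.cs_mul_c hL (h i List.mem_cons_self), smul_smul, mul_comm]

theorem ne_of_two {i j : B} (h : M i j = 2) : i ≠ j := by
  rintro rfl
  rw [M.diagonal] at h
  omega

theorem t_comm (hM : RightAngled M) {i j : B} (h : M i j = 2) :
    D.t (cs.simple i) * D.t (cs.simple j) = D.t (cs.simple j) * D.t (cs.simple i) := by
  have h1 : cs.length (cs.simple i * cs.simple j) = 2 := by
    have := len_pc cs hM [i, j] (by simp [PC, h])
    simpa [CoxeterSystem.wordProd] using this
  have h' : M j i = 2 := by rw [M.symmetric]; exact h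
  have h2 : cs.length (cs.simple j * cs.simple i) = 2 := by
    rw [← simple_comm cs h]; exact h1
  rw [D.t_mul _ _ (by rw [h1, cs.length_simple, cs.length_simple]),
    D.t_mul _ _ (by rw [h2, cs.length_simple, cs.length_simple]), simple_comm cs h]

theorem c_t_comm (hL : ∀ i, 0 < L i) (hM : RightAngled M) {i j : B} (h : M i j = 2) :
    D.c (cs.simple i) * D.t (cs.simple j) = D.t (cs.simple j) * D.c (cs.simple i) := by
  rw [D.c_simple hL, add_mul, mul_add, D.t_comm hM h, smul_mul_assoc, one_mul, mul_smul_comm,
    mul_one]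

theorem cl_t_comm (hL : ∀ i, 0 < L i) (hM : RightAngled M) {j : B} (P : List B)
    (h : ∀ i ∈ P, M i j = 2) :
    D.cl P * D.t (cs.simple j) = D.t (cs.simple j) * D.cl P := by
  induction P with
  | nil => simp [cl]
  | cons i P ih =>
    have e1 : D.cl (i :: P) = D.c (cs.simple i) * D.cl P := by simp [cl]
    rw [e1, mul_assoc, ih (fun k hk => h k (List.mem_cons_of_mem _ hk)), ← mul_assoc,
      D.c_t_comm hL hM (h i List.mem_cons_self), mul_assoc]

theorem cl_c_comm (hL : ∀ i, 0 < L i) (hM : RightAngled M) {j : B} (P : List B)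
    (h : ∀ i ∈ P, M i j = 2) :
    D.cl P * D.c (cs.simple j) = D.c (cs.simple j) * D.cl P := by
  rw [D.c_simple hL, mul_add, add_mul, D.cl_t_comm hL hM P h, smul_mul_assoc, one_mul,
    mul_smul_comm, mul_one]

theorem cs_mul_ts (hL : ∀ i, 0 < L i) (i : B) :
    D.c (cs.simple i) * D.t (cs.simple i) = (T (L i : ℤ) : Lau) • D.c (cs.simple i) := by
  rw [← D.t_mul_cs hL, D.c_simple hL, add_mul, mul_add, smul_mul_assoc, one_mul, mul_smul_comm,
    mul_one]

theorem cl_mul_t (hL : ∀ i, 0 < L i) (hM : RightAngled M) (P : List B) (hP : PC M P) (i : B)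
    (hi : i ∈ P) :
    D.cl P * D.t (cs.simple i) = (T (L i : ℤ) : Lau) • D.cl P := by
  induction P with
  | nil => simp at hi
  | cons j P ih =>
    have e1 : D.cl (j :: P) = D.c (cs.simple j) * D.cl P := by simp [cl]
    have hP' := List.pairwise_cons.1 hP
    rcases List.mem_cons.1 hi with rfl | hi
    · rw [e1, mul_assoc, D.cl_t_comm hL hM P (fun k hk => by rw [M.symmetric]; exact hP'.1 k hk),
        ← mul_assoc, D.cs_mul_ts hL, smul_mul_assoc]
    · rw [e1, mul_assoc, ih hP'.2 hi, mul_smul_comm]

/-- expansion of `C_P`: sum over sublists -/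
theorem cl_expand (hL : ∀ i, 0 < L i) (hM : RightAngled M) (P : List B) (hP : PC M P) :
    D.cl P = (P.sublists.map (fun Q => (T (-((wl L P : ℤ) - wl L Q)) : Lau) •
      D.t (cs.wordProd Q))).sum := by
  rw [((List.sublists_perm_sublists' P).map _).sum_eq]
  induction P with
  | nil => simp [cl, wl, D.toHecke.t_one]
  | cons j P ih =>
    have e1 : D.cl (j :: P) = D.c (cs.simple j) * D.cl P := by simp [cl]
    have hP' := List.pairwise_cons.1 hP
    rw [e1, ih hP'.2, List.sublists'_cons, List.map_append, List.sum_append, D.c_simple hL, add_mul,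
      add_comm, smul_mul_assoc, one_mul, List.smul_sum, List.map_map, List.map_map,
      ← List.sum_map_mul_left]
    have ew : ∀ Q : List B, wl L (j :: Q) = L j + wl L Q := fun Q => by simp [wl]
    refine congrArg₂ (· + ·) ?_ ?_
    · refine congrArg List.sum (List.map_congr_left ?_)
      intro Q hQ
      simp only [Function.comp_apply]
      rw [smul_smul, ← T_add, ew]
      congr 2
      push_cast
      ring
    · refine congrArg List.sum (List.map_congr_left ?_)
      intro Q hQ
      simp only [Function.comp_apply]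
      rw [ew, ew, mul_smul_comm]
      have hQ' : Q.Sublist P := List.mem_sublists'.1 hQ
      have h1 : PC M (j :: Q) := List.Pairwise.sublist (hQ'.cons_cons j) hP
      have h2 : PC M Q := List.Pairwise.sublist hQ' hP'.2
      have l1 := len_pc cs hM _ h1
      have l2 := len_pc cs hM _ h2
      rw [cs.wordProd_cons] at l1 ⊢
      rw [D.t_mul _ _ (by rw [l1, l2, cs.length_simple, List.length_cons, add_comm])]
      congr 2
      push_cast
      ring_nf

theorem sublists_split (hL : ∀ i, 0 < L i) (P : List B) :
    ∃ R : List (List B), (P.sublists).Perm (P :: R) ∧ ∀ Q ∈ R, wl L Q < wl L P := by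
  induction P with
  | nil => exact ⟨[], by simp, by simp⟩
  | cons a l ih =>
    obtain ⟨R, hR, hR2⟩ := ih
    have ew : ∀ Q : List B, wl L (a :: Q) = L a + wl L Q := fun Q => by simp [wl]
    refine ⟨(l :: R) ++ R.map (List.cons a), ?_, ?_⟩
    · refine (List.sublists_perm_sublists' _).trans ?_
      rw [List.sublists'_cons]
      have h1 : (l.sublists').Perm (l :: R) := (List.sublists_perm_sublists' l).symm.trans hR
      refine (h1.append (h1.map (List.cons a))).trans ?_
      rw [List.map_cons]
      exact List.perm_middle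
    · intro Q hQ
      have ha := hL a
      rw [ew]
      rcases List.mem_append.1 hQ with hQ | hQ
      · rcases List.mem_cons.1 hQ with rfl | hQ
        · omega
        · have := hR2 Q hQ
          omega
      · obtain ⟨Q', hQ', rfl⟩ := List.mem_map.1 hQ
        rw [ew]
        have := hR2 Q' hQ'
        omega

theorem lat_list_sum {n : ℤ} (l : List H) (h : ∀ x ∈ l, D.Lat n x) : D.Lat n l.sum := by
  induction l with
  | nil => simpa using D.toHecke.lat_zero n
  | cons a l ih =>
    rw [List.sum_cons]
    exact D.toHecke.lat_add (h a List.mem_cons_self)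
      (ih fun x hx => h x (List.mem_cons_of_mem _ hx))

theorem cl_eq (hL : ∀ i, 0 < L i) (hM : RightAngled M) (P : List B) (hP : PC M P) :
    D.cl P = D.c (cs.wordProd P) := by
  apply D.c_eq
  · induction P with
    | nil => simp [cl]
    | cons j P ih =>
      have e1 : D.cl (j :: P) = D.c (cs.simple j) * D.cl P := by simp [cl]
      rw [e1, map_mul, D.bar_c, ih (List.pairwise_cons.1 hP).2]
  · obtain ⟨R, hR, hR2⟩ := sublists_split hL P
    rw [D.cl_expand hL hM P hP, (hR.map _).sum_eq, List.map_cons, List.sum_cons, sub_self,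
      neg_zero, T_zero, one_smul, add_sub_cancel_left]
    apply D.lat_list_sum
    intro x hx
    obtain ⟨Q, hQ, rfl⟩ := List.mem_map.1 hx
    have h1 := hR2 Q hQ
    have := D.toHecke.lat_smul (p := (T (-((wl L P : ℤ) - wl L Q)) : Lau)) (m := -1)
      (DegLe.T (by omega)) (D.toHecke.lat_t (cs.wordProd Q))
    simpa using this

/-- the part of `h` used in `eig_factor` -/
theorem section_exists (i : B) (h : H) : ∃ k : H,
    (∀ z, cs.IsRightDescent z i → D.t.repr k z = 0) ∧
    (∀ z, ¬ cs.IsRightDescent z i → D.t.repr k z = D.t.repr h (z * cs.simple i)) := by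
  classical
  refine ⟨D.t.repr.symm (((D.t.repr h).equivMapDomain (Equiv.mulRight (cs.simple i))).filter
    (fun z => ¬ cs.IsRightDescent z i)), ?_, ?_⟩
  · intro z hz
    rw [LinearEquiv.apply_symm_apply, Finsupp.filter_apply_neg _ _ (by simpa using hz)]
  · intro z hz
    rw [LinearEquiv.apply_symm_apply, Finsupp.filter_apply_pos _ _ (by simpa using hz),
      Finsupp.equivMapDomain_apply]
    simp

/-- uniqueness -/
theorem section_unique (hL : ∀ i, 0 < L i) {i : B} {k : H}
    (h0 : ∀ z, cs.IsRightDescent z i → D.t.repr k z = 0) (h1 : k * D.c (cs.simple i) = 0) :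
    k = 0 := by
  apply D.t.repr.injective
  rw [map_zero]
  ext1 z
  rw [Finsupp.zero_apply]
  by_cases hz : cs.IsRightDescent z i
  · exact h0 z hz
  · have hz' : cs.IsRightDescent (z * cs.simple i) i := by
      rw [cs.isRightDescent_iff_not_isRightDescent_mul, cs.simple_mul_simple_cancel_right]
      exact hz
    have h2 : D.t.repr (k * D.c (cs.simple i)) (z * cs.simple i) = 0 := by
      rw [h1, map_zero, Finsupp.zero_apply]
    rw [D.c_simple hL, mul_add, mul_smul_comm, mul_one, map_add, Finsupp.add_apply, map_smul,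
      Finsupp.smul_apply, D.toHecke.repr_mul_s_down i k _ hz', cs.simple_mul_simple_cancel_right,
      h0 _ hz', mul_zero, smul_zero, add_zero, add_zero] at h2
    exact h2

theorem one_factor (hL : ∀ i, 0 < L i) (hM : RightAngled M) {i : B} {h : H}
    (he : h * D.t (cs.simple i) = (T (L i : ℤ) : Lau) • h) :
    ∃ k : H, h = k * D.c (cs.simple i) ∧
      ∀ j, M i j = 2 → h * D.t (cs.simple j) = (T (L j : ℤ) : Lau) • h →
        k * D.t (cs.simple j) = (T (L j : ℤ) : Lau) • k := by
  obtain ⟨k, hk0, hk1⟩ := D.section_exists i h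
  have hfac : h = k * D.c (cs.simple i) := by
    have hd : ∀ w, cs.IsRightDescent w i →
        D.t.repr (h - k * D.c (cs.simple i)) w = 0 := by
      intro w hw
      rw [D.c_simple hL, mul_add, mul_smul_comm, mul_one, map_sub, map_add, Finsupp.sub_apply,
        Finsupp.add_apply, map_smul, Finsupp.smul_apply, D.toHecke.repr_mul_s_down i k _ hw,
        hk0 w hw, hk1 _ (cs.isRightDescent_iff_not_isRightDescent_mul.1 hw),
        cs.simple_mul_simple_cancel_right]
      simp
    have he2 : (h - k * D.c (cs.simple i)) * D.t (cs.simple i) =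
        (T (L i : ℤ) : Lau) • (h - k * D.c (cs.simple i)) := by
      rw [sub_mul, he, mul_assoc, D.cs_mul_ts hL, mul_smul_comm, smul_sub]
    rw [← sub_eq_zero]
    apply D.t.repr.injective
    rw [map_zero]
    ext1 z
    rw [Finsupp.zero_apply]
    by_cases hz : cs.IsRightDescent z i
    · exact hd z hz
    · have h2 := D.toHecke.repr_mul_s_up i (h - k * D.c (cs.simple i)) z hz
      have hz' : cs.IsRightDescent (z * cs.simple i) i := by
        rw [cs.isRightDescent_iff_not_isRightDescent_mul, cs.simple_mul_simple_cancel_right]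
        exact hz
      rw [he2, map_smul, Finsupp.smul_apply, hd _ hz', smul_eq_mul] at h2
      rcases lau_mul_eq_zero h2 with h3 | h3
      · exact absurd h3 ((isUnit_T (R := ℤ) (L i : ℤ)).ne_zero)
      · exact h3
  refine ⟨k, hfac, ?_⟩
  intro j hij hj
  have hji : M i j = 2 := hij
  rw [← sub_eq_zero]
  apply D.section_unique hL (i := i)
  · intro z hz
    have hz' : cs.IsRightDescent (z * cs.simple j) i := rdesc_mul cs hM hz hij
    rw [map_sub, Finsupp.sub_apply, map_smul, Finsupp.smul_apply, hk0 z hz, smul_zero, sub_zero]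
    by_cases hzj : cs.IsRightDescent z j
    · rw [D.toHecke.repr_mul_s_down j k z hzj, hk0 _ hz', hk0 z hz, mul_zero, add_zero]
    · rw [D.toHecke.repr_mul_s_up j k z hzj, hk0 _ hz']
  · rw [sub_mul, mul_assoc, ← D.c_t_comm hL hM hij, ← mul_assoc, ← hfac, hj, smul_mul_assoc,
      ← hfac, sub_self]

/-- a common right eigenvector for `P` is in `H C_P` -/
theorem eig_factor (hL : ∀ i, 0 < L i) (hM : RightAngled M) (P : List B) (hP : PC M P) {h : H}
    (he : ∀ i ∈ P, h * D.t (cs.simple i) = (T (L i : ℤ) : Lau) • h) :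
    ∃ k : H, h = k * D.cl P := by
  induction P generalizing h with
  | nil => exact ⟨h, by simp [cl]⟩
  | cons i P ih =>
    have hP' := List.pairwise_cons.1 hP
    obtain ⟨k1, h1, h2⟩ := D.one_factor hL hM (he i List.mem_cons_self)
    obtain ⟨k, hk⟩ := ih hP'.2 (h := k1) (fun j hj =>
      h2 j (hP'.1 j hj) (he j (List.mem_cons_of_mem _ hj)))
    refine ⟨k, ?_⟩
    have e1 : D.cl (i :: P) = D.c (cs.simple i) * D.cl P := by simp [cl]
    rw [e1, ← D.cl_c_comm hL hM P (fun j hj => by rw [M.symmetric]; exact hP'.1 j hj), ← mul_assoc,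
      ← hk, ← h1]

end KL

end Pool.Agent.Lib.MP_754fa1_al
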