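import Pool.Agent.Lib.MP_754fa1_al.DG1
import Pool.Agent.Lib.MP_754fa1_al.EI

open LaurentPolynomial

namespace Pool.Agent.Lib.MP_754fa1_al

universe u v w

variable {B : Type u} {W : Type v} [Group W] {M : CoxeterMatrix B}

/-! BM. `T_x T_y ∈ v^m Λ + I_{>m}`.
General claim `G(x, I, y)`, `I` a PC list, no `i ∈ I` is a right descent of `x` or a left descent of `y`:
`Good m m (T (wl I) • (t x * t (π I) * t y))`, by induction on `(ℓ x + ℓ y, |I|)` (lexicographic).
* `wl I > m`: `C_I = c (π I) ∈ I_{>m}` and `t (π I) = C_I - ∑_{Q proper sublist} v^{-(wl I - wl Q)} t (π Q)` (`cl_expand`), so the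
  claim follows from the claims `G(x, Q, y)`.
* `wl I ≤ m`: if some `s ∉ I` commuting with `I` is a right descent of `x = x' s` and a left descent of `y = s y'`:
  `t x t (π I) t y = t x' t (π I) t y' + ξ_s t x' t (π (s :: I)) t y'`, both have smaller `ℓ x + ℓ y`, and
  `v^{wl I} ξ_s = v^{wl (s::I)} (1 - v^{-2 L s})`.  Otherwise `x π(I) y` is reduced (`red0`) and
  `v^{wl I} t (x π(I) y)` is in `Lat m`. -/

theorem PC.nodup {P : List B} (hP : PC M P) : P.Nodup := by
  refine List.Pairwise.imp ?_ hP
  intro i j hij h
  subst h
  simp at hij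

/-- a generator commuting with all of `P` commutes with `π(P)` -/
theorem pc_commute (cs : CoxeterSystem M W) (P : List B) (s : B) (h : ∀ i ∈ P, M s i = 2) :
    cs.wordProd P * cs.simple s = cs.simple s * cs.wordProd P := by
  induction P with
  | nil => simp
  | cons a P ih =>
    rw [cs.wordProd_cons, mul_assoc, ih fun i hi => h i (by simp [hi]), ← mul_assoc, ← mul_assoc,
      simple_comm cs (h a (by simp))]

namespace KL
variable [Fintype B] {cs : CoxeterSystem M W} {L : B → ℕ} {H : Type w} [Ring H] [Algebra Lau H]
  (D : KL cs L H)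

theorem good_add {m : ℕ} {n : ℤ} {h k : H} (a : D.Good m n h) (b : D.Good m n k) :
    D.Good m n (h + k) := by
  obtain ⟨u, hu, hu'⟩ := a
  obtain ⟨w, hw, hw'⟩ := b
  refine ⟨u + w, Submodule.add_mem _ hu hw, ?_⟩
  have := D.lat_add hu' hw'
  rwa [show h - u + (k - w) = h + k - (u + w) by abel] at this

theorem good_smul {m : ℕ} {n d : ℤ} {p : Lau} {h : H} (a : DegLe d p) (b : D.Good m n h) :
    D.Good m (d + n) (p • h) := by
  obtain ⟨u, hu, hu'⟩ := b
  refine ⟨p • u, Submodule.smul_mem _ _ hu, ?_⟩
  have := D.lat_smul a hu'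
  rwa [smul_sub] at this

theorem good_mono {m : ℕ} {n n' : ℤ} {h : H} (a : D.Good m n h) (hn : n ≤ n') :
    D.Good m n' h := by
  obtain ⟨u, hu, hu'⟩ := a
  exact ⟨u, hu, D.lat_mono hu' hn⟩

theorem good_of_lat {m : ℕ} {n : ℤ} {h : H} (a : D.Lat n h) : D.Good m n h :=
  ⟨0, Submodule.zero_mem _, by simpa using a⟩

theorem good_of_mem {m : ℕ} {n : ℤ} {h : H} (a : h ∈ D.Igt m) : D.Good m n h :=
  ⟨h, a, by simpa using D.lat_zero n⟩

theorem good_neg {m : ℕ} {n : ℤ} {h : H} (a : D.Good m n h) : D.Good m n (-h) := by
  obtain ⟨u, hu, hu'⟩ := a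
  refine ⟨-u, Submodule.neg_mem _ hu, ?_⟩
  have := D.lat_neg hu'
  rwa [show -(h - u) = -h - -u by abel] at this

theorem good_sub {m : ℕ} {n : ℤ} {h k : H} (a : D.Good m n h) (b : D.Good m n k) :
    D.Good m n (h - k) := by
  rw [sub_eq_add_neg]
  exact D.good_add a (D.good_neg b)

theorem good_list_sum {m : ℕ} {n : ℤ} (l : List H) (h : ∀ x ∈ l, D.Good m n x) :
    D.Good m n l.sum := by
  induction l with
  | nil => simpa using D.good_of_lat (D.lat_zero n)
  | cons a l ih =>
    rw [List.sum_cons]
    exact D.good_add (h a (by simp)) (ih fun x hx => h x (by simp [hx]))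

theorem good_sum {m : ℕ} {n : ℤ} {ι : Type*} (s : Finset ι) (f : ι → H)
    (h : ∀ x ∈ s, D.Good m n (f x)) : D.Good m n (∑ x ∈ s, f x) := by
  classical
  induction s using Finset.induction_on with
  | empty => simpa using D.good_of_lat (D.lat_zero n)
  | insert a s ha ih =>
    rw [Finset.sum_insert ha]
    exact D.good_add (h a (by simp)) (ih fun x hx => h x (by simp [hx]))

theorem cl_mem (hL : ∀ i, 0 < L i) (hM : RightAngled M) {m : ℕ} {P : List B} (hP : PC M P)
    (h : m < wl L P) : D.cl P ∈ D.Igt m := by
  rw [D.cl_eq hL hM P hP]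
  refine Submodule.subset_span ⟨_, ?_, rfl⟩
  have h1 : ∀ i ∈ P, cs.IsLeftDescent (cs.wordProd P) i := by
    intro i hi
    have := ldesc_pc_mul cs hM 1 P hP (fun i _ => cs.not_isLeftDescent_one i) i hi
    simpa using this
  calc m < wl L P := h
    _ ≤ lam cs L (cs.wordProd P) := wl_le_lam cs L _ P hP.nodup h1
    _ ≤ alp cs L (cs.wordProd P) := lam_le_alp cs L (suf_refl cs _)

/-- the general claim -/
theorem good_gen (hL : ∀ i, 0 < L i) (hM : RightAngled M) (m : ℕ)
    (hI : TwoSided (D.Igt m)) (n : ℕ) :
    ∀ (l : ℕ) (x y : W) (P : List B), cs.length x + cs.length y = n → P.length = l → PC M P →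
      (∀ i ∈ P, ¬ cs.IsRightDescent x i) → (∀ i ∈ P, ¬ cs.IsLeftDescent y i) →
      D.Good m m ((T (wl L P : ℤ) : Lau) • (D.t x * D.t (cs.wordProd P) * D.t y)) := by
  classical
  induction n using Nat.strong_induction_on with
  | _ n ihn =>
  intro l
  induction l using Nat.strong_induction_on with
  | _ l ihl =>
  intro x y P hn hl hP hx hy
  by_cases hw : m < wl L P
  · -- large weight
    have hcl := D.cl_mem hL hM hP hw
    have hexp := D.cl_expand hL hM P hP
    have hnd : P.sublists.Nodup := List.nodup_sublists.2 hP.nodup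
    have hmem : P ∈ P.sublists := List.mem_sublists.2 (List.Sublist.refl P)
    have hperm := List.perm_cons_erase hmem
    have hsum : (P.sublists.map (fun Q => (T (-((wl L P : ℤ) - wl L Q)) : Lau) •
        D.t (cs.wordProd Q))).sum = D.t (cs.wordProd P) +
        ((P.sublists.erase P).map (fun Q => (T (-((wl L P : ℤ) - wl L Q)) : Lau) •
        D.t (cs.wordProd Q))).sum := by
      rw [(hperm.map _).sum_eq, List.map_cons, List.sum_cons]
      simp
    rw [hsum] at hexp
    have ht : D.t (cs.wordProd P) = D.cl P -
        ((P.sublists.erase P).map (fun Q => (T (-((wl L P : ℤ) - wl L Q)) : Lau) •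
        D.t (cs.wordProd Q))).sum := by
      rw [hexp]; abel
    rw [ht, mul_sub, sub_mul, smul_sub]
    refine D.good_sub ?_ ?_
    · refine D.good_of_mem (Submodule.smul_mem _ _ ?_)
      exact (hI _ (hI _ hcl (D.t x)).1 (D.t y)).2
    · rw [← List.sum_map_mul_left, ← List.sum_map_mul_right, List.smul_sum]
      refine D.good_list_sum _ ?_
      intro z hz
      simp only [List.map_map, List.mem_map, Function.comp_apply] at hz
      obtain ⟨Q, hQ, rfl⟩ := hz
      rw [hnd.mem_erase_iff] at hQ
      obtain ⟨hQP, hQ⟩ := hQ
      rw [List.mem_sublists] at hQ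
      have hlen : Q.length < P.length := by
        rcases lt_or_ge Q.length P.length with h | h
        · exact h
        · exact absurd (hQ.eq_of_length_le h) hQP
      have key := ihl Q.length (hl ▸ hlen) x y Q hn rfl (hP.sublist hQ)
        (fun i hi => hx i (hQ.subset hi)) (fun i hi => hy i (hQ.subset hi))
      convert key using 1
      rw [mul_smul_comm, smul_mul_assoc, smul_smul, ← T_add]
      congr 2
      ring
  · push Not at hw
    by_cases hs : ∃ s, (∀ i ∈ P, M s i = 2) ∧ cs.IsRightDescent x s ∧ cs.IsLeftDescent y s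
    · obtain ⟨s, hsP, hsx, hsy⟩ := hs
      have hsP' : ∀ i ∈ P, M i s = 2 := fun i hi => by rw [M.symmetric]; exact hsP i hi
      have hx' : D.t x = D.t (x * cs.simple s) * D.t (cs.simple s) := by
        rw [D.mul_s_up s (x * cs.simple s) (by
          rw [cs.isRightDescent_iff_not_isRightDescent_mul] at hsx
          exact hsx)]
        simp
      have hy' : D.t y = D.t (cs.simple s) * D.t (cs.simple s * y) := by
        rw [D.s_mul_up s (cs.simple s * y) (by
          rw [cs.isLeftDescent_iff_not_isLeftDescent_mul] at hsy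
          exact hsy)]
        simp
      have hlx : cs.length (x * cs.simple s) < cs.length x := hsx
      have hly : cs.length (cs.simple s * y) < cs.length y := hsy
      have hsx2 : ¬ cs.IsRightDescent (x * cs.simple s) s := by
        rw [cs.isRightDescent_iff_not_isRightDescent_mul] at hsx
        exact hsx
      have hsy2 : ¬ cs.IsLeftDescent (cs.simple s * y) s := by
        rw [cs.isLeftDescent_iff_not_isLeftDescent_mul] at hsy
        exact hsy
      have hPs : PC M (s :: P) := List.pairwise_cons.2 ⟨hsP, hP⟩
      have hx2 : ∀ i ∈ P, ¬ cs.IsRightDescent (x * cs.simple s) i := by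
        intro i hi h
        have := rdesc_mul cs hM h (hsP' i hi)
        simp only [mul_assoc, cs.simple_mul_simple_self, mul_one] at this
        exact hx i hi this
      have hy2 : ∀ i ∈ P, ¬ cs.IsLeftDescent (cs.simple s * y) i := by
        intro i hi h
        have := desc_mul cs hM h (hsP' i hi)
        simp only [cs.simple_mul_simple_cancel_left] at this
        exact hy i hi this
      have hcomm : cs.wordProd P * cs.simple s = cs.simple s * cs.wordProd P :=
        pc_commute cs P s hsP
      have hlP : cs.length (cs.wordProd P) = P.length := len_pc cs hM P hP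
      have hlsP : cs.length (cs.simple s * cs.wordProd P) = P.length + 1 := by
        have := len_pc cs hM (s :: P) hPs
        rwa [cs.wordProd_cons, List.length_cons] at this
      have ht1 : D.t (cs.wordProd (s :: P)) = D.t (cs.wordProd P) * D.t (cs.simple s) := by
        rw [cs.wordProd_cons, ← hcomm, D.t_mul]
        rw [hcomm, hlsP, hlP, cs.length_simple]
      have ht2 : D.t (cs.wordProd (s :: P)) = D.t (cs.simple s) * D.t (cs.wordProd P) := by
        rw [cs.wordProd_cons, D.t_mul]
        rw [hlsP, hlP, cs.length_simple, add_comm]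
      have hmul : D.t x * D.t (cs.wordProd P) * D.t y =
          D.t (x * cs.simple s) * D.t (cs.wordProd P) * D.t (cs.simple s * y) +
          xi (L s) • (D.t (x * cs.simple s) * D.t (cs.wordProd (s :: P)) *
            D.t (cs.simple s * y)) := by
        calc D.t x * D.t (cs.wordProd P) * D.t y
            = D.t (x * cs.simple s) * (D.t (cs.simple s) * D.t (cs.wordProd P)) *
              (D.t (cs.simple s) * D.t (cs.simple s * y)) := by
              rw [hx', hy']; simp only [mul_assoc]
          _ = D.t (x * cs.simple s) * D.t (cs.wordProd P) *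
              (D.t (cs.simple s) * D.t (cs.simple s)) * D.t (cs.simple s * y) := by
              rw [← ht2, ht1]; simp only [mul_assoc]
          _ = _ := by
              rw [D.t_sq, mul_add, mul_one, add_mul, mul_smul_comm, smul_mul_assoc, ht1]
              simp only [mul_assoc]
      rw [hmul, smul_add]
      refine D.good_add ?_ ?_
      · exact ihn (cs.length (x * cs.simple s) + cs.length (cs.simple s * y)) (by omega)
          P.length _ _ P rfl rfl hP hx2 hy2
      · have key := ihn (cs.length (x * cs.simple s) + cs.length (cs.simple s * y)) (by omega)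
          (s :: P).length (x * cs.simple s) (cs.simple s * y) (s :: P) rfl rfl hPs
          (by
            intro i hi
            rcases List.mem_cons.1 hi with rfl | hi
            · exact hsx2
            · exact hx2 i hi)
          (by
            intro i hi
            rcases List.mem_cons.1 hi with rfl | hi
            · exact hsy2
            · exact hy2 i hi)
        have hd : DegLe 0 (1 - T (-(2 * (L s : ℤ))) : Lau) :=
          DegLe.one.sub (DegLe.T (by omega))
        have key2 := D.good_smul hd key
        rw [zero_add, smul_smul] at key2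
        rw [smul_smul]
        convert key2 using 2
        have : (wl L (s :: P) : ℤ) = wl L P + L s := by
          simp [wl, add_comm]
        rw [this, xi, mul_sub, sub_mul, one_mul, ← T_add, ← T_add, ← T_add]
        congr 2
        ring
    · push Not at hs
      have hred : cs.length (x * cs.wordProd P * y) =
          cs.length (x * cs.wordProd P) + cs.length y := by
        refine red0 cs hM _ _ ?_
        rintro j ⟨hj1, hj2⟩
        have hjP : j ∉ P := fun h => hy j h hj2
        have hjc : ∀ i ∈ P, M j i = 2 := by
          intro i hi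
          refine rdesc_comm cs hM hj1 (rdesc_mul_pc cs hM x P hP hx i hi) ?_
          rintro rfl
          exact hjP hi
        exact hs j hjc ((rdesc_mul_pc_iff cs hM x P hP hx j hjP hjc).1 hj1) hj2
      have hred1 : cs.length (x * cs.wordProd P) = cs.length x + cs.length (cs.wordProd P) := by
        rw [len_mul_pc cs hM x P hP hx, len_pc cs hM P hP]
      rw [D.t_mul _ _ hred1, D.t_mul _ _ hred]
      refine D.good_of_lat ?_
      have := D.lat_smul (DegLe.T (le_refl (wl L P : ℤ))) (D.lat_t (x * cs.wordProd P * y))
      exact D.lat_mono this (by simpa using hw)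

theorem good_prod (hL : ∀ i, 0 < L i) (hM : RightAngled M) (m : ℕ)
    (hI : TwoSided (D.Igt m)) (x y : W) : D.Good m m (D.t x * D.t y) := by
  have := D.good_gen hL hM m hI _ 0 x y [] rfl rfl (by simp [PC]) (by simp) (by simp)
  simpa [wl, D.t_one] using this

theorem good_mul (hL : ∀ i, 0 < L i) (hM : RightAngled M) (m : ℕ)
    (hI : TwoSided (D.Igt m)) {a b : ℤ} {h k : H} (ha : D.Lat a h) (hb : D.Lat b k) :
    D.Good m (a + b + m) (h * k) := by
  rw [← D.t.linearCombination_repr h, ← D.t.linearCombination_repr k,
    Finsupp.linearCombination_apply, Finsupp.linearCombination_apply, Finsupp.sum, Finsupp.sum,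
    Finset.sum_mul_sum]
  refine D.good_sum _ _ fun x _ => D.good_sum _ _ fun y _ => ?_
  rw [smul_mul_smul_comm]
  exact D.good_smul ((ha x).mul (hb y)) (D.good_prod hL hM m hI x y)

end KL

end Pool.Agent.Lib.MP_754fa1_al
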