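import Pool.Agent.Lib.MP_754fa1_al.DG1

open LaurentPolynomial

namespace Pool.Agent.Lib.MP_754fa1_al

universe u v w

variable {B : Type u} {W : Type v} [Group W] {M : CoxeterMatrix B}

/-! DG2. Positivity of a leading coefficient. -/

namespace Hecke
variable {cs : CoxeterSystem M W} {L : B → ℕ} {H : Type w} [Ring H] [Algebra Lau H]
  (D : Hecke cs L H)

theorem dg_posH_zero : D.PosH 0 := by
  intro z
  rw [map_zero, Finsupp.zero_apply]
  exact Pos.zero

/-- `T_{x⁻¹} T_x = 1 + (positive)` -/
theorem dg_inv_mul (hL : ∀ i, 0 < L i) (x : W) : ∃ k : H, D.PosH k ∧ D.t x⁻¹ * D.t x = 1 + k := by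
  have main : ∀ n : ℕ, ∀ x : W, cs.length x = n → ∃ k : H, D.PosH k ∧ D.t x⁻¹ * D.t x = 1 + k := by
    intro n
    induction n with
    | zero =>
      intro x hx
      have h1 : x = 1 := cs.length_eq_zero_iff.1 hx
      subst h1
      exact ⟨0, D.dg_posH_zero, by rw [inv_one, D.t_one, mul_one, add_zero]⟩
    | succ n ih =>
      intro x hx
      have hne : x ≠ 1 := by
        rintro rfl
        rw [cs.length_one] at hx
        omega
      obtain ⟨s, hs⟩ := cs.exists_leftDescent_of_ne_one hne
      have hlen : cs.length (cs.simple s * x) = n := by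
        rcases cs.length_simple_mul x s with h | h
        · have : cs.length (cs.simple s * x) < cs.length x := hs
          omega
        · omega
      obtain ⟨k, hk, hk'⟩ := ih (cs.simple s * x) hlen
      set y := cs.simple s * x with hy
      have hxy : x = cs.simple s * y := by rw [hy, ← mul_assoc, cs.simple_mul_simple_self, one_mul]
      have hnd : ¬ cs.IsLeftDescent y s := by
        intro h
        have h1 : cs.length (cs.simple s * y) < cs.length y := h
        rw [← hxy] at h1
        omega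
      have hnd' : ¬ cs.IsRightDescent y⁻¹ s := by
        intro h
        apply hnd
        have := (cs.isRightDescent_inv_iff (w := y) (i := s)).1 h
        exact this
      have e1 : D.t x = D.t (cs.simple s) * D.t y := by
        rw [D.s_mul_up s y hnd, ← hxy]
      have e2 : D.t x⁻¹ = D.t y⁻¹ * D.t (cs.simple s) := by
        rw [D.mul_s_up s y⁻¹ hnd', hxy, mul_inv_rev, cs.inv_simple]
      refine ⟨k + xi (L s) • (D.t y⁻¹ * D.t (cs.simple s) * D.t y), ?_, ?_⟩
      · refine D.posH_add hk (D.posH_smul (Pos.xi (hL s)) ?_)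
        exact D.posH_mul hL (D.posH_mul hL (D.posH_t _) (D.posH_t _)) (D.posH_t _)
      · have e3 : D.t x⁻¹ * D.t x = D.t y⁻¹ * (D.t (cs.simple s) * D.t (cs.simple s)) * D.t y := by
          rw [e1, e2]; simp only [mul_assoc]
        rw [e3, D.t_sq, mul_add, add_mul, mul_one, hk', mul_smul_comm, smul_mul_assoc]
        abel
  exact main _ x rfl

/-- `T_{π(P)} T_u = ξ_P T_u + (positive)` -/
theorem dg_pc_mul (hL : ∀ i, 0 < L i) (hM : RightAngled M) (u : W) (P : List B) (hP : PC M P)
    (h1 : ∀ i ∈ P, cs.IsLeftDescent u i) :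
    ∃ k : H, D.PosH k ∧ D.t (cs.wordProd P) * D.t u = xiL L P • D.t u + k := by
  induction P with
  | nil => exact ⟨0, D.dg_posH_zero, by simp [xiL, D.t_one]⟩
  | cons s P ih =>
    obtain ⟨hsP, hP'⟩ := List.pairwise_cons.1 hP
    obtain ⟨k, hk, hk'⟩ := ih hP' fun i hi => h1 i (List.mem_cons_of_mem _ hi)
    have hlen1 := len_pc cs hM (s :: P) hP
    have hlen2 := len_pc cs hM P hP'
    have e1 : D.t (cs.wordProd (s :: P)) = D.t (cs.simple s) * D.t (cs.wordProd P) := by
      rw [cs.wordProd_cons]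
      refine (D.t_mul _ _ ?_).symm
      rw [← cs.wordProd_cons, hlen1, hlen2, cs.length_simple, List.length_cons]
      ring
    have hs := h1 s (by simp)
    refine ⟨xiL L P • D.t (cs.simple s * u) + D.t (cs.simple s) * k, ?_, ?_⟩
    · exact D.posH_add (D.posH_smul (Pos.xiL L hL P) (D.posH_t _)) (D.posH_mul hL (D.posH_t _) hk)
    · rw [e1, mul_assoc, hk', mul_add, mul_smul_comm, D.s_mul_down s u hs, smul_add, smul_smul]
      have e2 : xiL L (s :: P) = xiL L P * xi (L s) := by simp [xiL, mul_comm]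
      rw [e2]
      abel

section
variable [Fintype B]

/-- the product above has degree at most `alp (x u)` -/
theorem lat_prod (hM : RightAngled M) (x y : W) : D.Lat (alp cs L y) (D.t x * D.t y) := by
  have h := D.deg_bound hM x y [] List.Pairwise.nil (by simp) (by simp)
  simpa [wl] using h

theorem posH_lead (hL : ∀ i, 0 < L i) (hM : RightAngled M) (x u : W) (P : List B) (hP : PC M P)
    (h1 : ∀ i ∈ P, cs.IsLeftDescent u i) (h2 : ∀ i ∈ P, ¬ cs.IsRightDescent x i)
    (h3 : cs.length (x * u) = cs.length x + cs.length u) (h4 : wl L P = alp cs L (x * u)) :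
    1 ≤ (D.t.repr (D.t (cs.wordProd P * x⁻¹) * D.t (x * u)) u).coeff (wl L P) := by
  obtain ⟨k, hk, hk'⟩ := D.dg_inv_mul hL x
  obtain ⟨q, hq, hq'⟩ := D.dg_pc_mul hL hM u P hP h1
  have h5 : ∀ i ∈ P, ¬ cs.IsLeftDescent x⁻¹ i := by
    intro i hi h
    exact h2 i hi ((cs.isLeftDescent_inv_iff (w := x) (i := i)).1 h)
  have h6 : cs.length (cs.wordProd P * x⁻¹) = cs.length (cs.wordProd P) + cs.length x⁻¹ := by
    rw [len_pc_mul cs hM x⁻¹ P hP h5, len_pc cs hM P hP]
  have e : D.t (cs.wordProd P * x⁻¹) * D.t (x * u) =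
      xiL L P • D.t u + (q + D.t (cs.wordProd P) * k * D.t u) := by
    rw [← D.t_mul _ _ h6, ← D.t_mul _ _ h3]
    have e3 : D.t (cs.wordProd P) * D.t x⁻¹ * (D.t x * D.t u) =
        D.t (cs.wordProd P) * (D.t x⁻¹ * D.t x) * D.t u := by simp only [mul_assoc]
    rw [e3, hk', mul_add, mul_one, add_mul, hq']
    abel
  have hpos : D.PosH (q + D.t (cs.wordProd P) * k * D.t u) :=
    D.posH_add hq (D.posH_mul hL (D.posH_mul hL (D.posH_t _) hk) (D.posH_t _))
  have hlat := D.lat_prod hM (cs.wordProd P * x⁻¹) (x * u)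
  rw [← h4] at hlat
  have h7 := hlat u
  rw [e, map_add, Finsupp.add_apply, map_smul, Finsupp.smul_apply, D.t.repr_self,
    Finsupp.single_eq_same, smul_eq_mul, mul_one] at h7
  have h8 := Pos.top (DegLe.xiL L P) (hpos u) h7
  rw [coeff_xiL_top L hL P] at h8
  rw [e, map_add, Finsupp.add_apply, map_smul, Finsupp.smul_apply, D.t.repr_self,
    Finsupp.single_eq_same, smul_eq_mul, mul_one]
  exact h8

end

end Hecke

end Pool.Agent.Lib.MP_754fa1_al
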