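import Pool.Agent.Lib.MP_754fa1_al.ID
import Pool.Agent.Lib.MP_754fa1_al.DG2

open LaurentPolynomial

namespace Pool.Agent.Lib.MP_754fa1_al

universe u v w

variable {B : Type u} {W : Type v} [Group W] {M : CoxeterMatrix B}

/-! CE. The left cells.
`le_suffix`: `x = z u`, `P` = left descents of `u`, `g = π(P) z⁻¹`; the `c`-coordinate of `C_g C_x` at `u` has
`v^{alp u}`-coefficient `≥ 1`: `C_g C_x - T_g T_x ∈ Good m (m - 1)` (`good_mul`), `T_g T_x ∈ Lat m` (`lat_prod`), `posH_lead`,
`top_eq`, `igt_coord`.
`le_char`: induction along the chain; if `alp` is already larger use the ideal `I_{>m}`; if `u` is a suffix of `x_k`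
then `C_{x_k} ∈ H C_u + I_{>m}` (`lu_mem`), so `lu_span` and the ideal property give the next step.
`cell_iff`, `tight_unique` are formal consequences. -/

namespace KL

section nofin
variable {cs : CoxeterSystem M W} {L : B → ℕ} {H : Type w} [Ring H] [Algebra Lau H]
  (D : KL cs L H)

/-- elements supported on length `< n` in the standard basis are so in the basis `c` -/
theorem span_t_le_span_c (n : ℕ) :
    Submodule.span Lau (D.t '' {y | cs.length y < n}) ≤
      Submodule.span Lau (D.c '' {y | cs.length y < n}) := by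
  rw [Submodule.span_le]
  rintro _ ⟨y, hy, rfl⟩
  have hy' : cs.length y < n := hy
  have h1 := D.t_tri y
  have h2 : Submodule.span Lau (D.c '' {z | cs.length z < cs.length y}) ≤
      Submodule.span Lau (D.c '' {z | cs.length z < n}) :=
    Submodule.span_mono (Set.image_mono fun z hz => lt_trans hz hy')
  have h3 : D.t y = (D.t y - D.c y) + D.c y := by abel
  show D.t y ∈ Submodule.span Lau (D.c '' {z | cs.length z < n})
  rw [h3]
  exact Submodule.add_mem _ (h2 h1) (Submodule.subset_span ⟨y, hy, rfl⟩)

theorem coord_of_span_c {n : ℕ} {h : H} (hh : h ∈ Submodule.span Lau (D.c '' {y | cs.length y < n}))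
    {x : W} (hx : n ≤ cs.length x) : D.cB.repr h x = 0 := by
  classical
  induction hh using Submodule.span_induction with
  | mem z hz =>
    obtain ⟨y, hy, rfl⟩ := hz
    have hy' : cs.length y < n := hy
    rw [← cB_apply, Module.Basis.repr_self, Finsupp.single_apply, if_neg]
    rintro rfl
    omega
  | zero => rw [map_zero]; rfl
  | add a b _ _ ha hb => rw [map_add, Finsupp.add_apply, ha, hb, add_zero]
  | smul a b _ hb => rw [map_smul, Finsupp.smul_apply, hb, smul_zero]

theorem s_mul_span_ce {i : B} {n : ℕ} {h : H}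
    (hh : h ∈ Submodule.span Lau (D.t '' {y | cs.length y < n})) :
    D.t (cs.simple i) * h ∈ Submodule.span Lau (D.t '' {y | cs.length y < n + 1}) := by
  induction hh using Submodule.span_induction with
  | mem z hz =>
    obtain ⟨y, hy, rfl⟩ := hz
    have hy' : cs.length y < n := hy
    have hlen := cs.length_simple_mul y i
    have m1 : D.t (cs.simple i * y) ∈ Submodule.span Lau (D.t '' {y | cs.length y < n + 1}) :=
      Submodule.subset_span ⟨_, by
        show cs.length (cs.simple i * y) < n + 1
        omega, rfl⟩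
    have m2 : D.t y ∈ Submodule.span Lau (D.t '' {y | cs.length y < n + 1}) :=
      Submodule.subset_span ⟨_, by
        show cs.length y < n + 1
        omega, rfl⟩
    by_cases hd : cs.IsLeftDescent y i
    · rw [D.s_mul_down i y hd]
      exact Submodule.add_mem _ m1 (Submodule.smul_mem _ _ m2)
    · rw [D.s_mul_up i y hd]
      exact m1
  | zero => rw [mul_zero]; exact Submodule.zero_mem _
  | add a b _ _ ha hb => rw [mul_add]; exact Submodule.add_mem _ ha hb
  | smul a b _ hb => rw [mul_smul_comm]; exact Submodule.smul_mem _ _ hb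

theorem step_desc {x : W} {i : B} (h : cs.IsLeftDescent x i) :
    D.Step x (cs.simple i * x) := by
  rw [step_iff]
  refine ⟨D.t (cs.simple i), ?_⟩
  set y := cs.simple i * x with hy
  have hxy : cs.simple i * y = x := by rw [hy, ← mul_assoc, cs.simple_mul_simple_self, one_mul]
  have hl : cs.length x = cs.length y + 1 := by
    have := (cs.isLeftDescent_iff).1 h
    rw [← hy] at this
    omega
  have hnd : ¬ cs.IsLeftDescent y i := by
    rw [cs.not_isLeftDescent_iff, hxy]
    exact hl
  have e : D.t (cs.simple i) * D.c y =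
      D.c x + ((D.t x - D.c x) + D.t (cs.simple i) * (D.c y - D.t y)) := by
    have e1 := D.s_mul_up i y hnd
    rw [hxy] at e1
    rw [mul_sub, e1]
    abel
  have h1 : (D.t x - D.c x) + D.t (cs.simple i) * (D.c y - D.t y) ∈
      Submodule.span Lau (D.c '' {z | cs.length z < cs.length x}) := by
    refine Submodule.add_mem _ (D.t_tri x) ?_
    apply D.span_t_le_span_c
    rw [hl]
    exact D.s_mul_span_ce (D.c_tri y)
  rw [e, map_add, Finsupp.add_apply, D.coord_of_span_c h1 le_rfl, ← cB_apply,
    Module.Basis.repr_self, Finsupp.single_eq_same, add_zero]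
  exact one_ne_zero

theorem le_of_suf' {u : W} : ∀ (n : ℕ) (x : W), cs.length x = n → Suf cs u x → D.Le x u := by
  intro n
  induction n with
  | zero =>
    intro x hn hx
    have : u = x := suf_eq cs hx (by omega)
    rw [this]
    exact Relation.ReflTransGen.refl
  | succ n ih =>
    intro x hn hx
    by_cases hux : u = x
    · rw [hux]
      exact Relation.ReflTransGen.refl
    · obtain ⟨i, hi, hs⟩ := suf_step cs hx hux
      have hl := (cs.isLeftDescent_iff).1 hi
      exact Relation.ReflTransGen.head (D.step_desc hi) (ih _ (by omega) hs)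

end nofin

variable [Fintype B] {cs : CoxeterSystem M W} {L : B → ℕ} {H : Type w} [Ring H] [Algebra Lau H]
  (D : KL cs L H)

theorem good_add_ce {m : ℕ} {n : ℤ} {h k : H} (a : D.Good m n h) (b : D.Good m n k) :
    D.Good m n (h + k) := by
  obtain ⟨p, hp, hp'⟩ := a
  obtain ⟨q, hq, hq'⟩ := b
  refine ⟨p + q, (D.Igt m).add_mem hp hq, ?_⟩
  have e : h + k - (p + q) = (h - p) + (k - q) := by abel
  rw [e]
  exact D.lat_add hp' hq'

theorem le_suffix (hL : ∀ i, 0 < L i) (hM : RightAngled M) {x u : W}
    (hx : Suf cs u x) (hu : Tight cs L u) (ha : alp cs L x = alp cs L u) : D.Le u x := by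
  apply Relation.ReflTransGen.single
  rw [step_iff]
  rw [suf_iff] at hx
  obtain ⟨z, rfl, hlen⟩ := hx
  obtain ⟨P, hP, hPd, hPw⟩ := exists_list cs hM L u
  have hw : wl L P = alp cs L u := by rw [hPw, tight_lam cs L hu]
  have h2 : ∀ i ∈ P, ¬ cs.IsRightDescent z i := by
    intro i hi hr
    have hl := (hPd i).1 hi
    have e : z * u = (z * cs.simple i) * (cs.simple i * u) := by
      rw [mul_assoc, ← mul_assoc (cs.simple i), cs.simple_mul_simple_self, one_mul]
    have l1 : cs.length (z * u) ≤ cs.length (z * cs.simple i) + cs.length (cs.simple i * u) := by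
      rw [e]; exact cs.length_mul_le _ _
    have l2 : cs.length (z * cs.simple i) < cs.length z := hr
    have l3 : cs.length (cs.simple i * u) < cs.length u := hl
    omega
  have hpos := D.posH_lead hL hM z u P hP (fun i hi => (hPd i).1 hi) h2 hlen (by rw [hw, ha])
  set m := alp cs L u with hm
  set g := cs.wordProd P * z⁻¹ with hg
  refine ⟨D.c g, ?_⟩
  have hI := D.two_sided hL hM m
  have g1 : D.Good m (m - 1 : ℤ) ((D.c g - D.t g) * D.c (z * u)) := by
    have := D.good_mul hL hM m hI (D.lat_c_sub_t g) (D.lat_c (z * u))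
    rwa [show (-1 + 0 + (m : ℤ)) = (m : ℤ) - 1 by ring] at this
  have g2 : D.Good m (m - 1 : ℤ) (D.t g * (D.c (z * u) - D.t (z * u))) := by
    have := D.good_mul hL hM m hI (D.lat_t g) (D.lat_c_sub_t (z * u))
    rwa [show (0 + -1 + (m : ℤ)) = (m : ℤ) - 1 by ring] at this
  obtain ⟨k, hk, hl⟩ := D.good_add_ce g1 g2
  have e0 : (D.c g - D.t g) * D.c (z * u) + D.t g * (D.c (z * u) - D.t (z * u)) =
      D.c g * D.c (z * u) - D.t g * D.t (z * u) := by
    rw [sub_mul, mul_sub]; abel
  rw [e0] at hl
  set l := D.c g * D.c (z * u) - D.t g * D.t (z * u) - k with hldef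
  have e : D.c g * D.c (z * u) = (D.t g * D.t (z * u) + l) + k := by
    rw [hldef]; abel
  have hlp : D.Lat (m : ℤ) (D.t g * D.t (z * u)) := by
    have := D.lat_prod hM g (z * u)
    rwa [ha] at this
  have hlat : D.Lat (m : ℤ) (D.t g * D.t (z * u) + l) :=
    D.lat_add hlp (D.lat_mono hl (by omega))
  have htop := D.top_eq hlat u
  have hl0 : (D.t.repr l u).coeff (m : ℤ) = 0 := hl u m (by omega)
  intro h0
  rw [e, map_add, Finsupp.add_apply, D.igt_coord hk (le_of_eq hm.symm), add_zero] at h0
  rw [h0, lp_coeff_zero, map_add, Finsupp.add_apply, lp_coeff_add, hl0, add_zero] at htop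
  rw [hw] at hpos
  omega

theorem le_of_suf (hL : ∀ i, 0 < L i) {x u : W} (hx : Suf cs u x) : D.Le x u :=
  D.le_of_suf' _ x rfl hx

theorem le_char (hL : ∀ i, 0 < L i) (hM : RightAngled M) {x u : W}
    (hu : Tight cs L u) (h : D.Le x u) : alp cs L u < alp cs L x ∨ Suf cs u x := by
  induction h using Relation.ReflTransGen.head_induction_on with
  | refl => exact Or.inr (suf_refl cs u)
  | @head a c h' _ ih =>
    rw [step_iff] at h'
    obtain ⟨h, hne⟩ := h'
    set m := alp cs L u with hm
    have hI := D.two_sided hL hM m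
    by_contra hcon
    push Not at hcon
    obtain ⟨ha, hs⟩ := hcon
    rcases ih with ih | ih
    · exact hne (D.igt_coord (hI _ (D.c_mem_igt ih) h).1 ha)
    · rw [suf_iff] at ih
      obtain ⟨z, rfl, hlen⟩ := ih
      obtain ⟨k, hk⟩ := D.lu_mem hL hM m hI z u hlen hu hm.symm
      have e : h * D.c (z * u) = h * (D.c (z * u) - k * D.c u) + (h * k) * D.c u := by
        rw [mul_sub, mul_assoc]; abel
      rw [e, map_add, Finsupp.add_apply, D.igt_coord (hI _ hk h).1 ha, zero_add] at hne
      rcases D.lu_span hL hM m hI u hu hm.symm (h * k) a hne with h3 | h3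
      · omega
      · exact hs h3

theorem cell_iff (hL : ∀ i, 0 < L i) (hM : RightAngled M) (x y : W) :
    D.leftCells x y ↔ ∃ u, Tight cs L u ∧ Suf cs u x ∧ Suf cs u y ∧
      alp cs L u = alp cs L x ∧ alp cs L u = alp cs L y := by
  constructor
  · rintro ⟨hxy, hyx⟩
    obtain ⟨u, hu, hus, hua⟩ := exists_tight cs L x
    obtain ⟨v, hv, hvs, hva⟩ := exists_tight cs L y
    have h1 : D.Le y u := Relation.ReflTransGen.trans hyx (D.le_of_suf hL hus)
    have h2 : D.Le x v := Relation.ReflTransGen.trans hxy (D.le_of_suf hL hvs)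
    have k1 := D.le_char hL hM hu h1
    have k2 := D.le_char hL hM hv h2
    have k1' : Suf cs u y → alp cs L u ≤ alp cs L y := fun h => alp_mono cs L h
    have k2' : Suf cs v x → alp cs L v ≤ alp cs L x := fun h => alp_mono cs L h
    rcases k1 with k1 | k1
    · rcases k2 with k2 | k2
      · omega
      · have := k2' k2
        omega
    · have h3 := k1' k1
      rcases k2 with k2 | k2
      · omega
      · have h4 := k2' k2
        exact ⟨u, hu, hus, k1, hua, by omega⟩
  · rintro ⟨u, hu, hx, hy, hax, hay⟩
    exact ⟨Relation.ReflTransGen.trans (D.le_of_suf hL hx) (D.le_suffix hL hM hy hu hay.symm),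
      Relation.ReflTransGen.trans (D.le_of_suf hL hy) (D.le_suffix hL hM hx hu hax.symm)⟩

include D in
theorem tight_unique (hL : ∀ i, 0 < L i) (hM : RightAngled M) {x u u' : W}
    (h1 : Tight cs L u) (h2 : Suf cs u x) (h3 : alp cs L u = alp cs L x)
    (h1' : Tight cs L u') (h2' : Suf cs u' x) (h3' : alp cs L u' = alp cs L x) : u = u' := by
  have h : D.Le u u' :=
    Relation.ReflTransGen.trans (D.le_suffix hL hM h2 h1 h3.symm) (D.le_of_suf hL h2')
  rcases D.le_char hL hM h1' h with k | k
  · omega
  · by_contra hne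
    have := h1 u' k (fun e => hne e.symm)
    omega

end KL

end Pool.Agent.Lib.MP_754fa1_al
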