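import Pool.Agent.Lib.MP_754fa1_al.Defs

/-! Auxiliary definitions (not used in the statement). -/

open LaurentPolynomial

namespace Pool.Agent.Lib.MP_754fa1_al

universe u v w

variable {B : Type u} {W : Type v} [Group W] {M : CoxeterMatrix B}

/-- `x` is a (reduced) suffix of `y`: `y = (y x⁻¹) x` with lengths adding. -/
def Suf (cs : CoxeterSystem M W) (x y : W) : Prop :=
  cs.length y = cs.length (y * x⁻¹) + cs.length x

open Classical in
/-- the total weight of the left descent set -/
noncomputable def lam [Fintype B] (cs : CoxeterSystem M W) (L : B → ℕ) (x : W) : ℕ :=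
  ∑ i ∈ Finset.univ.filter (fun i => cs.IsLeftDescent x i), L i

/-- the maximum of `lam` over all suffixes -/
noncomputable def alp [Fintype B] (cs : CoxeterSystem M W) (L : B → ℕ) (x : W) : ℕ :=
  sSup {n | ∃ y, Suf cs y x ∧ lam cs L y = n}

/-- every proper suffix has smaller `alp` -/
def Tight [Fintype B] (cs : CoxeterSystem M W) (L : B → ℕ) (x : W) : Prop :=
  ∀ y, Suf cs y x → y ≠ x → alp cs L y < alp cs L x

/-- a list of pairwise commuting distinct generators -/
def PC (M : CoxeterMatrix B) (P : List B) : Prop := P.Pairwise (fun i j => M i j = 2)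

/-- total weight of a list -/
def wl (L : B → ℕ) (P : List B) : ℕ := (P.map L).sum

/-- degree at most `n` -/
def DegLe (n : ℤ) (p : Lau) : Prop := ∀ k : ℤ, n < k → p.coeff k = 0

/-- zero or positive leading coefficient -/
def Pos (p : Lau) : Prop := p = 0 ∨ ∃ d : ℤ, 0 < p.coeff d ∧ DegLe d p

/-- `v^n - v^{-n}` -/
noncomputable def xi (n : ℕ) : Lau := T (n : ℤ) - T (-(n : ℤ))

/-- `v^n + v^{-n}` -/
noncomputable def eta (n : ℕ) : Lau := T (n : ℤ) + T (-(n : ℤ))

/-- product of `eta` over a list -/
noncomputable def etaL (L : B → ℕ) (P : List B) : Lau := (P.map (fun i => eta (L i))).prod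

/-- product of `xi` over a list -/
noncomputable def xiL (L : B → ℕ) (P : List B) : Lau := (P.map (fun i => xi (L i))).prod

namespace Hecke

variable {cs : CoxeterSystem M W} {L : B → ℕ} {H : Type w} [Ring H] [Algebra Lau H]

/-- all standard coordinates have degree at most `n` -/
def Lat (D : Hecke cs L H) (n : ℤ) (h : H) : Prop := ∀ z, DegLe n (D.t.repr h z)

/-- all standard coordinates are zero or have positive leading coefficient -/
def PosH (D : Hecke cs L H) (h : H) : Prop := ∀ z, Pos (D.t.repr h z)

end Hecke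

/-- two-sided ideal -/
def TwoSided {H : Type w} [Ring H] [Algebra Lau H] (I : Submodule Lau H) : Prop :=
  ∀ x ∈ I, ∀ h : H, h * x ∈ I ∧ x * h ∈ I

namespace KL

variable {cs : CoxeterSystem M W} {L : B → ℕ} {H : Type w} [Ring H] [Algebra Lau H]

/-- the span of the `C_z` with `alp z > m` -/
noncomputable def Igt [Fintype B] (D : KL cs L H) (m : ℕ) : Submodule Lau H :=
  Submodule.span Lau (D.c '' {z | m < alp cs L z})

/-- `h ∈ v^n Λ + I_{>m}` -/
def Good [Fintype B] (D : KL cs L H) (m : ℕ) (n : ℤ) (h : H) : Prop :=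
  ∃ k ∈ D.Igt m, D.Lat n (h - k)

/-- product of the `C_i` over a list -/
noncomputable def cl (D : KL cs L H) (P : List B) : H := (P.map (fun i => D.c (cs.simple i))).prod

end KL

end Pool.Agent.Lib.MP_754fa1_al
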