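import Pool.Agent.Lib.MP_754fa1_al.G2a

open LaurentPolynomial

namespace Pool.Agent.Lib.MP_754fa1_al

universe u v w

variable {B : Type u} {W : Type v} [Group W] {M : CoxeterMatrix B}

/-! G2b. The functions `lam`, `alp`; tight elements.
`alp_inv`: if `x = z y` is reduced, `P` = left descents of `y`, `y = π(P) y'`, then `z π(P)` is a prefix of
`x`, so `(z π(P))⁻¹` is a suffix of `x⁻¹` whose left descents contain `P`. -/

variable (cs : CoxeterSystem M W)
variable [Fintype B] (L : B → ℕ)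

theorem lam_le_total (x : W) : lam cs L x ≤ ∑ i, L i := by
  classical
  unfold lam
  exact Finset.sum_le_sum_of_subset (Finset.filter_subset _ _)

theorem alp_bdd (x : W) : BddAbove {n | ∃ y, Suf cs y x ∧ lam cs L y = n} := by
  refine ⟨∑ i, L i, ?_⟩
  rintro n ⟨y, _, rfl⟩
  exact lam_le_total cs L y

theorem lam_le_alp {x y : W} (h : Suf cs x y) : lam cs L x ≤ alp cs L y :=
  le_csSup (alp_bdd cs L y) ⟨x, h, rfl⟩

theorem alp_attained (x : W) : ∃ y, Suf cs y x ∧ lam cs L y = alp cs L x :=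
  Nat.sSup_mem (s := {n | ∃ y, Suf cs y x ∧ lam cs L y = n})
    ⟨_, x, suf_refl cs x, rfl⟩ (alp_bdd cs L x)

theorem alp_le {x : W} {n : ℕ} (h : ∀ y, Suf cs y x → lam cs L y ≤ n) : alp cs L x ≤ n := by
  obtain ⟨y, hy, he⟩ := alp_attained cs L x
  rw [← he]
  exact h y hy

theorem alp_mono {x y : W} (h : Suf cs x y) : alp cs L x ≤ alp cs L y :=
  alp_le cs L (fun _ hz => lam_le_alp cs L (suf_trans cs hz h))

theorem alp_le_total (x : W) : alp cs L x ≤ ∑ i, L i :=
  alp_le cs L (fun y _ => lam_le_total cs L y)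

/-- a list of left descents has weight at most `lam` -/
theorem wl_le_lam (x : W) (P : List B) (hP : P.Nodup) (h : ∀ i ∈ P, cs.IsLeftDescent x i) :
    wl L P ≤ lam cs L x := by
  classical
  unfold wl lam
  rw [← List.sum_toFinset L hP]
  refine Finset.sum_le_sum_of_subset ?_
  intro i hi
  rw [Finset.mem_filter]
  exact ⟨Finset.mem_univ _, h i (List.mem_toFinset.1 hi)⟩

theorem exists_tight (x : W) : ∃ y, Tight cs L y ∧ Suf cs y x ∧ alp cs L y = alp cs L x := by
  classical
  have hex : ∃ n, ∃ y, Suf cs y x ∧ alp cs L y = alp cs L x ∧ cs.length y = n :=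
    ⟨_, x, suf_refl cs x, rfl, rfl⟩
  obtain ⟨y, h1, h2, h3⟩ := Nat.find_spec hex
  refine ⟨y, ?_, h1, h2⟩
  intro z hz hne
  refine lt_of_le_of_ne (alp_mono cs L hz) ?_
  intro he
  have h4 : Nat.find hex ≤ cs.length z :=
    Nat.find_min' hex ⟨z, suf_trans cs hz h1, he.trans h2, rfl⟩
  exact hne (suf_eq cs hz (by omega))

theorem tight_lam {x : W} (h : Tight cs L x) : lam cs L x = alp cs L x := by
  obtain ⟨y, hy, he⟩ := alp_attained cs L x
  by_cases hne : y = x
  · rw [← he, hne]
  · have h1 := h y hy hne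
    have h2 := lam_le_alp cs L (suf_refl cs y)
    omega

section
variable (hM : RightAngled M)
include hM

theorem alp_le_inv (x : W) : alp cs L x ≤ alp cs L x⁻¹ := by
  classical
  obtain ⟨y, hy, he⟩ := alp_attained cs L x
  obtain ⟨z, hz, hl⟩ := (suf_iff cs y x).1 hy
  obtain ⟨P, hP, hmem, hw⟩ := exists_list cs hM L y
  obtain ⟨_, _, h3⟩ := pc_factor cs hM y P hP (fun i hi => (hmem i).1 hi)
  have hPi := pc_inv cs hM P hP
  set y' := cs.wordProd P * y with hy'
  have hyy : y = cs.wordProd P * y' := by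
    rw [hy', ← mul_assoc]
    nth_rewrite 1 [← hPi]
    simp
  have hx : x = (z * cs.wordProd P) * y' := by
    rw [hz, mul_assoc, ← hyy]
  have hlP := len_pc cs hM P hP
  have h4 : cs.length (z * cs.wordProd P) ≤ cs.length z + P.length := by
    have := cs.length_mul_le z (cs.wordProd P)
    omega
  have h5 : cs.length x ≤ cs.length (z * cs.wordProd P) + cs.length y' := by
    rw [hx]
    exact cs.length_mul_le _ _
  have h6 : cs.length (z * cs.wordProd P) = cs.length z + P.length := by omega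
  have hsuf : Suf cs (z * cs.wordProd P)⁻¹ x⁻¹ := by
    refine (suf_iff cs _ _).2 ⟨y'⁻¹, ?_, ?_⟩
    · rw [← mul_inv_rev, ← hx]
    · rw [cs.length_inv, cs.length_inv, cs.length_inv]
      omega
  have hdesc : ∀ i ∈ P, cs.IsLeftDescent (z * cs.wordProd P)⁻¹ i := by
    intro i hi
    obtain ⟨Q, g1, g2, g3, g4, g5⟩ := pc_split cs P hP i hi
    unfold CoxeterSystem.IsLeftDescent
    have e1 : cs.simple i * (z * cs.wordProd P)⁻¹ = cs.wordProd Q * z⁻¹ := by
      rw [mul_inv_rev, hPi, g4, ← mul_assoc, cs.simple_mul_simple_cancel_left]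
    rw [e1, cs.length_inv, h6]
    have e2 := cs.length_mul_le (cs.wordProd Q) z⁻¹
    rw [cs.length_inv, len_pc cs hM Q g1] at e2
    omega
  have hnd : P.Nodup := by
    refine List.Pairwise.imp ?_ hP
    rintro a b hab rfl
    rw [M.diagonal] at hab
    omega
  rw [← he, ← hw]
  exact (wl_le_lam cs L _ P hnd hdesc).trans (lam_le_alp cs L hsuf)

theorem alp_inv (x : W) : alp cs L x⁻¹ = alp cs L x := by
  refine le_antisymm ?_ (alp_le_inv cs L hM x)
  have := alp_le_inv cs L hM x⁻¹
  rwa [inv_inv] at this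

/-- prefixes have smaller `alp` -/
theorem alp_prefix {x y : W} (h : cs.length (x * y) = cs.length x + cs.length y) :
    alp cs L x ≤ alp cs L (x * y) := by
  rw [← alp_inv cs L hM x, ← alp_inv cs L hM (x * y)]
  refine alp_mono cs L ?_
  refine (suf_iff cs _ _).2 ⟨y⁻¹, mul_inv_rev _ _, ?_⟩
  rw [cs.length_inv, cs.length_inv, cs.length_inv]
  omega

end

end Pool.Agent.Lib.MP_754fa1_al
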