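import Pool.Agent.Lib.MP_754fa1_al.HB1
import Pool.Agent.Lib.MP_754fa1_al.G2b

open LaurentPolynomial

namespace Pool.Agent.Lib.MP_754fa1_al

universe u v w

variable {B : Type u} {W : Type v} [Group W] {M : CoxeterMatrix B}

/-! DG1. Degree bounds. -/

theorem dg_nodup {P : List B} (hP : PC M P) : P.Nodup := by
  refine List.Pairwise.imp ?_ hP
  intro a b h hab
  subst hab
  have := M.diagonal a
  omega

theorem dg_symm {i j : B} (h : M i j = 2) : M j i = 2 := by
  rw [M.symmetric]; exact h

/-- a right descent of `x` which is not one of `x s` -/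
theorem dg_not_r {cs : CoxeterSystem M W} (hM : RightAngled M) {x : W} {s i : B}
    (his : M i s = 2) (hi : ¬ cs.IsRightDescent x i) :
    ¬ cs.IsRightDescent (x * cs.simple s) i := by
  intro h
  apply hi
  have h1 := rdesc_mul cs hM h his
  rwa [mul_assoc, cs.simple_mul_simple_self, mul_one] at h1

theorem dg_r_up {cs : CoxeterSystem M W} {x : W} {s : B} (h : cs.IsRightDescent x s) :
    ¬ cs.IsRightDescent (x * cs.simple s) s := by
  intro h1
  have h2 : cs.length (x * cs.simple s) < cs.length x := h
  have h3 : cs.length (x * cs.simple s * cs.simple s) < cs.length (x * cs.simple s) := h1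
  rw [mul_assoc, cs.simple_mul_simple_self, mul_one] at h3
  omega

namespace Hecke
variable [Fintype B] {cs : CoxeterSystem M W} {L : B → ℕ} {H : Type w} [Ring H] [Algebra Lau H]
  (D : Hecke cs L H)

omit [Fintype B] in
/-- `T_x T_y` when `s` is a right descent of `x` and a left descent of `y` -/
theorem dg_split {x y : W} {s : B} (hx : cs.IsRightDescent x s) (hy : cs.IsLeftDescent y s) :
    D.t x * D.t y = D.t (x * cs.simple s) * D.t (cs.simple s * y) +
      xi (L s) • (D.t (x * cs.simple s) * D.t y) := by
  have h1 : D.t x = D.t (x * cs.simple s) * D.t (cs.simple s) := by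
    rw [D.mul_s_up s _ (dg_r_up hx), mul_assoc, cs.simple_mul_simple_self, mul_one]
  rw [h1, mul_assoc, D.s_mul_down s y hy, mul_add, mul_smul_comm]

theorem deg_bound (hM : RightAngled M) (x y : W) (P : List B) (hP : PC M P)
    (h1 : ∀ i ∈ P, cs.IsLeftDescent y i) (h2 : ∀ i ∈ P, ¬ cs.IsRightDescent x i) :
    D.Lat ((alp cs L y : ℤ) - wl L P) (D.t x * D.t y) := by
  have main : ∀ n : ℕ, ∀ x y : W, cs.length x = n → ∀ P : List B, PC M P →
      (∀ i ∈ P, cs.IsLeftDescent y i) → (∀ i ∈ P, ¬ cs.IsRightDescent x i) →
      D.Lat ((alp cs L y : ℤ) - wl L P) (D.t x * D.t y) := by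
    intro n
    induction n using Nat.strong_induction_on with
    | _ n ih =>
      intro x y hn P hP h1 h2
      by_cases hs : ∃ s, cs.IsRightDescent x s ∧ cs.IsLeftDescent y s
      · obtain ⟨s, hxs, hys⟩ := hs
        have hsP : ∀ i ∈ P, i ≠ s := fun i hi h => h2 i hi (h ▸ hxs)
        have hcomm : ∀ i ∈ P, M i s = 2 := fun i hi => desc_comm cs hM (h1 i hi) hys (hsP i hi)
        have hlt : cs.length (x * cs.simple s) < n := by
          have : cs.length (x * cs.simple s) < cs.length x := hxs
          omega
        have h2' : ∀ i ∈ P, ¬ cs.IsRightDescent (x * cs.simple s) i := fun i hi =>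
          dg_not_r hM (hcomm i hi) (h2 i hi)
        rw [D.dg_split hxs hys]
        apply D.lat_add
        · refine D.lat_mono (ih _ hlt (x * cs.simple s) (cs.simple s * y) rfl P hP ?_ h2') ?_
          · intro i hi
            exact desc_two cs hM (h1 i hi) hys (hsP i hi)
          · have : alp cs L (cs.simple s * y) ≤ alp cs L y := alp_mono cs L (suf_simple cs hys)
            omega
        · have h3 := ih _ hlt (x * cs.simple s) y rfl (s :: P)
            (List.Pairwise.cons (fun i hi => dg_symm (hcomm i hi)) hP)
            (by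
              intro i hi
              rcases List.mem_cons.1 hi with h | h
              · exact h ▸ hys
              · exact h1 i h)
            (by
              intro i hi
              rcases List.mem_cons.1 hi with h | h
              · rw [h]; exact dg_r_up hxs
              · exact h2' i h)
          have h4 := D.lat_smul (DegLe.xi (L s)) h3
          have e : (L s : ℤ) + ((alp cs L y : ℤ) - wl L (s :: P)) = (alp cs L y : ℤ) - wl L P := by
            have : wl L (s :: P) = L s + wl L P := by simp [wl]
            rw [this]; push_cast; ring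
          rwa [e] at h4
      · push Not at hs
        have h3 : cs.length (x * y) = cs.length x + cs.length y :=
          red0 cs hM x y fun i h => hs i h.1 h.2
        rw [D.t_mul x y h3]
        refine D.lat_mono (D.lat_t _) ?_
        have h4 : wl L P ≤ lam cs L y := wl_le_lam cs L y P (dg_nodup hP) h1
        have h5 : lam cs L y ≤ alp cs L y := lam_le_alp cs L (suf_refl cs y)
        omega
  exact main _ x y rfl P hP h1 h2

/-- leading term of `T_{x π(P)} T_u` for tight `u` -/
theorem lead_tight (hL : ∀ i, 0 < L i) (hM : RightAngled M) (x u : W) (P : List B) (hP : PC M P)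
    (h1 : ∀ i, i ∈ P ↔ cs.IsLeftDescent u i) (h2 : ∀ i ∈ P, ¬ cs.IsRightDescent x i)
    (hu : Tight cs L u) (hm : wl L P = alp cs L u) :
    D.Lat ((alp cs L u : ℤ) - 1)
      (D.t (x * cs.wordProd P) * D.t u - (T (alp cs L u : ℤ) : Lau) • D.t (x * u)) := by
  have hxu : D.t x * D.t u = D.t (x * u) := by
    refine D.t_mul x u (red0 cs hM x u ?_)
    rintro i ⟨ha, hb⟩
    exact h2 i ((h1 i).2 hb) ha
  have key : ∀ Q R : List B, P = Q ++ R →
      D.Lat ((wl L Q : ℤ) - 1) (D.t (x * cs.wordProd Q) * D.t u - xiL L Q • D.t (x * u)) := by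
    intro Q
    induction Q using List.reverseRecOn with
    | nil =>
      intro R _
      have e : D.t (x * cs.wordProd []) * D.t u - xiL L [] • D.t (x * u) = 0 := by
        rw [cs.wordProd_nil, mul_one, hxu]
        simp [xiL]
      rw [e]; exact D.lat_zero _
    | append_singleton Q s ih =>
      intro R hR
      have hPQ : P = Q ++ (s :: R) := by rw [hR]; simp
      have hih := ih (s :: R) hPQ
      have hPC : (Q ++ (s :: R)).Pairwise (fun i j => M i j = 2) := hPQ ▸ hP
      obtain ⟨hPQ1, hPR1, hQR⟩ := List.pairwise_append.1 hPC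
      obtain ⟨hsR, hPR2⟩ := List.pairwise_cons.1 hPR1
      have hnd : (Q ++ (s :: R)).Nodup := hPQ ▸ dg_nodup hP
      have hndQ := List.nodup_append.1 hnd
      have hsQ : ∀ i ∈ Q, M s i = 2 := fun i hi => dg_symm (hQR i hi s (by simp))
      have hsnQ : s ∉ Q := fun h => hndQ.2.2 s h s (by simp) rfl
      have hsP : s ∈ P := by rw [hPQ]; simp
      have hus : cs.IsLeftDescent u s := (h1 s).1 hsP
      have hQ2 : ∀ i ∈ Q, ¬ cs.IsRightDescent x i := fun i hi => h2 i (by rw [hPQ]; simp [hi])
      have hxs : ¬ cs.IsRightDescent (x * cs.wordProd Q) s := fun h =>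
        h2 s hsP ((rdesc_mul_pc_iff cs hM x Q hPQ1 hQ2 s hsnQ hsQ).1 h)
      have e1 : D.t (x * cs.wordProd (Q ++ [s])) * D.t u =
          D.t (x * cs.wordProd Q) * D.t (cs.simple s * u) +
            xi (L s) • (D.t (x * cs.wordProd Q) * D.t u) := by
        rw [cs.wordProd_append, cs.wordProd_singleton, ← mul_assoc, ← D.mul_s_up s _ hxs, mul_assoc,
          D.s_mul_down s u hus, mul_add, mul_smul_comm]
      have e2 : xiL L (Q ++ [s]) = xi (L s) * xiL L Q := by
        simp [xiL, mul_comm]
      have e3 : (wl L (Q ++ [s]) : ℤ) = L s + wl L Q := by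
        simp [wl, add_comm]
      have e4 : D.t (x * cs.wordProd (Q ++ [s])) * D.t u - xiL L (Q ++ [s]) • D.t (x * u) =
          D.t (x * cs.wordProd Q) * D.t (cs.simple s * u) +
            xi (L s) • (D.t (x * cs.wordProd Q) * D.t u - xiL L Q • D.t (x * u)) := by
        rw [e1, e2, smul_sub, mul_smul]; abel
      rw [e4]
      apply D.lat_add
      · have h3 := D.deg_bound hM (x * cs.wordProd Q) (cs.simple s * u) R hPR2
          (by
            intro i hi
            have hiP : i ∈ P := by rw [hPQ]; simp [hi]
            have his : i ≠ s := by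
              rintro rfl
              exact (List.nodup_cons.1 hndQ.2.1).1 hi
            exact desc_two cs hM ((h1 i).1 hiP) hus his)
          (by
            intro i hi h
            have hiP : i ∈ P := by rw [hPQ]; simp [hi]
            have hiQ : i ∉ Q := fun hq => hndQ.2.2 i hq i (by simp [hi]) rfl
            exact h2 i hiP ((rdesc_mul_pc_iff cs hM x Q hPQ1 hQ2 i hiQ
              (fun j hj => dg_symm (hQR j hj i (by simp [hi])))).1 h))
        refine D.lat_mono h3 ?_
        have h4 : alp cs L (cs.simple s * u) < alp cs L u := by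
          refine hu _ (suf_simple cs hus) ?_
          intro h
          have : cs.length (cs.simple s * u) < cs.length u := hus
          rw [h] at this
          exact lt_irrefl _ this
        have h5 : wl L P = wl L (Q ++ [s]) + wl L R := by
          rw [hR]; simp [wl]; ring
        omega
      · have h3 := D.lat_smul (DegLe.xi (L s)) hih
        have e5 : (L s : ℤ) + ((wl L Q : ℤ) - 1) = (wl L (Q ++ [s]) : ℤ) - 1 := by rw [e3]; ring
        rwa [e5] at h3
  have h3 := key P [] (by simp)
  have h4 : DegLe ((alp cs L u : ℤ) - 1) (xiL L P - T (alp cs L u : ℤ)) := by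
    apply DegLe.of_top
    · refine DegLe.sub ?_ (DegLe.T le_rfl)
      have := DegLe.xiL L P
      rwa [hm] at this
    · rw [← hm]
      have h5 := coeff_xiL_top L hL P
      have h6 : (T (wl L P : ℤ) : Lau).coeff (wl L P : ℤ) = 1 := by simp
      simp [h5]
  have h5 := D.lat_smul h4 (D.lat_t (x * u))
  rw [add_zero] at h5
  rw [hm] at h3
  have e : D.t (x * cs.wordProd P) * D.t u - (T (alp cs L u : ℤ) : Lau) • D.t (x * u) =
      (D.t (x * cs.wordProd P) * D.t u - xiL L P • D.t (x * u)) +
        (xiL L P - T (alp cs L u : ℤ)) • D.t (x * u) := by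
    rw [sub_smul]; abel
  rw [e]
  exact D.lat_add h3 h5

end Hecke

end Pool.Agent.Lib.MP_754fa1_al
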