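import Mathlib

/-!
# MP_754fa1_al : left cells of right-angled Coxeter groups under varying parameters

Definitions used in the statement.
-/

open LaurentPolynomial

namespace Pool.Agent.Lib.MP_754fa1_al

universe u v w

/-- The ring `ℤ[v, v⁻¹]`; `LaurentPolynomial.T n` is `v ^ n`. -/
abbrev Lau : Type := LaurentPolynomial ℤ

variable {B : Type u} {W : Type v} [Group W] {M : CoxeterMatrix B}

/-- `H` is the Hecke algebra of the Coxeter system `cs` with the weight function `L`
(values `L i` at the generators); `t w = T_w` is its standard basis. -/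
structure Hecke (cs : CoxeterSystem M W) (L : B → ℕ) (H : Type w) [Ring H] [Algebra Lau H] where
  /-- the standard basis `T_w` -/
  t : Module.Basis W Lau H
  /-- `T_x T_y = T_{xy}` when lengths add -/
  t_mul : ∀ x y : W, cs.length (x * y) = cs.length x + cs.length y → t x * t y = t (x * y)
  /-- `(T_s - v^{L(s)}) (T_s + v^{-L(s)}) = 0` -/
  t_quad : ∀ i : B, (t (cs.simple i) - algebraMap Lau H (T (L i : ℤ))) *
    (t (cs.simple i) + algebraMap Lau H (T (-(L i : ℤ)))) = 0

/-- A Hecke algebra with its bar involution and its Kazhdan-Lusztig basis `c w = C_w`. -/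
structure KL (cs : CoxeterSystem M W) (L : B → ℕ) (H : Type w) [Ring H] [Algebra Lau H]
    extends Hecke cs L H where
  /-- the bar involution: `v ↦ v⁻¹`, `T_x ↦ T_{x⁻¹}⁻¹` -/
  bar : H →+* H
  bar_alg : ∀ a : Lau, bar (algebraMap Lau H a) = algebraMap Lau H (invert a)
  bar_t : ∀ x : W, bar (t x) * t x⁻¹ = 1
  /-- the Kazhdan-Lusztig elements `C_w` -/
  c : W → H
  bar_c : ∀ x : W, bar (c x) = c x
  /-- `C_x - T_x` has coefficients in `v⁻¹ ℤ[v⁻¹]` -/
  c_sub : ∀ x y : W, ∀ n : ℤ, 0 ≤ n → (t.repr (c x - t x) y).coeff n = 0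

namespace KL

variable {cs : CoxeterSystem M W} {L : B → ℕ} {H : Type w} [Ring H] [Algebra Lau H]

/-- `C_y` has a non-zero coefficient in `h C_x` for some `h`. -/
def Step (D : KL cs L H) (y x : W) : Prop :=
  ∃ (h : H) (a : W →₀ Lau), h * D.c x = a.sum (fun z r => r • D.c z) ∧ a y ≠ 0

/-- The left preorder `y ≤_L x`. -/
def Le (D : KL cs L H) (y x : W) : Prop := Relation.ReflTransGen D.Step y x

/-- The partition of `W` into left cells. -/
def leftCells (D : KL cs L H) : Setoid W where
  r x y := D.Le x y ∧ D.Le y x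
  iseqv :=
    { refl := fun _ => ⟨Relation.ReflTransGen.refl, Relation.ReflTransGen.refl⟩
      symm := fun h => ⟨h.2, h.1⟩
      trans := fun h k => ⟨h.1.trans k.1, k.2.trans h.2⟩ }

end KL

/-- All `m_{st}` with `s ≠ t` are `2` or infinite (written `0` in Mathlib). -/
def RightAngled (M : CoxeterMatrix B) : Prop := ∀ i j : B, i ≠ j → M i j = 2 ∨ M i j = 0

open Classical in
/-- The weight function `L_{a,b}`: `a` on `S₁` and `b` on the complement. -/
noncomputable def wt (S₁ : Set B) (a b : ℕ) : B → ℕ := fun i => if i ∈ S₁ then a else b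

end Pool.Agent.Lib.MP_754fa1_al
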