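import Pool.Agent.Lib.MP_754fa1_al.G2b

/-! F. Comparison of the cells for different weights. -/

open LaurentPolynomial

namespace Pool.Agent.Lib.MP_754fa1_al

universe u v w

variable {B : Type u} {W : Type v} [Group W] {M : CoxeterMatrix B}

/-- the combinatorial description of the left cells -/
def Cell [Fintype B] (cs : CoxeterSystem M W) (L : B → ℕ) (x y : W) : Prop :=
  ∃ u, Tight cs L u ∧ Suf cs u x ∧ Suf cs u y ∧
    alp cs L u = alp cs L x ∧ alp cs L u = alp cs L y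

section
variable (cs : CoxeterSystem M W) [Fintype B]

theorem alp_le_iff_of_equiv {L L' : B → ℕ}
    (h : ∀ x y, lam cs L x ≤ lam cs L y ↔ lam cs L' x ≤ lam cs L' y) (x y : W) :
    alp cs L x ≤ alp cs L y ↔ alp cs L' x ≤ alp cs L' y := by
  have key : ∀ {L L' : B → ℕ},
      (∀ x y, lam cs L x ≤ lam cs L y ↔ lam cs L' x ≤ lam cs L' y) → ∀ x,
      ∃ x₀, Suf cs x₀ x ∧ lam cs L x₀ = alp cs L x ∧ lam cs L' x₀ = alp cs L' x := by
    intro L L' h x
    obtain ⟨x₀, h1, h2⟩ := alp_attained cs L x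
    refine ⟨x₀, h1, h2, le_antisymm (lam_le_alp cs L' h1) ?_⟩
    apply alp_le
    intro y hy
    rw [← h, h2]
    exact lam_le_alp cs L hy
  obtain ⟨x₀, -, h2, h3⟩ := key h x
  obtain ⟨y₀, -, k2, k3⟩ := key h y
  rw [← h2, ← k2, ← h3, ← k3]
  exact h _ _

theorem cell_of_equiv {L L' : B → ℕ}
    (h : ∀ x y, lam cs L x ≤ lam cs L y ↔ lam cs L' x ≤ lam cs L' y) (x y : W)
    (hc : Cell cs L x y) : Cell cs L' x y := by
  have h1 := alp_le_iff_of_equiv cs h
  have h2 : ∀ x y, alp cs L x < alp cs L y ↔ alp cs L' x < alp cs L' y := by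
    intro x y
    rw [← not_le, ← not_le, h1]
  have h3 : ∀ x y, alp cs L x = alp cs L y ↔ alp cs L' x = alp cs L' y := by
    intro x y
    rw [le_antisymm_iff, le_antisymm_iff, h1, h1]
  obtain ⟨u, hu, a1, a2, a3, a4⟩ := hc
  refine ⟨u, ?_, a1, a2, (h3 _ _).1 a3, (h3 _ _).1 a4⟩
  intro z hz hne
  exact (h2 _ _).1 (hu z hz hne)

variable {L L₁ L₂ : B → ℕ}

/-- cells for `L₁` are contained in cells for `L` -/
theorem cell_coarse (hα : ∀ x y, lam cs L y < lam cs L x → lam cs L₁ y < lam cs L₁ x)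
    (S : Setoid W) (hS : ∀ x y, S x y ↔ Cell cs L x y) {x y : W} (h : Cell cs L₁ x y) :
    S x y := by
  have key : ∀ u x, Suf cs u x → alp cs L₁ u = alp cs L₁ x → S x u := by
    intro u x hux he
    have h1 : alp cs L u = alp cs L x := by
      refine le_antisymm (alp_mono cs L hux) ?_
      by_contra hlt
      rw [not_le] at hlt
      obtain ⟨x₀, hx1, hx2⟩ := alp_attained cs L x
      obtain ⟨u₀, hu1, hu2⟩ := alp_attained cs L₁ u
      have h2 : lam cs L u₀ < lam cs L x₀ := by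
        rw [hx2]
        exact lt_of_le_of_lt (lam_le_alp cs L hu1) hlt
      have h3 := hα _ _ h2
      have h4 := lam_le_alp cs L₁ hx1
      omega
    rw [hS]
    obtain ⟨w, hw1, hw2, hw3⟩ := exists_tight cs L u
    exact ⟨w, hw1, suf_trans cs hw2 hux, hw2, hw3.trans h1, hw3⟩
  obtain ⟨u, -, a1, a2, a3, a4⟩ := h
  exact S.trans (key u x a1 a3) (S.symm (key u y a2 a4))

/-- tight for `L₁` and `L₂` implies tight for `L` -/
theorem tight_of_both
    (hβ : ∀ x y, lam cs L₁ x ≤ lam cs L₁ y → lam cs L₂ x ≤ lam cs L₂ y →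
      lam cs L x ≤ lam cs L y ∧ (lam cs L x = lam cs L y → lam cs L₁ x = lam cs L₁ y)) {x : W}
    (h1 : Tight cs L₁ x) (h2 : Tight cs L₂ x) : Tight cs L x := by
  intro y hy hne
  obtain ⟨y₀, hy1, hy2⟩ := alp_attained cs L y
  have a1 : lam cs L₁ y₀ < lam cs L₁ x := by
    rw [tight_lam cs L₁ h1]
    exact lt_of_le_of_lt (lam_le_alp cs L₁ hy1) (h1 y hy hne)
  have a2 : lam cs L₂ y₀ < lam cs L₂ x := by
    rw [tight_lam cs L₂ h2]
    exact lt_of_le_of_lt (lam_le_alp cs L₂ hy1) (h2 y hy hne)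
  obtain ⟨b1, b2⟩ := hβ y₀ x a1.le a2.le
  rw [← hy2]
  refine lt_of_lt_of_le (lt_of_le_of_ne b1 ?_) (lam_le_alp cs L (suf_refl cs x))
  intro hc
  exact absurd (b2 hc) a1.ne

theorem join_eq
    (hα₁ : ∀ x y, lam cs L y < lam cs L x → lam cs L₁ y < lam cs L₁ x)
    (hα₂ : ∀ x y, lam cs L y < lam cs L x → lam cs L₂ y < lam cs L₂ x)
    (hβ : ∀ x y, lam cs L₁ x ≤ lam cs L₁ y → lam cs L₂ x ≤ lam cs L₂ y →
      lam cs L x ≤ lam cs L y ∧ (lam cs L x = lam cs L y → lam cs L₁ x = lam cs L₁ y))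
    (huniq : ∀ {x u u' : W}, Tight cs L u → Suf cs u x → alp cs L u = alp cs L x →
      Tight cs L u' → Suf cs u' x → alp cs L u' = alp cs L x → u = u')
    (S S₁ S₂ : Setoid W) (hS : ∀ x y, S x y ↔ Cell cs L x y)
    (hS₁ : ∀ x y, S₁ x y ↔ Cell cs L₁ x y) (hS₂ : ∀ x y, S₂ x y ↔ Cell cs L₂ x y) :
    S = S₁ ⊔ S₂ := by
  have le1 : S₁ ≤ S := fun {x y} h => cell_coarse cs hα₁ S hS ((hS₁ x y).1 h)
  have le2 : S₂ ≤ S := fun {x y} h => cell_coarse cs hα₂ S hS ((hS₂ x y).1 h)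
  apply le_antisymm _ (sup_le le1 le2)
  have key : ∀ n : ℕ, ∀ x w : W, cs.length x = n → Tight cs L w → Suf cs w x →
      alp cs L w = alp cs L x → (S₁ ⊔ S₂) x w := by
    intro n
    induction n using Nat.strong_induction_on with
    | _ n ih =>
      intro x w hn hw1 hw2 hw3
      -- one step
      have step : ∀ {L' : B → ℕ} {S' : Setoid W}, S' ≤ S → S' ≤ S₁ ⊔ S₂ →
          (∀ x y, S' x y ↔ Cell cs L' x y) → ¬ Tight cs L' x → (S₁ ⊔ S₂) x w := by
        intro L' S' hle hle' hS' hnt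
        obtain ⟨u, hu1, hu2, hu3⟩ := exists_tight cs L' x
        have hux : u ≠ x := by
          rintro rfl
          exact hnt hu1
        have hlen : cs.length u < n := by
          rw [← hn]
          by_contra hc
          exact hux (suf_eq cs hu2 (not_lt.1 hc))
        have hxu' : S' x u := (hS' x u).2 ⟨u, hu1, hu2, suf_refl cs u, hu3, rfl⟩
        have hxu : S x u := hle hxu'
        obtain ⟨w', c1, c2, c3, c4, c5⟩ := (hS x u).1 hxu
        have hww : w' = w := huniq c1 c2 c4 hw1 hw2 hw3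
        subst hww
        have h5 := ih _ hlen u w' rfl c1 c3 c5
        exact (S₁ ⊔ S₂).trans (hle' hxu') h5
      by_cases t1 : Tight cs L₁ x
      · by_cases t2 : Tight cs L₂ x
        · have t := tight_of_both cs hβ t1 t2
          have : w = x := huniq hw1 hw2 hw3 t (suf_refl cs x) rfl
          rw [this]
        · exact step le2 le_sup_right hS₂ t2
      · exact step le1 le_sup_left hS₁ t1
  intro x y hxy
  obtain ⟨w, c1, c2, c3, c4, c5⟩ := (hS x y).1 hxy
  exact (S₁ ⊔ S₂).trans (key _ x w rfl c1 c2 c4) ((S₁ ⊔ S₂).symm (key _ y w rfl c1 c3 c5))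

end

end Pool.Agent.Lib.MP_754fa1_al
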