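import Pool.Agent.Lib.MP_754fa1_al.F

/-! FR. The critical ratios. -/

open LaurentPolynomial

namespace Pool.Agent.Lib.MP_754fa1_al

universe u v w

variable {B : Type u} {W : Type v} [Group W] {M : CoxeterMatrix B}

/-- the possible critical ratios -/
def Crit (N₁ N₂ : ℕ) (r : ℚ) : Prop :=
  ∃ p q : ℕ, 0 < p ∧ p ≤ N₁ ∧ 0 < q ∧ q ≤ N₂ ∧ r = (p : ℚ) / (q : ℚ)

theorem root_exists {N₁ N₂ : ℕ} {α β : ℤ} (hα : |α| ≤ N₁) (hβ : |β| ≤ N₂) {θ θ' : ℚ} (h : 0 < θ)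
    (h' : 0 < θ') (h1 : 0 < (α : ℚ) + θ * β) (h2 : (α : ℚ) + θ' * β ≤ 0) :
    ∃ ρ, Crit N₁ N₂ ρ ∧ ((θ < ρ ∧ ρ ≤ θ') ∨ (θ' ≤ ρ ∧ ρ < θ)) := by
  rcases lt_trichotomy β 0 with hb | hb | hb
  · -- β < 0, α > 0
    have hbq : (β : ℚ) < 0 := by exact_mod_cast hb
    have haq : (0 : ℚ) < α := by nlinarith
    have ha : 0 < α := by exact_mod_cast haq
    refine ⟨(α.toNat : ℚ) / ((-β).toNat : ℚ), ⟨α.toNat, (-β).toNat, ?_, ?_, ?_, ?_, rfl⟩, ?_⟩
    · omega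
    · have := abs_le.1 hα; omega
    · omega
    · have := abs_le.1 hβ; omega
    · have e1 : ((α.toNat : ℕ) : ℚ) = α := by
        have : ((α.toNat : ℕ) : ℤ) = α := Int.toNat_of_nonneg ha.le
        exact_mod_cast this
      have e2 : (((-β).toNat : ℕ) : ℚ) = -β := by
        have : (((-β).toNat : ℕ) : ℤ) = -β := Int.toNat_of_nonneg (by omega)
        exact_mod_cast this
      rw [e1, e2]
      left
      constructor
      · rw [lt_div_iff₀ (by linarith)]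
        linarith
      · rw [div_le_iff₀ (by linarith)]
        linarith
  · subst hb
    simp only [Int.cast_zero, mul_zero, add_zero] at h1 h2
    linarith
  · have hbq : (0 : ℚ) < β := by exact_mod_cast hb
    have haq : (α : ℚ) < 0 := by nlinarith
    have ha : α < 0 := by exact_mod_cast haq
    refine ⟨((-α).toNat : ℚ) / (β.toNat : ℚ), ⟨(-α).toNat, β.toNat, ?_, ?_, ?_, ?_, rfl⟩, ?_⟩
    · omega
    · have := abs_le.1 hα; omega
    · omega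
    · have := abs_le.1 hβ; omega
    · have e1 : (((-α).toNat : ℕ) : ℚ) = -α := by
        have : (((-α).toNat : ℕ) : ℤ) = -α := Int.toNat_of_nonneg (by omega)
        exact_mod_cast this
      have e2 : ((β.toNat : ℕ) : ℚ) = β := by
        have : ((β.toNat : ℕ) : ℤ) = β := Int.toNat_of_nonneg hb.le
        exact_mod_cast this
      rw [e1, e2]
      right
      constructor
      · rw [le_div_iff₀ hbq]
        linarith
      · rw [div_lt_iff₀ hbq]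
        linarith

theorem crit_pos {N₁ N₂ : ℕ} {r : ℚ} (h : Crit N₁ N₂ r) : 0 < r := by
  obtain ⟨p, q, hp, -, hq, -, rfl⟩ := h
  exact div_pos (by exact_mod_cast hp) (by exact_mod_cast hq)

theorem crit_finite (N₁ N₂ : ℕ) : {r | Crit N₁ N₂ r}.Finite := by
  have : {r | Crit N₁ N₂ r} ⊆ (fun x : ℕ × ℕ => (x.1 : ℚ) / (x.2 : ℚ)) ''
      (↑(Finset.range (N₁ + 1) ×ˢ Finset.range (N₂ + 1)) : Set (ℕ × ℕ)) := by
    rintro r ⟨p, q, hp, hp', hq, hq', rfl⟩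
    refine ⟨(p, q), ?_, rfl⟩
    simp
    omega
  exact (Set.Finite.image _ (Finset.finite_toSet _)).subset this

section
variable (cs : CoxeterSystem M W) [Fintype B]

open Classical in
/-- number of left descents in `A` -/
noncomputable def nd (A : Set B) (x : W) : ℕ :=
  (Finset.univ.filter (fun i => cs.IsLeftDescent x i ∧ i ∈ A)).card

theorem nd_le (A : Set B) (x : W) : nd cs A x ≤ Nat.card A := by
  classical
  have h1 : nd cs A x ≤ (Finset.univ.filter (fun i => i ∈ A)).card := by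
    unfold nd
    apply Finset.card_le_card
    intro i hi
    simp only [Finset.mem_filter] at hi ⊢
    exact ⟨hi.1, hi.2.2⟩
  refine h1.trans (le_of_eq ?_)
  rw [Nat.card_eq_fintype_card, Fintype.card_subtype]

theorem lam_wt (S₁ : Set B) (a b : ℕ) (x : W) :
    lam cs (wt S₁ a b) x = a * nd cs S₁ x + b * nd cs S₁ᶜ x := by
  classical
  unfold lam nd wt
  rw [Finset.sum_ite, Finset.sum_const, Finset.sum_const, Finset.filter_filter,
    Finset.filter_filter, smul_eq_mul, smul_eq_mul, mul_comm a, mul_comm b]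
  simp only [Set.mem_compl_iff]

theorem lam_lt_iff (S₁ : Set B) {a b : ℕ} (ha : 0 < a) (x y : W) :
    lam cs (wt S₁ a b) y < lam cs (wt S₁ a b) x ↔
      (0 : ℚ) < (((nd cs S₁ x : ℤ) - (nd cs S₁ y : ℤ) : ℤ) : ℚ) +
        ((b : ℚ) / a) * (((nd cs S₁ᶜ x : ℤ) - (nd cs S₁ᶜ y : ℤ) : ℤ) : ℚ) := by
  have haq : (0 : ℚ) < a := by exact_mod_cast ha
  rw [lam_wt, lam_wt, ← @Nat.cast_lt ℚ]
  push_cast
  rw [← mul_pos_iff_of_pos_left haq]
  have e : (a : ℚ) * ((nd cs S₁ x : ℚ) - (nd cs S₁ y : ℚ) +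
      (b : ℚ) / a * ((nd cs S₁ᶜ x : ℚ) - (nd cs S₁ᶜ y : ℚ))) =
      (a * nd cs S₁ x + b * nd cs S₁ᶜ x) - (a * nd cs S₁ y + b * nd cs S₁ᶜ y) := by
    field_simp
    ring
  rw [e, sub_pos]

theorem abs_nd (A : Set B) (x y : W) :
    |(nd cs A x : ℤ) - (nd cs A y : ℤ)| ≤ (Nat.card A : ℕ) := by
  have h1 := nd_le cs A x
  have h2 := nd_le cs A y
  rw [abs_le]
  constructor <;> omega

/-- between critical ratios the comparison of weights is constant -/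
theorem lt_of_no_crit (S₁ : Set B) {a b a' b' : ℕ} (ha : 0 < a) (hb : 0 < b) (ha' : 0 < a')
    (hb' : 0 < b')
    (hno : ∀ ρ, Crit (Nat.card S₁) (Nat.card ↑S₁ᶜ) ρ →
      ¬ (((b : ℚ) / a < ρ ∧ ρ ≤ (b' : ℚ) / a') ∨ ((b' : ℚ) / a' ≤ ρ ∧ ρ < (b : ℚ) / a)))
    {x y : W} (h : lam cs (wt S₁ a b) y < lam cs (wt S₁ a b) x) :
    lam cs (wt S₁ a' b') y < lam cs (wt S₁ a' b') x := by
  rw [lam_lt_iff cs S₁ ha] at h
  rw [lam_lt_iff cs S₁ ha']
  by_contra hc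
  rw [not_lt] at hc
  obtain ⟨ρ, h1, h2⟩ := root_exists (abs_nd cs S₁ x y) (abs_nd cs S₁ᶜ x y)
    (div_pos (by exact_mod_cast hb) (by exact_mod_cast ha))
    (div_pos (by exact_mod_cast hb') (by exact_mod_cast ha')) h hc
  exact hno ρ h1 h2

/-- (a) -/
theorem cell_const (S₁ : Set B) {a b a' b' : ℕ} (ha : 0 < a) (hb : 0 < b) (ha' : 0 < a')
    (hb' : 0 < b')
    (hno : ∀ ρ, Crit (Nat.card S₁) (Nat.card ↑S₁ᶜ) ρ →
      ¬ (((b : ℚ) / a ≤ ρ ∧ ρ ≤ (b' : ℚ) / a') ∨ ((b' : ℚ) / a' ≤ ρ ∧ ρ ≤ (b : ℚ) / a)))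
    (x y : W) : Cell cs (wt S₁ a b) x y ↔ Cell cs (wt S₁ a' b') x y := by
  have hh : ∀ x y, lam cs (wt S₁ a b) x ≤ lam cs (wt S₁ a b) y ↔
      lam cs (wt S₁ a' b') x ≤ lam cs (wt S₁ a' b') y := by
    intro x y
    rw [← not_lt, ← not_lt, not_iff_not]
    constructor
    · refine lt_of_no_crit cs S₁ ha hb ha' hb' ?_
      intro ρ hρ hc
      refine hno ρ hρ ?_
      rcases hc with hc | hc
      · exact Or.inl ⟨hc.1.le, hc.2⟩
      · exact Or.inr ⟨hc.1, hc.2.le⟩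
    · refine lt_of_no_crit cs S₁ ha' hb' ha hb ?_
      intro ρ hρ hc
      refine hno ρ hρ ?_
      rcases hc with hc | hc
      · exact Or.inr ⟨hc.1.le, hc.2⟩
      · exact Or.inl ⟨hc.1, hc.2.le⟩
  exact ⟨cell_of_equiv cs hh x y, cell_of_equiv cs (fun x y => (hh x y).symm) x y⟩

/-- the cells depend only on the ratio -/
theorem cell_ratio (S₁ : Set B) {a b a' b' : ℕ} (ha : 0 < a) (ha' : 0 < a')
    (heq : (b : ℚ) / a = (b' : ℚ) / a')
    (x y : W) : Cell cs (wt S₁ a b) x y ↔ Cell cs (wt S₁ a' b') x y := by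
  have hh : ∀ x y, lam cs (wt S₁ a b) x ≤ lam cs (wt S₁ a b) y ↔
      lam cs (wt S₁ a' b') x ≤ lam cs (wt S₁ a' b') y := by
    intro x y
    rw [← not_lt, ← not_lt, not_iff_not, lam_lt_iff cs S₁ ha, lam_lt_iff cs S₁ ha', heq]
  exact ⟨cell_of_equiv cs hh x y, cell_of_equiv cs (fun x y => (hh x y).symm) x y⟩

/-- (b) -/
theorem cell_join (S₁ : Set B) {a b a₁ b₁ a₂ b₂ : ℕ} (ha : 0 < a) (hb : 0 < b) (ha₁ : 0 < a₁)
    (hb₁ : 0 < b₁) (ha₂ : 0 < a₂) (hb₂ : 0 < b₂)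
    (h1 : (b₁ : ℚ) / a₁ < (b : ℚ) / a) (h2 : (b : ℚ) / a < (b₂ : ℚ) / a₂)
    (hno : ∀ ρ, Crit (Nat.card S₁) (Nat.card ↑S₁ᶜ) ρ → (b₁ : ℚ) / a₁ ≤ ρ → ρ ≤ (b₂ : ℚ) / a₂ →
      ρ = (b : ℚ) / a)
    (huniq : ∀ {x u u' : W}, Tight cs (wt S₁ a b) u → Suf cs u x →
      alp cs (wt S₁ a b) u = alp cs (wt S₁ a b) x →
      Tight cs (wt S₁ a b) u' → Suf cs u' x →
      alp cs (wt S₁ a b) u' = alp cs (wt S₁ a b) x → u = u')
    (S S' S'' : Setoid W) (hS : ∀ x y, S x y ↔ Cell cs (wt S₁ a b) x y)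
    (hS' : ∀ x y, S' x y ↔ Cell cs (wt S₁ a₁ b₁) x y)
    (hS'' : ∀ x y, S'' x y ↔ Cell cs (wt S₁ a₂ b₂) x y) : S = S' ⊔ S'' := by
  refine join_eq cs ?_ ?_ ?_ huniq S S' S'' hS hS' hS''
  · intro x y
    refine lt_of_no_crit cs S₁ ha hb ha₁ hb₁ ?_
    rintro ρ hρ (⟨hc, hc'⟩ | ⟨hc, hc'⟩)
    · linarith
    · have := hno ρ hρ hc (by linarith)
      linarith
  · intro x y
    refine lt_of_no_crit cs S₁ ha hb ha₂ hb₂ ?_
    rintro ρ hρ (⟨hc, hc'⟩ | ⟨hc, hc'⟩)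
    · have := hno ρ hρ (by linarith) hc'
      linarith
    · linarith
  · intro x y k1 k2
    have e1 := lam_lt_iff cs S₁ (b := b₁) ha₁ x y
    have e2 := lam_lt_iff cs S₁ (b := b₂) ha₂ x y
    have e3 := lam_lt_iff cs S₁ (b := b) ha x y
    have e1' := lam_lt_iff cs S₁ (b := b₁) ha₁ y x
    have e3' := lam_lt_iff cs S₁ (b := b) ha y x
    rw [← not_lt, e1, not_lt] at k1
    rw [← not_lt, e2, not_lt] at k2
    set α : ℚ := (((nd cs S₁ x : ℤ) - (nd cs S₁ y : ℤ) : ℤ) : ℚ) with hα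
    set β : ℚ := (((nd cs S₁ᶜ x : ℤ) - (nd cs S₁ᶜ y : ℤ) : ℤ) : ℚ) with hβ
    have hα' : (((nd cs S₁ y : ℤ) - (nd cs S₁ x : ℤ) : ℤ) : ℚ) = -α := by
      rw [hα]; push_cast; ring
    have hβ' : (((nd cs S₁ᶜ y : ℤ) - (nd cs S₁ᶜ x : ℤ) : ℤ) : ℚ) = -β := by
      rw [hβ]; push_cast; ring
    rw [hα', hβ'] at e1' e3'
    set θ := (b : ℚ) / a
    set θ₁ := (b₁ : ℚ) / a₁
    set θ₂ := (b₂ : ℚ) / a₂
    have e : (α + θ * β) * (θ₂ - θ₁) = (α + θ₁ * β) * (θ₂ - θ) + (α + θ₂ * β) * (θ - θ₁) := by ring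
    have l1 : (α + θ₁ * β) * (θ₂ - θ) ≤ 0 := mul_nonpos_of_nonpos_of_nonneg k1 (by linarith)
    have l2 : (α + θ₂ * β) * (θ - θ₁) ≤ 0 := mul_nonpos_of_nonpos_of_nonneg k2 (by linarith)
    have l3 : (α + θ * β) * (θ₂ - θ₁) ≤ 0 := by rw [e]; linarith
    have l4 : α + θ * β ≤ 0 := by
      by_contra hc
      rw [not_le] at hc
      have := mul_pos hc (show (0 : ℚ) < θ₂ - θ₁ by linarith)
      linarith
    refine ⟨?_, ?_⟩
    · rw [← not_lt, e3, not_lt]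
      exact l4
    · intro heq
      have h5 : ¬ (0 : ℚ) < -α + θ * -β := by
        rw [← e3', heq]
        exact lt_irrefl _
      have h6 : α + θ * β = 0 := by
        apply le_antisymm l4
        rw [not_lt] at h5
        linarith
      rw [h6, zero_mul] at e
      have h7 : (α + θ₁ * β) * (θ₂ - θ) = 0 := by linarith
      have h8 : α + θ₁ * β = 0 := by
        rcases mul_eq_zero.1 h7 with h | h
        · exact h
        · linarith
      apply le_antisymm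
      · rw [← not_lt, e1, h8]
        exact lt_irrefl _
      · rw [← not_lt, e1']
        have : -α + θ₁ * -β = 0 := by linarith
        rw [this]
        exact lt_irrefl _

end

end Pool.Agent.Lib.MP_754fa1_al
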