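import Pool.Agent.Lib.MP_754fa1_al.Comb

open LaurentPolynomial

namespace Pool.Agent.Lib.MP_754fa1_al

universe u v w

variable {B : Type u} {W : Type v} [Group W] {M : CoxeterMatrix B}

/-! G1a. Exchange property for right-angled Coxeter systems. -/

open Classical in
/-- the indicator of `t = s_i` in `ZMod 2` -/
noncomputable def g1ind (cs : CoxeterSystem M W) (i : B) (t : W) : ZMod 2 :=
  if t = cs.simple i then 1 else 0

theorem g1ind_conj (cs : CoxeterSystem M W) (i : B) (t : W) :
    g1ind cs i (cs.simple i * t * cs.simple i) = g1ind cs i t := by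
  unfold g1ind
  have h : cs.simple i * t * cs.simple i = cs.simple i ↔ t = cs.simple i := by
    constructor
    · intro h
      have h1 : cs.simple i * t = 1 := by
        have := congrArg (· * cs.simple i) h
        simpa [mul_assoc] using this
      have h2 := congrArg (cs.simple i * ·) h1
      simpa [← mul_assoc] using h2
    · rintro rfl
      simp
  by_cases ht : t = cs.simple i
  · rw [if_pos ht, if_pos (h.mpr ht)]
  · rw [if_neg ht, if_neg (fun h' => ht (h.mp h'))]

theorem zmod2_add_self (a : ZMod 2) : a + a = 0 := by
  fin_cases a <;> rfl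

/-- the involution `(t, e) ↦ (s_i t s_i, e + [t = s_i])` -/
noncomputable def g1perm (cs : CoxeterSystem M W) (i : B) : Equiv.Perm (W × ZMod 2) :=
  Function.Involutive.toPerm
    (fun p => (cs.simple i * p.1 * cs.simple i, p.2 + g1ind cs i p.1))
    (by
      rintro ⟨t, e⟩
      simp only [g1ind_conj]
      refine Prod.ext ?_ ?_
      · simp [mul_assoc]
      · show e + g1ind cs i t + g1ind cs i t = e
        rw [add_assoc, zmod2_add_self, add_zero])

theorem g1perm_apply (cs : CoxeterSystem M W) (i : B) (t : W) (e : ZMod 2) :
    g1perm cs i (t, e) = (cs.simple i * t * cs.simple i, e + g1ind cs i t) := rfl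

variable (cs : CoxeterSystem M W) (hM : RightAngled M)
include hM

theorem g1_liftable : M.IsLiftable (g1perm cs) := by
  intro i j
  rcases eq_or_ne i j with rfl | hij
  · rw [M.diagonal, pow_one]
    ext ⟨t, e⟩ : 1
    show g1perm cs i (g1perm cs i (t, e)) = (t, e)
    rw [g1perm_apply, g1perm_apply, g1ind_conj]
    refine Prod.ext ?_ ?_
    · simp [mul_assoc]
    · show e + g1ind cs i t + g1ind cs i t = e
      rw [add_assoc, zmod2_add_self, add_zero]
  · rcases hM i j hij with h | h
    · rw [h]
      have hcomm : cs.simple i * cs.simple j = cs.simple j * cs.simple i := by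
        have h1 := cs.simple_mul_simple_pow i j
        rw [h, pow_two] at h1
        have h2 := eq_inv_of_mul_eq_one_left h1
        rw [mul_inv_rev, cs.inv_simple, cs.inv_simple] at h2
        exact h2
      have hind : ∀ (a b : B), cs.simple a * cs.simple b = cs.simple b * cs.simple a → ∀ t : W,
          g1ind cs a (cs.simple b * t * cs.simple b) = g1ind cs a t := by
        intro a b hab t
        unfold g1ind
        have h3 : cs.simple b * t * cs.simple b = cs.simple a ↔ t = cs.simple a := by
          constructor
          · intro h4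
            have h5 : t = cs.simple b * (cs.simple b * t * cs.simple b) * cs.simple b := by
              simp [mul_assoc]
            rw [h5, h4, ← hab, mul_assoc, cs.simple_mul_simple_self, mul_one]
          · rintro rfl
            rw [← hab, mul_assoc, cs.simple_mul_simple_self, mul_one]
        by_cases ht : t = cs.simple a
        · rw [if_pos ht, if_pos (h3.mpr ht)]
        · rw [if_neg ht, if_neg (fun h' => ht (h3.mp h'))]
      ext ⟨t, e⟩ : 1
      rw [pow_two]
      show g1perm cs i (g1perm cs j (g1perm cs i (g1perm cs j (t, e)))) = (t, e)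
      simp only [g1perm_apply]
      rw [hind i j hcomm, hind j i hcomm.symm, g1ind_conj, hind i j hcomm, g1ind_conj,
        hind i j hcomm]
      refine Prod.ext ?_ ?_
      · show cs.simple i * (cs.simple j * (cs.simple i * (cs.simple j * t * cs.simple j)
          * cs.simple i) * cs.simple j) * cs.simple i = t
        have h6 : cs.simple i * (cs.simple j * (cs.simple i * (cs.simple j * t * cs.simple j)
            * cs.simple i) * cs.simple j) * cs.simple i
            = (cs.simple i * cs.simple j * (cs.simple i * cs.simple j)) * t *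
              (cs.simple j * cs.simple i * (cs.simple j * cs.simple i)) := by
          simp only [mul_assoc]
        have h7 : cs.simple i * cs.simple j * (cs.simple i * cs.simple j) = 1 := by
          nth_rewrite 2 [hcomm]
          simp [mul_assoc]
        have h8 : cs.simple j * cs.simple i * (cs.simple j * cs.simple i) = 1 := by
          rw [← hcomm]
          exact h7
        rw [h6, h7, h8, one_mul, mul_one]
      · show e + g1ind cs j t + g1ind cs i t + g1ind cs j t + g1ind cs i t = e
        have : e + g1ind cs j t + g1ind cs i t + g1ind cs j t + g1ind cs i t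
            = e + (g1ind cs j t + g1ind cs j t) + (g1ind cs i t + g1ind cs i t) := by ring
        rw [this, zmod2_add_self, zmod2_add_self, add_zero, add_zero]
    · rw [h, pow_zero]

open Classical in
theorem g1_count (ω : List B) (t : W) (e : ZMod 2) :
    cs.lift ⟨g1perm cs, g1_liftable cs hM⟩ (cs.wordProd ω) (t, e)
      = (cs.wordProd ω * t * (cs.wordProd ω)⁻¹, e + ((cs.rightInvSeq ω).count t : ZMod 2)) := by
  induction ω with
  | nil => simp
  | cons i ω ih =>
    rw [cs.wordProd_cons, map_mul, cs.lift_apply_simple]
    show g1perm cs i (cs.lift ⟨g1perm cs, g1_liftable cs hM⟩ (cs.wordProd ω) (t, e)) = _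
    rw [ih, g1perm_apply]
    refine Prod.ext ?_ ?_
    · simp [mul_assoc]
    · show e + ((cs.rightInvSeq ω).count t : ZMod 2)
        + g1ind cs i (cs.wordProd ω * t * (cs.wordProd ω)⁻¹)
        = e + ((cs.rightInvSeq (i :: ω)).count t : ZMod 2)
      rw [CoxeterSystem.rightInvSeq, List.count_cons, Nat.cast_add, add_assoc]
      congr 2
      unfold g1ind
      have h : cs.wordProd ω * t * (cs.wordProd ω)⁻¹ = cs.simple i
          ↔ (cs.wordProd ω)⁻¹ * cs.simple i * cs.wordProd ω = t := by
        constructor
        · intro h; rw [← h]; group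
        · intro h; rw [← h]; group
      by_cases ht : cs.wordProd ω * t * (cs.wordProd ω)⁻¹ = cs.simple i
      · rw [if_pos ht, if_pos (by rw [beq_iff_eq]; exact h.mp ht)]; simp
      · rw [if_neg ht, if_neg (by rw [beq_iff_eq]; exact fun h' => ht (h.mpr h'))]; simp

theorem simple_mem_ris (ω : List B) (i : B) (hd : cs.IsRightDescent (cs.wordProd ω) i) :
    cs.simple i ∈ cs.rightInvSeq ω := by
  classical
  obtain ⟨ω', hω', hω'2⟩ := cs.exists_isReduced (cs.wordProd ω * cs.simple i)
  have hprod : cs.wordProd (ω'.concat i) = cs.wordProd ω := by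
    rw [List.concat_eq_append, cs.wordProd_append, ← hω'2]
    simp
  have hred : cs.IsReduced (ω'.concat i) := by
    show cs.length (cs.wordProd (ω'.concat i)) = (ω'.concat i).length
    rw [hprod, List.length_concat, ← hω'.eq, ← hω'2]
    exact ((cs.isRightDescent_iff).mp hd).symm
  have hmem : cs.simple i ∈ cs.rightInvSeq (ω'.concat i) := by
    rw [cs.rightInvSeq_concat]
    simp
  have hcount : (cs.rightInvSeq (ω'.concat i)).count (cs.simple i) = 1 :=
    List.count_eq_one_of_mem hred.nodup_rightInvSeq hmem
  have h1 := g1_count cs hM ω (cs.simple i) 0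
  have h2 := g1_count cs hM (ω'.concat i) (cs.simple i) 0
  rw [hprod, h1] at h2
  have h3 := congrArg Prod.snd h2
  simp only [zero_add] at h3
  rw [hcount, Nat.cast_one] at h3
  by_contra hcon
  rw [List.count_eq_zero_of_not_mem hcon, Nat.cast_zero] at h3
  exact absurd h3 (by decide)

theorem exch_right (ω : List B) (hω : cs.IsReduced ω) (i : B)
    (hd : cs.IsRightDescent (cs.wordProd ω) i) :
    ∃ k, k < ω.length ∧ cs.wordProd ω * cs.simple i = cs.wordProd (ω.eraseIdx k) := by
  have h := simple_mem_ris cs hM ω i hd
  obtain ⟨k, hk, hk2⟩ := List.mem_iff_getElem.mp h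
  refine ⟨k, by simpa using hk, ?_⟩
  rw [← cs.wordProd_mul_getD_rightInvSeq ω k, List.getD_eq_getElem _ _ hk, hk2]

theorem exch_left (ω : List B) (hω : cs.IsReduced ω) (i : B)
    (hd : cs.IsLeftDescent (cs.wordProd ω) i) :
    ∃ k, k < ω.length ∧ cs.simple i * cs.wordProd ω = cs.wordProd (ω.eraseIdx k) := by
  have hd' : cs.IsRightDescent (cs.wordProd ω.reverse) i := by
    rw [cs.wordProd_reverse]
    exact cs.isRightDescent_inv_iff.mpr hd
  have h := simple_mem_ris cs hM ω.reverse i hd'
  rw [cs.rightInvSeq_reverse, List.mem_reverse] at h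
  obtain ⟨k, hk, hk2⟩ := List.mem_iff_getElem.mp h
  refine ⟨k, by simpa using hk, ?_⟩
  rw [← cs.getD_leftInvSeq_mul_wordProd ω k, List.getD_eq_getElem _ _ hk, hk2]

end Pool.Agent.Lib.MP_754fa1_al
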