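import Pool.Agent.Lib.MP_754fa1_al.G1a

open LaurentPolynomial

namespace Pool.Agent.Lib.MP_754fa1_al

universe u v w

variable {B : Type u} {W : Type v} [Group W] {M : CoxeterMatrix B}

/-! G1b. Descents in right-angled Coxeter systems.
`desc_comm`: if `i ≠ j` are left descents of `x` and `M i j = 0`: by exchange `x` has reduced words
starting with alternating words in `i, j` of every length (at each step the exchanged letter is not in
the alternating initial part, because `⟨s_i, s_j⟩` is infinite dihedral: use the homomorphism of `W` to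
`Perm ℤ` with `s_i ↦ (n ↦ -n)`, `s_j ↦ (n ↦ 4 - n)`, all other `s_k ↦ 1`), contradiction.
The others are formal consequences (lengths change by one; `ℓ(s_i s_j x) = ℓ(s_j s_i x)`).
`red0` by induction on `ℓ x`: take a right descent `s` of `x = x' s`, `s` is not a left descent of `y`,
and `x', s y` satisfy the hypothesis by `desc_of_mul`, `rdesc_mul`. -/

variable (cs : CoxeterSystem M W)

theorem simple_comm {i j : B} (h : M i j = 2) :
    cs.simple i * cs.simple j = cs.simple j * cs.simple i := by
  have h1 := cs.simple_mul_simple_pow i j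
  rw [h, pow_two] at h1
  have h2 : cs.simple i * cs.simple j = (cs.simple i * cs.simple j)⁻¹ :=
    eq_inv_of_mul_eq_one_left h1
  rw [h2, mul_inv_rev, cs.inv_simple, cs.inv_simple]

/-- The alternating word `i, j, i, ...` of length `n`. -/
def altW (i j : B) : ℕ → List B
  | 0 => []
  | n + 1 => i :: altW j i n

theorem length_altW (i j : B) (n : ℕ) : (altW i j n).length = n := by
  induction n generalizing i j with
  | zero => rfl
  | succ n ih => simp [altW, ih]

open Classical in
/-- The images of the generators in the infinite dihedral group. -/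
noncomputable def dihGen (i j : B) (k : B) : Equiv.Perm ℤ :=
  if k = i then Equiv.neg ℤ else if k = j then Equiv.subLeft 4 else 1

theorem dihGen_sq (i j k : B) : dihGen i j k * dihGen i j k = 1 := by
  unfold dihGen
  split_ifs
  · ext n; simp
  · ext n; simp
  · simp

theorem dihGen_liftable (hM : RightAngled M) {i j : B} (hij : M i j = 0) :
    M.IsLiftable (dihGen i j) := by
  intro k l
  by_cases hkl : k = l
  · subst hkl
    rw [dihGen_sq, one_pow]
  · rcases hM k l hkl with h | h
    · have h1 : dihGen i j k = 1 ∨ dihGen i j l = 1 := by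
        by_contra hcon
        push Not at hcon
        obtain ⟨hk, hl⟩ := hcon
        have hk' : k = i ∨ k = j := by
          by_contra hc
          push Not at hc
          exact hk (by unfold dihGen; rw [if_neg hc.1, if_neg hc.2])
        have hl' : l = i ∨ l = j := by
          by_contra hc
          push Not at hc
          exact hl (by unfold dihGen; rw [if_neg hc.1, if_neg hc.2])
        have hji : M j i = 0 := by rw [M.symmetric j i]; exact hij
        rcases hk' with rfl | rfl <;> rcases hl' with rfl | rfl
        · exact hkl rfl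
        · rw [hij] at h; exact absurd h (by norm_num)
        · rw [hji] at h; exact absurd h (by norm_num)
        · exact hkl rfl
      rw [h, pow_two]
      rcases h1 with h1 | h1
      · rw [h1, one_mul, dihGen_sq]
      · rw [h1, mul_one, dihGen_sq]
    · rw [h, pow_zero]

/-- The homomorphism to the infinite dihedral group. -/
noncomputable def dihHom (hM : RightAngled M) {i j : B} (hij : M i j = 0) : W →* Equiv.Perm ℤ :=
  cs.lift ⟨dihGen i j, dihGen_liftable hM hij⟩

theorem dihHom_simple (hM : RightAngled M) {i j : B} (hij : M i j = 0) (k : B) :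
    dihHom cs hM hij (cs.simple k) = dihGen i j k := by
  unfold dihHom
  exact cs.lift_apply_simple (dihGen_liftable hM hij) k

theorem dihGen_isom (i j k : B) (a b : ℤ) : |dihGen i j k a - dihGen i j k b| = |a - b| := by
  unfold dihGen
  split_ifs
  · simp only [Equiv.neg_apply]
    rw [show -a - -b = -(a - b) by ring, abs_neg]
  · simp only [Equiv.subLeft_apply]
    rw [show 4 - a - (4 - b) = -(a - b) by ring, abs_neg]
  · simp

theorem dihGen_one_le (i j k : B) : |dihGen i j k 1 - 1| ≤ 2 := by
  unfold dihGen
  split_ifs
  · simp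
  · simp
  · simp

theorem dih_word_le (hM : RightAngled M) {i j : B} (hij : M i j = 0) (ω : List B) :
    |dihHom cs hM hij (cs.wordProd ω) 1 - 1| ≤ 2 * ω.length := by
  induction ω with
  | nil => simp
  | cons k ω ih =>
    rw [cs.wordProd_cons, map_mul, Equiv.Perm.mul_apply, dihHom_simple]
    have h1 := dihGen_isom i j k (dihHom cs hM hij (cs.wordProd ω) 1) 1
    have h2 := dihGen_one_le i j k
    have h3 : dihGen i j k (dihHom cs hM hij (cs.wordProd ω) 1) - 1
        = (dihGen i j k (dihHom cs hM hij (cs.wordProd ω) 1) - dihGen i j k 1)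
          + (dihGen i j k 1 - 1) := by ring
    rw [h3]
    refine (abs_add_le _ _).trans ?_
    rw [h1]
    push_cast [List.length_cons]
    linarith

theorem dih_alt (hM : RightAngled M) {i j : B} (hij : M i j = 0) (hne : i ≠ j) (n : ℕ) :
    dihHom cs hM hij (cs.wordProd (altW i j n)) 1 = 1 - 2 * n ∧
      dihHom cs hM hij (cs.wordProd (altW j i n)) 1 = 1 + 2 * n := by
  induction n with
  | zero => simp [altW]
  | succ n ih =>
    have hgi : dihGen i j i = Equiv.neg ℤ := by unfold dihGen; rw [if_pos rfl]
    have hgj : dihGen i j j = Equiv.subLeft 4 := by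
      unfold dihGen; rw [if_neg (Ne.symm hne), if_pos rfl]
    constructor
    · rw [altW, cs.wordProd_cons, map_mul, Equiv.Perm.mul_apply, dihHom_simple, ih.2, hgi]
      simp only [Equiv.neg_apply]
      push_cast
      ring
    · rw [altW, cs.wordProd_cons, map_mul, Equiv.Perm.mul_apply, dihHom_simple, ih.1, hgj]
      simp only [Equiv.subLeft_apply]
      push_cast
      ring

theorem alt_ne (hM : RightAngled M) {i j : B} (hij : M i j = 0) (hne : i ≠ j) (n : ℕ)
    (ω : List B) (hω : ω.length < n) :
    cs.wordProd (altW i j n) ≠ cs.wordProd ω ∧ cs.wordProd (altW j i n) ≠ cs.wordProd ω := by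
  have h1 := dih_word_le cs hM hij ω
  obtain ⟨h2, h3⟩ := dih_alt cs hM hij hne n
  have h4 : (ω.length : ℤ) < n := by exact_mod_cast hω
  constructor
  · intro h
    rw [← h, h2] at h1
    rw [show (1 : ℤ) - 2 * n - 1 = -(2 * n) by ring, abs_neg, abs_of_nonneg (by positivity)] at h1
    linarith
  · intro h
    rw [← h, h3] at h1
    rw [show (1 : ℤ) + 2 * n - 1 = 2 * n by ring, abs_of_nonneg (by positivity)] at h1
    linarith

variable (hM : RightAngled M)
include hM

theorem alt_step {x : W} {i j : B} (hi : cs.IsLeftDescent x i) (n : ℕ)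
    (hbad : ∀ ω : List B, ω.length < n + 1 → cs.wordProd (altW i j (n + 1)) ≠ cs.wordProd ω)
    (h : ∃ ρ, cs.IsReduced (altW j i n ++ ρ) ∧ x = cs.wordProd (altW j i n ++ ρ)) :
    ∃ ρ, cs.IsReduced (altW i j (n + 1) ++ ρ) ∧ x = cs.wordProd (altW i j (n + 1) ++ ρ) := by
  obtain ⟨ρ, hr, hx⟩ := h
  rw [hx] at hi
  obtain ⟨k, hk, hk2⟩ := exch_left cs hM _ hr i hi
  by_cases hkn : k < n
  · exfalso
    have hk3 : k < (altW j i n).length := by rw [length_altW]; exact hkn
    rw [List.eraseIdx_append_of_lt_length hk3, cs.wordProd_append, cs.wordProd_append,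
      ← mul_assoc] at hk2
    have hk4 := mul_right_cancel hk2
    rw [← cs.wordProd_cons] at hk4
    refine hbad ((altW j i n).eraseIdx k) ?_ hk4
    rw [List.length_eraseIdx_of_lt hk3, length_altW]
    omega
  · push Not at hkn
    have hk3 : (altW j i n).length ≤ k := by rw [length_altW]; exact hkn
    rw [List.eraseIdx_append_of_length_le hk3] at hk2
    refine ⟨ρ.eraseIdx (k - (altW j i n).length), ?_, ?_⟩
    · have hx2 : cs.wordProd (altW i j (n + 1) ++ ρ.eraseIdx (k - (altW j i n).length))
          = cs.wordProd (altW j i n ++ ρ) := by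
        rw [altW, List.cons_append, cs.wordProd_cons, ← hk2, cs.simple_mul_simple_cancel_left]
      unfold CoxeterSystem.IsReduced
      rw [hx2, hr.eq]
      rw [List.length_append] at hk
      have hk5 : k - (altW j i n).length < ρ.length := by omega
      rw [List.length_append, List.length_append, List.length_eraseIdx_of_lt hk5, length_altW,
        length_altW]
      omega
    · rw [hx, altW, List.cons_append, cs.wordProd_cons, ← hk2, cs.simple_mul_simple_cancel_left]

theorem desc_comm {x : W} {i j : B} (hi : cs.IsLeftDescent x i) (hj : cs.IsLeftDescent x j)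
    (hij : i ≠ j) : M i j = 2 := by
  rcases hM i j hij with h | h
  · exact h
  · exfalso
    have key : ∀ n, (∃ ρ, cs.IsReduced (altW i j n ++ ρ) ∧ x = cs.wordProd (altW i j n ++ ρ)) ∧
        (∃ ρ, cs.IsReduced (altW j i n ++ ρ) ∧ x = cs.wordProd (altW j i n ++ ρ)) := by
      intro n
      induction n with
      | zero =>
        obtain ⟨ω, h1, h2⟩ := cs.exists_isReduced x
        exact ⟨⟨ω, by simpa [altW] using h1, by simpa [altW] using h2⟩,
          ⟨ω, by simpa [altW] using h1, by simpa [altW] using h2⟩⟩
      | succ n ih =>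
        refine ⟨alt_step cs hM hi n (fun ω hω => (alt_ne cs hM h hij (n + 1) ω hω).1) ih.2,
          alt_step cs hM hj n (fun ω hω => (alt_ne cs hM h hij (n + 1) ω hω).2) ih.1⟩
    obtain ⟨⟨ρ, h1, h2⟩, -⟩ := key (cs.length x + 1)
    have h3 := h1.eq
    rw [← h2, List.length_append, length_altW] at h3
    omega

theorem desc_two {x : W} {i j : B} (hi : cs.IsLeftDescent x i) (hj : cs.IsLeftDescent x j)
    (hij : i ≠ j) : cs.IsLeftDescent (cs.simple j * x) i := by
  have hc := desc_comm cs hM hi hj hij
  have hcomm := simple_comm cs hc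
  obtain ⟨ω, h1, h2⟩ := cs.exists_isReduced (cs.simple i * x)
  have hx : x = cs.wordProd (i :: ω) := by
    rw [cs.wordProd_cons, ← h2, cs.simple_mul_simple_cancel_left]
  have hli := cs.isLeftDescent_iff.1 hi
  have hlj := cs.isLeftDescent_iff.1 hj
  have hred : cs.IsReduced (i :: ω) := by
    unfold CoxeterSystem.IsReduced
    rw [← hx, List.length_cons, ← h1.eq, ← h2]
    exact hli.symm
  have hj' : cs.IsLeftDescent (cs.wordProd (i :: ω)) j := by rw [← hx]; exact hj
  obtain ⟨k, hk, hk2⟩ := exch_left cs hM _ hred j hj'
  rw [← hx] at hk2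
  rcases Nat.eq_zero_or_pos k with hk0 | hk0
  · exfalso
    subst hk0
    rw [List.eraseIdx_cons_zero, ← h2] at hk2
    have hs : cs.simple j = cs.simple i := mul_right_cancel hk2
    -- `s_i = s_j` is impossible
    let f : B → Multiplicative (ZMod 2) :=
      open Classical in fun k => if k = i then Multiplicative.ofAdd 1 else 1
    have hf : M.IsLiftable f := by
      intro a b
      by_cases hab : a = b
      · subst hab
        have h22 : f a * f a = 1 := by
          simp only [f]
          split_ifs
          · rfl
          · rfl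
        rw [h22, one_pow]
      · rcases hM a b hab with h | h
        · rw [h, pow_two, mul_mul_mul_comm]
          have h22 : ∀ c, f c * f c = 1 := by
            intro c
            simp only [f]
            split_ifs
            · rfl
            · rfl
          rw [h22, h22, one_mul]
        · rw [h, pow_zero]
    have e1 : cs.lift ⟨f, hf⟩ (cs.simple i) = Multiplicative.ofAdd 1 := by
      rw [cs.lift_apply_simple hf]
      simp [f]
    have e2 : cs.lift ⟨f, hf⟩ (cs.simple j) = 1 := by
      rw [cs.lift_apply_simple hf]
      simp [f, Ne.symm hij]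
    rw [hs, e1] at e2
    exact absurd e2 (by decide)
  · obtain ⟨k, rfl⟩ : ∃ k', k = k' + 1 := ⟨k - 1, by omega⟩
    rw [List.eraseIdx_cons_succ, cs.wordProd_cons] at hk2
    have h3 : cs.simple i * (cs.simple j * x) = cs.wordProd (ω.eraseIdx k) := by
      rw [hk2, cs.simple_mul_simple_cancel_left]
    unfold CoxeterSystem.IsLeftDescent
    rw [h3]
    have h4 := cs.length_wordProd_le (ω.eraseIdx k)
    rw [List.length_cons] at hk
    have hk6 : k < ω.length := by omega
    rw [List.length_eraseIdx_of_lt hk6] at h4
    have h5 : cs.length (cs.simple i * x) = ω.length := by rw [h2]; exact h1.eq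
    omega

theorem desc_mul {x : W} {i j : B} (hi : cs.IsLeftDescent x i) (hij : M i j = 2) :
    cs.IsLeftDescent (cs.simple j * x) i := by
  have hne : i ≠ j := by
    rintro rfl
    rw [M.diagonal] at hij
    exact absurd hij (by norm_num)
  by_cases hj : cs.IsLeftDescent x j
  · exact desc_two cs hM hi hj hne
  · rw [cs.not_isLeftDescent_iff] at hj
    have hi' := cs.isLeftDescent_iff.1 hi
    unfold CoxeterSystem.IsLeftDescent
    rw [hj, ← mul_assoc, simple_comm cs hij, mul_assoc]
    have := cs.length_mul_le (cs.simple j) (cs.simple i * x)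
    rw [cs.length_simple] at this
    omega

theorem desc_of_mul {x : W} {i j : B} (hj : ¬ cs.IsLeftDescent x j)
    (hi : cs.IsLeftDescent (cs.simple j * x) i) (hij : i ≠ j) :
    M i j = 2 ∧ cs.IsLeftDescent x i := by
  have hj' : cs.IsLeftDescent (cs.simple j * x) j := by
    rw [cs.not_isLeftDescent_iff] at hj
    unfold CoxeterSystem.IsLeftDescent
    rw [cs.simple_mul_simple_cancel_left]
    omega
  refine ⟨desc_comm cs hM hi hj' hij, ?_⟩
  have := desc_two cs hM hi hj' hij
  rwa [cs.simple_mul_simple_cancel_left] at this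

theorem rdesc_comm {x : W} {i j : B} (hi : cs.IsRightDescent x i) (hj : cs.IsRightDescent x j)
    (hij : i ≠ j) : M i j = 2 := by
  rw [← cs.isLeftDescent_inv_iff] at hi hj
  exact desc_comm cs hM hi hj hij

theorem rdesc_two {x : W} {i j : B} (hi : cs.IsRightDescent x i) (hj : cs.IsRightDescent x j)
    (hij : i ≠ j) : cs.IsRightDescent (x * cs.simple j) i := by
  rw [← cs.isLeftDescent_inv_iff] at hi hj ⊢
  rw [mul_inv_rev, cs.inv_simple]
  exact desc_two cs hM hi hj hij

theorem rdesc_mul {x : W} {i j : B} (hi : cs.IsRightDescent x i) (hij : M i j = 2) :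
    cs.IsRightDescent (x * cs.simple j) i := by
  rw [← cs.isLeftDescent_inv_iff] at hi ⊢
  rw [mul_inv_rev, cs.inv_simple]
  exact desc_mul cs hM hi hij

theorem rdesc_of_mul {x : W} {i j : B} (hj : ¬ cs.IsRightDescent x j)
    (hi : cs.IsRightDescent (x * cs.simple j) i) (hij : i ≠ j) :
    M i j = 2 ∧ cs.IsRightDescent x i := by
  rw [← cs.isLeftDescent_inv_iff] at hi hj ⊢
  rw [mul_inv_rev, cs.inv_simple] at hi
  exact desc_of_mul cs hM hj hi hij

theorem red0 (x y : W) (h : ∀ i, ¬ (cs.IsRightDescent x i ∧ cs.IsLeftDescent y i)) :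
    cs.length (x * y) = cs.length x + cs.length y := by
  obtain ⟨n, hn⟩ : ∃ n, cs.length x = n := ⟨_, rfl⟩
  induction n generalizing x y with
  | zero =>
    rw [cs.length_eq_zero_iff] at hn
    subst hn
    simp
  | succ n ih =>
    have hx1 : x ≠ 1 := by
      rintro rfl
      simp at hn
    obtain ⟨s, hs⟩ := cs.exists_rightDescent_of_ne_one hx1
    have hsy : ¬ cs.IsLeftDescent y s := fun h' => h s ⟨hs, h'⟩
    have hls := cs.isRightDescent_iff.1 hs
    have hly := (cs.not_isLeftDescent_iff.1 hsy)
    have hih := ih (x * cs.simple s) (cs.simple s * y) (by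
      rintro i ⟨h1, h2⟩
      by_cases his : i = s
      · subst his
        unfold CoxeterSystem.IsRightDescent at h1
        rw [cs.simple_mul_simple_cancel_right] at h1
        omega
      · obtain ⟨h3, h4⟩ := desc_of_mul cs hM hsy h2 his
        have h5 := rdesc_mul cs hM h1 h3
        rw [cs.simple_mul_simple_cancel_right] at h5
        exact h i ⟨h5, h4⟩) (by omega)
    have hprod : x * cs.simple s * (cs.simple s * y) = x * y := by
      rw [← mul_assoc, cs.simple_mul_simple_cancel_right]
    rw [hprod] at hih
    omega

end Pool.Agent.Lib.MP_754fa1_al
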