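import Pool.Agent.Lib.MP_754fa1_al.LP

open LaurentPolynomial

namespace Pool.Agent.Lib.MP_754fa1_al

universe u v w

variable {B : Type u} {W : Type v} [Group W] {M : CoxeterMatrix B}

/-! HB1. Hecke algebra basics (no bar involution, any Coxeter system). -/

/-- induction along reduced expressions, new letters on the left -/
theorem len_induction_left (cs : CoxeterSystem M W) {p : W → Prop} (h1 : p 1)
    (hs : ∀ (i : B) (x : W), ¬ cs.IsLeftDescent x i → p x → p (cs.simple i * x)) (x : W) : p x := by
  induction hn : cs.length x using Nat.strong_induction_on generalizing x with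
  | _ n ih =>
    by_cases hx : x = 1
    · rw [hx]
      exact h1
    · obtain ⟨i, hi⟩ := cs.exists_leftDescent_of_ne_one hx
      have h2 : cs.length (cs.simple i * x) < n := by
        rw [← hn]
        exact hi
      have h3 := ih _ h2 (cs.simple i * x) rfl
      have h4 := hs i (cs.simple i * x) (cs.isLeftDescent_iff_not_isLeftDescent_mul.1 hi) h3
      rwa [cs.simple_mul_simple_cancel_left] at h4

/-- induction along reduced expressions, new letters on the right -/
theorem len_induction_right (cs : CoxeterSystem M W) {p : W → Prop} (h1 : p 1)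
    (hs : ∀ (i : B) (x : W), ¬ cs.IsRightDescent x i → p x → p (x * cs.simple i)) (x : W) : p x := by
  induction hn : cs.length x using Nat.strong_induction_on generalizing x with
  | _ n ih =>
    by_cases hx : x = 1
    · rw [hx]
      exact h1
    · obtain ⟨i, hi⟩ := cs.exists_rightDescent_of_ne_one hx
      have h2 : cs.length (x * cs.simple i) < n := by
        rw [← hn]
        exact hi
      have h3 := ih _ h2 (x * cs.simple i) rfl
      have h4 := hs i (x * cs.simple i) (cs.isRightDescent_iff_not_isRightDescent_mul.1 hi) h3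
      rwa [cs.simple_mul_simple_cancel_right] at h4

theorem invert_xi (n : ℕ) : invert (xi n) = -xi n := by
  rw [xi, map_sub, invert_T, invert_T, neg_neg, neg_sub]

namespace Hecke

variable {cs : CoxeterSystem M W} {L : B → ℕ} {H : Type w} [Ring H] [Algebra Lau H]

variable (D : Hecke cs L H)

theorem t_one : D.t 1 = 1 := by
  have h1 : LinearMap.mulLeft Lau (D.t 1) = LinearMap.id := by
    apply D.t.ext
    intro x
    rw [LinearMap.mulLeft_apply, D.t_mul 1 x (by rw [one_mul, cs.length_one, zero_add]), one_mul]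
    rfl
  have h2 := LinearMap.congr_fun h1 1
  rw [LinearMap.mulLeft_apply, mul_one] at h2
  exact h2

theorem t_sq (i : B) :
    D.t (cs.simple i) * D.t (cs.simple i) = 1 + xi (L i) • D.t (cs.simple i) := by
  have h1 := D.t_quad i
  rw [sub_mul, mul_add, mul_add, ← Algebra.commutes, ← Algebra.smul_def, ← Algebra.smul_def,
    ← map_mul (algebraMap Lau H), ← T_add, add_neg_cancel, T_zero, map_one] at h1
  rw [xi, sub_smul]
  have h2 : D.t (cs.simple i) * D.t (cs.simple i) = 1 + ((T (L i : ℤ) : Lau) • D.t (cs.simple i) -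
      (T (-(L i : ℤ)) : Lau) • D.t (cs.simple i)) + (D.t (cs.simple i) * D.t (cs.simple i) +
      (T (-(L i : ℤ)) : Lau) • D.t (cs.simple i) -
      ((T (L i : ℤ) : Lau) • D.t (cs.simple i) + 1)) := by
    abel
  rw [h2, h1, add_zero]

theorem s_mul_up (i : B) (x : W) (h : ¬ cs.IsLeftDescent x i) :
    D.t (cs.simple i) * D.t x = D.t (cs.simple i * x) := by
  apply D.t_mul
  rw [cs.not_isLeftDescent_iff.1 h, cs.length_simple, add_comm]

theorem s_mul_down (i : B) (x : W) (h : cs.IsLeftDescent x i) :
    D.t (cs.simple i) * D.t x = D.t (cs.simple i * x) + xi (L i) • D.t x := by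
  have h1 := D.s_mul_up i (cs.simple i * x) (cs.isLeftDescent_iff_not_isLeftDescent_mul.1 h)
  rw [cs.simple_mul_simple_cancel_left] at h1
  conv_lhs => rw [← h1]
  rw [← mul_assoc, t_sq, add_mul, one_mul, smul_mul_assoc, h1]

theorem mul_s_up (i : B) (x : W) (h : ¬ cs.IsRightDescent x i) :
    D.t x * D.t (cs.simple i) = D.t (x * cs.simple i) := by
  apply D.t_mul
  rw [cs.not_isRightDescent_iff.1 h, cs.length_simple]

theorem mul_s_down (i : B) (x : W) (h : cs.IsRightDescent x i) :
    D.t x * D.t (cs.simple i) = D.t (x * cs.simple i) + xi (L i) • D.t x := by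
  have h1 := D.mul_s_up i (x * cs.simple i) (cs.isRightDescent_iff_not_isRightDescent_mul.1 h)
  rw [cs.simple_mul_simple_cancel_right] at h1
  conv_lhs => rw [← h1]
  rw [mul_assoc, t_sq, mul_add, mul_one, mul_smul_comm, h1]

theorem lat_mono {m n : ℤ} {h : H} (k : D.Lat m h) (hmn : m ≤ n) : D.Lat n h :=
  fun z => (k z).mono hmn

theorem lat_zero (n : ℤ) : D.Lat n 0 := by
  intro z
  rw [map_zero]
  exact DegLe.zero

theorem lat_add {n : ℤ} {h k : H} (a : D.Lat n h) (b : D.Lat n k) : D.Lat n (h + k) := by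
  intro z
  rw [map_add]
  exact (a z).add (b z)

theorem lat_neg {n : ℤ} {h : H} (a : D.Lat n h) : D.Lat n (-h) := by
  intro z
  rw [map_neg]
  exact (a z).neg

theorem lat_sub {n : ℤ} {h k : H} (a : D.Lat n h) (b : D.Lat n k) : D.Lat n (h - k) := by
  intro z
  rw [map_sub]
  exact (a z).sub (b z)

theorem lat_smul {m n : ℤ} {p : Lau} {h : H} (a : DegLe m p) (b : D.Lat n h) :
    D.Lat (m + n) (p • h) := by
  intro z
  rw [map_smul]
  exact a.mul (b z)

theorem lat_t (x : W) : D.Lat 0 (D.t x) := by
  classical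
  intro z
  rw [Module.Basis.repr_self, Finsupp.single_apply]
  split_ifs
  · exact DegLe.one
  · exact DegLe.zero

/-- the `t x` span everything -/
theorem t_induction {p : H → Prop} (ht : ∀ x, p (D.t x)) (h0 : p 0)
    (ha : ∀ a b, p a → p b → p (a + b)) (hs : ∀ (r : Lau) a, p a → p (r • a)) (h : H) : p h := by
  have h1 : h ∈ Submodule.span Lau (Set.range D.t) := by
    rw [D.t.span_eq]
    trivial
  induction h1 using Submodule.span_induction with
  | mem x hx =>
    obtain ⟨y, rfl⟩ := hx
    exact ht y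
  | zero => exact h0
  | add x y _ _ hx hy => exact ha x y hx hy
  | smul r x _ hx => exact hs r x hx

theorem lat_exists (h : H) : ∃ n, D.Lat n h := by
  refine D.t_induction (p := fun h => ∃ n, D.Lat n h) (fun x => ⟨0, D.lat_t x⟩)
    ⟨0, D.lat_zero 0⟩ ?_ ?_ h
  · rintro a b ⟨m, hm⟩ ⟨n, hn⟩
    exact ⟨max m n, D.lat_add (D.lat_mono hm (le_max_left m n))
      (D.lat_mono hn (le_max_right m n))⟩
  · rintro r a ⟨m, hm⟩
    obtain ⟨k, hk⟩ := DegLe.exists r
    exact ⟨k + m, D.lat_smul hk hm⟩

theorem lat_sum {ι : Type*} {n : ℤ} (s : Finset ι) (f : ι → H) (h : ∀ i ∈ s, D.Lat n (f i)) :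
    D.Lat n (∑ i ∈ s, f i) := by
  classical
  induction s using Finset.induction_on with
  | empty =>
    rw [Finset.sum_empty]
    exact D.lat_zero n
  | insert a s ha ih =>
    rw [Finset.sum_insert ha]
    exact D.lat_add (h a (Finset.mem_insert_self _ _))
      (ih fun i hi => h i (Finset.mem_insert_of_mem hi))

theorem posH_t (x : W) : D.PosH (D.t x) := by
  classical
  intro z
  rw [Module.Basis.repr_self, Finsupp.single_apply]
  split_ifs
  · exact Pos.one
  · exact Pos.zero

theorem posH_zero : D.PosH 0 := by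
  intro z
  rw [map_zero]
  exact Pos.zero

theorem posH_add {h k : H} (a : D.PosH h) (b : D.PosH k) : D.PosH (h + k) := by
  intro z
  rw [map_add]
  exact (a z).add (b z)

theorem posH_smul {p : Lau} {h : H} (a : Pos p) (b : D.PosH h) : D.PosH (p • h) := by
  intro z
  rw [map_smul]
  exact a.mul (b z)

theorem posH_sum {ι : Type*} (s : Finset ι) (f : ι → H) (h : ∀ i ∈ s, D.PosH (f i)) :
    D.PosH (∑ i ∈ s, f i) := by
  classical
  induction s using Finset.induction_on with
  | empty =>
    rw [Finset.sum_empty]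
    exact D.posH_zero
  | insert a s ha ih =>
    rw [Finset.sum_insert ha]
    exact D.posH_add (h a (Finset.mem_insert_self _ _))
      (ih fun i hi => h i (Finset.mem_insert_of_mem hi))

/-- expansion of `h` in the standard basis -/
theorem sum_repr (h : H) : h = (D.t.repr h).sum (fun x a => a • D.t x) := by
  conv_lhs => rw [← D.t.linearCombination_repr h, Finsupp.linearCombination_apply]

theorem posH_s_mul (hL : ∀ i, 0 < L i) (i : B) {k : H} (b : D.PosH k) :
    D.PosH (D.t (cs.simple i) * k) := by
  rw [D.sum_repr k, Finsupp.sum, Finset.mul_sum]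
  apply D.posH_sum
  intro z _
  rw [mul_smul_comm]
  apply D.posH_smul (b z)
  by_cases hz : cs.IsLeftDescent z i
  · rw [D.s_mul_down i z hz]
    exact D.posH_add (D.posH_t _) (D.posH_smul (Pos.xi (hL i)) (D.posH_t _))
  · rw [D.s_mul_up i z hz]
    exact D.posH_t _

theorem posH_t_mul (hL : ∀ i, 0 < L i) (x : W) {k : H} (b : D.PosH k) :
    D.PosH (D.t x * k) := by
  induction x using len_induction_left cs with
  | h1 => rwa [t_one, one_mul]
  | hs i x hx ih =>
    rw [← D.s_mul_up i x hx, mul_assoc]
    exact D.posH_s_mul hL i ih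

/-- the product of two `PosH` elements is `PosH` (positive parameters) -/
theorem posH_mul (hL : ∀ i, 0 < L i) {h k : H} (a : D.PosH h) (b : D.PosH k) :
    D.PosH (h * k) := by
  rw [D.sum_repr h, Finsupp.sum, Finset.sum_mul]
  apply D.posH_sum
  intro z _
  rw [smul_mul_assoc]
  exact D.posH_smul (a z) (D.posH_t_mul hL z b)

/-- generators generate: a submodule containing `1` and stable under left multiplication by the
`t (s i)` is everything -/
theorem gen_induction (S : Submodule Lau H) (h1 : (1 : H) ∈ S)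
    (hs : ∀ i, ∀ h ∈ S, D.t (cs.simple i) * h ∈ S) (h : H) : h ∈ S := by
  refine D.t_induction (p := fun h => h ∈ S) ?_ S.zero_mem (fun a b => S.add_mem)
    (fun r a => S.smul_mem r) h
  intro x
  induction x using len_induction_left cs with
  | h1 => rwa [t_one]
  | hs i x hx ih =>
    rw [← D.s_mul_up i x hx]
    exact hs i _ ih

/-! ### filtration by length, and bar involutions -/

/-- the span of the `t y` with `length y < n` -/
noncomputable def Sp (n : ℕ) : Submodule Lau H := Submodule.span Lau (D.t '' {y | cs.length y < n})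

theorem mem_sp_iff {n : ℕ} {h : H} :
    h ∈ D.Sp n ↔ ∀ z, n ≤ cs.length z → D.t.repr h z = 0 := by
  rw [Sp, Module.Basis.mem_span_image]
  constructor
  · intro h1 z hz
    by_contra h2
    have h3 := h1 (Finset.mem_coe.2 (Finsupp.mem_support_iff.2 h2))
    exact absurd h3 (not_lt.2 hz)
  · intro h1 z hz
    rw [Finset.mem_coe, Finsupp.mem_support_iff] at hz
    by_contra h2
    exact hz (h1 z (not_lt.1 h2))

theorem sp_mono {m n : ℕ} (h : m ≤ n) : D.Sp m ≤ D.Sp n :=
  Submodule.span_mono (Set.image_mono fun _ hy => lt_of_lt_of_le hy h)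

theorem t_mem_sp {n : ℕ} {x : W} (h : cs.length x < n) : D.t x ∈ D.Sp n :=
  Submodule.subset_span ⟨x, h, rfl⟩

theorem exists_sp (h : H) : ∃ n, h ∈ D.Sp n := by
  refine D.t_induction (p := fun h => ∃ n, h ∈ D.Sp n) (fun x => ⟨_, D.t_mem_sp (Nat.lt_succ_self _)⟩)
    ⟨0, Submodule.zero_mem _⟩ ?_ ?_ h
  · rintro a b ⟨m, hm⟩ ⟨n, hn⟩
    exact ⟨max m n, Submodule.add_mem _ (D.sp_mono (le_max_left m n) hm)
      (D.sp_mono (le_max_right m n) hn)⟩
  · rintro r a ⟨m, hm⟩
    exact ⟨m, Submodule.smul_mem _ r hm⟩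

theorem sp_zero {h : H} (hh : h ∈ D.Sp 0) : h = 0 := by
  apply D.t.repr.injective
  rw [map_zero]
  ext1 z
  exact D.mem_sp_iff.1 hh z (Nat.zero_le _)

theorem sp_induction {n : ℕ} {p : H → Prop} (ht : ∀ x, cs.length x < n → p (D.t x)) (h0 : p 0)
    (ha : ∀ a b, p a → p b → p (a + b)) (hs : ∀ (r : Lau) a, p a → p (r • a)) {h : H}
    (hh : h ∈ D.Sp n) : p h := by
  induction hh using Submodule.span_induction with
  | mem x hx =>
    obtain ⟨y, hy, rfl⟩ := hx
    exact ht y hy
  | zero => exact h0
  | add x y _ _ hx hy => exact ha x y hx hy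
  | smul r x _ hx => exact hs r x hx

theorem s_mul_sp (i : B) {n : ℕ} {h : H} (hh : h ∈ D.Sp n) :
    D.t (cs.simple i) * h ∈ D.Sp (n + 1) := by
  refine D.sp_induction (p := fun h => D.t (cs.simple i) * h ∈ D.Sp (n + 1)) ?_ ?_ ?_ ?_ hh
  · intro x hx
    by_cases hd : cs.IsLeftDescent x i
    · rw [D.s_mul_down i x hd]
      have h1 := cs.isLeftDescent_iff.1 hd
      exact Submodule.add_mem _ (D.t_mem_sp (by omega))
        (Submodule.smul_mem _ _ (D.t_mem_sp (by omega)))
    · rw [D.s_mul_up i x hd]
      have h1 := cs.not_isLeftDescent_iff.1 hd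
      exact D.t_mem_sp (by omega)
  · rw [mul_zero]
    exact Submodule.zero_mem _
  · intro a b ha hb
    rw [mul_add]
    exact Submodule.add_mem _ ha hb
  · intro r a ha
    rw [mul_smul_comm]
    exact Submodule.smul_mem _ r ha

/-- the inverse of `t s` -/
theorem t_s_inv (i : B) : D.t (cs.simple i) * (D.t (cs.simple i) - xi (L i) • (1 : H)) = 1 := by
  rw [mul_sub, mul_smul_comm, mul_one, t_sq, add_sub_cancel_right]

theorem t_s_inv' (i : B) : (D.t (cs.simple i) - xi (L i) • (1 : H)) * D.t (cs.simple i) = 1 := by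
  rw [sub_mul, smul_mul_assoc, one_mul, t_sq, add_sub_cancel_right]

section Bar

variable (b : H →+* H) (hb : ∀ a : Lau, b (algebraMap Lau H a) = algebraMap Lau H (invert a))

include hb

theorem b_smul (p : Lau) (h : H) : b (p • h) = invert p • b h := by
  rw [Algebra.smul_def, map_mul, hb, ← Algebra.smul_def]

variable (ht : ∀ x : W, b (D.t x) * D.t x⁻¹ = 1)

omit hb in
include ht in
theorem b_s (i : B) : b (D.t (cs.simple i)) = D.t (cs.simple i) - xi (L i) • (1 : H) := by
  have h1 := ht (cs.simple i)
  rw [cs.inv_simple] at h1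
  calc b (D.t (cs.simple i)) = b (D.t (cs.simple i)) *
        (D.t (cs.simple i) * (D.t (cs.simple i) - xi (L i) • (1 : H))) := by
        rw [t_s_inv, mul_one]
    _ = D.t (cs.simple i) - xi (L i) • (1 : H) := by
        rw [← mul_assoc, h1, one_mul]

include ht in
theorem b_b (h : H) : b (b h) = h := by
  let S : Submodule Lau H :=
    { carrier := {h | b (b h) = h}
      add_mem' := fun {x y} hx hy => by
        change b (b (x + y)) = x + y
        rw [map_add, map_add, hx, hy]
      zero_mem' := by
        change b (b 0) = 0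
        rw [map_zero, map_zero]
      smul_mem' := fun r x hx => by
        change b (b (r • x)) = r • x
        rw [b_smul b hb, b_smul b hb, invert_invert', hx] }
  have h1 : (1 : H) ∈ S := by
    change b (b 1) = 1
    rw [map_one, map_one]
  refine D.gen_induction S h1 ?_ h
  intro i x hx
  change b (b (_ * x)) = _ * x
  have hx' : b (b x) = x := hx
  rw [map_mul, map_mul, hx', D.b_s b ht, map_sub, D.b_s b ht, b_smul b hb, map_one, invert_xi,
    neg_smul, sub_neg_eq_add, sub_add_cancel]

omit hb in
include ht in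
theorem b_tri (x : W) : b (D.t x) - D.t x ∈ D.Sp (cs.length x) := by
  induction x using len_induction_left cs with
  | h1 =>
    rw [t_one, map_one, sub_self]
    exact Submodule.zero_mem _
  | hs i x hx ih =>
    rw [← D.s_mul_up i x hx, map_mul, D.b_s b ht, cs.not_isLeftDescent_iff.1 hx]
    have h1 : (D.t (cs.simple i) - xi (L i) • (1 : H)) * b (D.t x) - D.t (cs.simple i) * D.t x =
        D.t (cs.simple i) * (b (D.t x) - D.t x) - xi (L i) • (b (D.t x) - D.t x) -
          xi (L i) • D.t x := by
      rw [sub_mul, mul_sub, smul_mul_assoc, one_mul, smul_sub]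
      abel
    rw [h1]
    refine Submodule.sub_mem _ (Submodule.sub_mem _ (D.s_mul_sp i ih)
      (Submodule.smul_mem _ _ (D.sp_mono (Nat.le_succ _) ih))) (Submodule.smul_mem _ _
      (D.t_mem_sp (Nat.lt_succ_self _)))

include ht in
theorem b_top {n : ℕ} {h : H} (hh : h ∈ D.Sp (n + 1)) {z : W} (hz : cs.length z = n) :
    D.t.repr (b h) z = invert (D.t.repr h z) := by
  classical
  refine D.sp_induction (p := fun h => D.t.repr (b h) z = invert (D.t.repr h z)) ?_ ?_ ?_ ?_ hh
  · intro x hx
    have h1 := D.mem_sp_iff.1 (D.b_tri b ht x) z (by omega)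
    rw [map_sub, Finsupp.sub_apply, sub_eq_zero] at h1
    rw [h1, Module.Basis.repr_self, Finsupp.single_apply]
    split_ifs
    · rw [map_one]
    · rw [map_zero]
  · rw [map_zero, map_zero, Finsupp.zero_apply, map_zero]
  · intro x y hx hy
    rw [map_add, map_add, map_add, Finsupp.add_apply, Finsupp.add_apply, map_add, hx, hy]
  · intro r x hx
    rw [b_smul b hb, map_smul, map_smul, Finsupp.smul_apply, Finsupp.smul_apply, smul_eq_mul,
      smul_eq_mul, map_mul, hx]

include ht in
theorem sp_of_b {m : ℕ} {r : H} (h1 : b r - r ∈ D.Sp m) (h2 : D.Lat (-1) r) : r ∈ D.Sp m := by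
  obtain ⟨n, hn⟩ := D.exists_sp r
  have h3 : r ∈ D.Sp (m + n) := D.sp_mono (Nat.le_add_left _ _) hn
  clear hn
  induction n with
  | zero => exact h3
  | succ n ih =>
    apply ih
    rw [← add_assoc] at h3
    rw [mem_sp_iff]
    intro z hz
    rcases Nat.eq_or_lt_of_le hz with h4 | h4
    · have h5 := D.b_top b hb ht h3 h4.symm
      have h6 := D.mem_sp_iff.1 h1 z (by omega)
      rw [map_sub, Finsupp.sub_apply, sub_eq_zero, h5] at h6
      exact bar_neg h6 (h2 z)
    · exact D.mem_sp_iff.1 h3 z (by omega)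

end Bar

end Hecke

end Pool.Agent.Lib.MP_754fa1_al
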