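import Pool.Agent.Lib.MP_754fa1_al.HB1

open LaurentPolynomial

namespace Pool.Agent.Lib.MP_754fa1_al

universe u v w

variable {B : Type u} {W : Type v} [Group W] {M : CoxeterMatrix B}

/-! HB2. Bar involution and Kazhdan-Lusztig basis (any Coxeter system, general facts).
`t_mem_span_c`, `c_tri`, `t_tri`: induction on the length; `bar (t x) - t x = ∑ q_y c_y` over shorter `y`,
`invert q_y = - q_y`, `exists_half`, and `c_eq`.
`lat_iff`: if `d` is the largest degree of the `c`-coordinates `a_z` of `h`, then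
`∑ a_z t_z = h - ∑ a_z (c_z - t_z)` and the last sum is in `Lat (d - 1)`. -/

namespace KL

variable {cs : CoxeterSystem M W} {L : B → ℕ} {H : Type w} [Ring H] [Algebra Lau H]

variable (D : KL cs L H)

theorem lat_c_sub_t (x : W) : D.Lat (-1) (D.c x - D.t x) := by
  intro z k hk
  exact D.c_sub x z k (by omega)

theorem lat_c (x : W) : D.Lat 0 (D.c x) := by
  have h1 := D.lat_add (D.lat_mono (D.lat_c_sub_t x) (by norm_num : (-1 : ℤ) ≤ 0)) (D.lat_t x)
  rwa [sub_add_cancel] at h1

/-- bar is semilinear -/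
theorem bar_smul (p : Lau) (h : H) : D.bar (p • h) = invert p • D.bar h :=
  Hecke.b_smul D.bar D.bar_alg p h

theorem bar_t_simple (i : B) :
    D.bar (D.t (cs.simple i)) = D.t (cs.simple i) - xi (L i) • (1 : H) :=
  D.toHecke.b_s D.bar D.bar_t i

theorem bar_bar (h : H) : D.bar (D.bar h) = h :=
  D.toHecke.b_b D.bar D.bar_alg D.bar_t h

/-- triangularity of the bar involution -/
theorem bar_tri (x : W) : D.bar (D.t x) - D.t x ∈
    Submodule.span Lau (D.t '' {y | cs.length y < cs.length x}) :=
  D.toHecke.b_tri D.bar D.bar_t x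

/-- a bar-invariant element of `v⁻¹ Λ` is zero -/
theorem bar_uniq {h : H} (hb : D.bar h = h) (hl : D.Lat (-1) h) : h = 0 := by
  apply D.sp_zero
  apply D.toHecke.sp_of_b D.bar D.bar_alg D.bar_t _ hl
  rw [hb, sub_self]
  exact Submodule.zero_mem _

/-- characterisation of `c x` -/
theorem c_eq {h : H} (x : W) (hb : D.bar h = h) (hl : D.Lat (-1) (h - D.t x)) : h = D.c x := by
  rw [← sub_eq_zero]
  apply D.bar_uniq
  · rw [map_sub, hb, D.bar_c]
  · have h1 := D.lat_sub hl (D.lat_c_sub_t x)
    rwa [sub_sub_sub_cancel_right] at h1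

theorem c_tri (x : W) : D.c x - D.t x ∈
    Submodule.span Lau (D.t '' {y | cs.length y < cs.length x}) := by
  apply D.toHecke.sp_of_b D.bar D.bar_alg D.bar_t _ (D.lat_c_sub_t x)
  rw [map_sub, D.bar_c, sub_sub_sub_cancel_left, ← neg_sub]
  exact Submodule.neg_mem _ (D.bar_tri x)

/-- the span of the `c y` with `length y < n` -/
noncomputable def SpC (n : ℕ) : Submodule Lau H :=
  Submodule.span Lau (D.c '' {y | cs.length y < n})

theorem spC_mono {m n : ℕ} (h : m ≤ n) : D.SpC m ≤ D.SpC n :=
  Submodule.span_mono (Set.image_mono fun _ hy => lt_of_lt_of_le hy h)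

theorem sp_le_spC (n : ℕ) : D.Sp n ≤ D.SpC n := by
  induction n with
  | zero =>
    intro h hh
    rw [D.sp_zero hh]
    exact Submodule.zero_mem _
  | succ n ih =>
    rw [Hecke.Sp, Submodule.span_le]
    rintro _ ⟨y, hy, rfl⟩
    have h1 : D.t y = D.c y - (D.c y - D.t y) := by rw [sub_sub_cancel]
    rw [h1]
    refine Submodule.sub_mem _ (Submodule.subset_span ⟨y, hy, rfl⟩) ?_
    have hy' : cs.length y ≤ n := Nat.le_of_lt_succ hy
    exact D.spC_mono (Nat.le_succ n) (ih (D.sp_mono hy' (D.c_tri y)))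

theorem t_tri (x : W) : D.t x - D.c x ∈
    Submodule.span Lau (D.c '' {y | cs.length y < cs.length x}) := by
  rw [← neg_sub]
  exact Submodule.neg_mem _ (D.sp_le_spC _ (D.c_tri x))

theorem t_mem_span_c (x : W) : D.t x ∈ Submodule.span Lau (Set.range D.c) := by
  have h1 := D.sp_le_spC _ (D.t_mem_sp (Nat.lt_succ_self (cs.length x)))
  exact Submodule.span_mono (Set.image_subset_range _ _) h1

/-- the linear map `t x ↦ c x` -/
noncomputable def toC : H →ₗ[Lau] H := D.t.constr ℕ D.c

theorem toC_t (x : W) : D.toC (D.t x) = D.c x := by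
  rw [toC, Module.Basis.constr_basis]

theorem toC_sub {n : ℕ} {h : H} (hh : h ∈ D.Sp (n + 1)) : D.toC h - h ∈ D.Sp n := by
  refine D.sp_induction (p := fun h => D.toC h - h ∈ D.Sp n) ?_ ?_ ?_ ?_ hh
  · intro x hx
    rw [toC_t]
    exact D.sp_mono (Nat.le_of_lt_succ hx) (D.c_tri x)
  · rw [map_zero, sub_zero]
    exact Submodule.zero_mem _
  · intro a b ha hb
    rw [map_add, add_sub_add_comm]
    exact Submodule.add_mem _ ha hb
  · intro r a ha
    rw [map_smul, ← smul_sub]
    exact Submodule.smul_mem _ r ha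

theorem toC_inj {h : H} (h0 : D.toC h = 0) : h = 0 := by
  obtain ⟨n, hn⟩ := D.exists_sp h
  induction n with
  | zero => exact D.sp_zero hn
  | succ n ih =>
    apply ih
    have h1 := D.toC_sub hn
    rw [h0, zero_sub] at h1
    have h2 := Submodule.neg_mem _ h1
    rwa [neg_neg] at h2

theorem c_indep : LinearIndependent Lau D.c := by
  have h1 : D.c = D.toC ∘ D.t := by
    funext x
    rw [Function.comp_apply, toC_t]
  rw [h1]
  apply D.t.linearIndependent.map'
  rw [LinearMap.ker_eq_bot']
  intro h hh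
  exact D.toC_inj hh

/-- the Kazhdan-Lusztig basis -/
noncomputable def cB : Module.Basis W Lau H :=
  Module.Basis.mk D.c_indep (by
    intro h _
    rw [← D.t.linearCombination_repr h, Finsupp.linearCombination_apply]
    exact Submodule.sum_mem _ fun i _ => Submodule.smul_mem _ _ (D.t_mem_span_c i))

theorem cB_apply (x : W) : D.cB x = D.c x := Module.Basis.mk_apply _ _ x

theorem coe_cB : ⇑D.cB = D.c := Module.Basis.coe_mk _ _

/-- the `c x` span everything -/
theorem c_induction {p : H → Prop} (hc : ∀ x, p (D.c x)) (h0 : p 0)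
    (ha : ∀ a b, p a → p b → p (a + b)) (hs : ∀ (r : Lau) a, p a → p (r • a)) (h : H) : p h := by
  have h1 : h ∈ Submodule.span Lau (Set.range D.cB) := by
    rw [D.cB.span_eq]
    trivial
  induction h1 using Submodule.span_induction with
  | mem x hx =>
    obtain ⟨y, rfl⟩ := hx
    rw [cB_apply]
    exact hc y
  | zero => exact h0
  | add x y _ _ hx hy => exact ha x y hx hy
  | smul r x _ hx => exact hs r x hx

/-- the element with the same coordinates in the basis `t` as `h` has in the basis `c` -/
noncomputable def shadow (h : H) : H := Finsupp.linearCombination Lau D.t (D.cB.repr h)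

theorem repr_shadow (h : H) : D.t.repr (D.shadow h) = D.cB.repr h := by
  rw [shadow, Module.Basis.repr_linearCombination]

theorem lat_sub_shadow {d : ℤ} {h : H} (hd : ∀ z, DegLe d (D.cB.repr h z)) :
    D.Lat (d - 1) (h - D.shadow h) := by
  have h1 : h - D.shadow h = ∑ z ∈ (D.cB.repr h).support, D.cB.repr h z • (D.c z - D.t z) := by
    rw [shadow]
    conv_lhs => rw [← D.cB.linearCombination_repr h]
    rw [Module.Basis.repr_linearCombination, Finsupp.linearCombination_apply,
      Finsupp.linearCombination_apply, Finsupp.sum, Finsupp.sum, ← Finset.sum_sub_distrib]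
    refine Finset.sum_congr rfl ?_
    intro z _
    rw [cB_apply, smul_sub]
  rw [h1]
  apply D.lat_sum
  intro z _
  rw [sub_eq_add_neg]
  exact D.lat_smul (hd z) (D.lat_c_sub_t z)

theorem exists_deg (h : H) : ∃ d, ∀ z, DegLe d (D.cB.repr h z) := by
  obtain ⟨n, hn⟩ := D.lat_exists (D.shadow h)
  refine ⟨n, ?_⟩
  intro z
  have h1 := hn z
  rwa [D.repr_shadow] at h1

theorem lat_iff {n : ℤ} {h : H} : D.Lat n h ↔ ∀ z, DegLe n (D.cB.repr h z) := by
  constructor
  · intro hl
    obtain ⟨d, hd⟩ := D.exists_deg h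
    have h1 : ∀ z, DegLe (n + ((d - n).toNat : ℤ)) (D.cB.repr h z) := by
      intro z
      exact (hd z).mono (by omega)
    generalize (d - n).toNat = k at h1
    induction k with
    | zero =>
      intro z
      have h2 := h1 z
      rwa [Nat.cast_zero, add_zero] at h2
    | succ k ih =>
      apply ih
      intro z
      have h2 := D.lat_sub_shadow h1
      have h3 : D.Lat (n + (k : ℤ)) (h - (h - D.shadow h)) := by
        apply D.lat_sub (D.lat_mono hl (by omega))
        apply D.lat_mono h2
        push_cast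
        omega
      rw [sub_sub_cancel] at h3
      have h4 := h3 z
      rwa [D.repr_shadow] at h4
  · intro hl
    have h1 := D.lat_sub_shadow hl
    have h2 : D.Lat n (D.shadow h) := by
      intro z
      rw [D.repr_shadow]
      exact hl z
    have h3 := D.lat_add (D.lat_mono h1 (by omega : n - 1 ≤ n)) h2
    rwa [sub_add_cancel] at h3

/-- top coefficients agree in the two bases -/
theorem top_eq {n : ℤ} {h : H} (hl : D.Lat n h) (z : W) :
    (D.cB.repr h z).coeff n = (D.t.repr h z).coeff n := by
  have h1 := D.lat_sub_shadow (D.lat_iff.1 hl) z n (by omega)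
  rw [map_sub, Finsupp.sub_apply, D.repr_shadow] at h1
  have h2 : (D.t.repr h z - D.cB.repr h z).coeff n =
      (D.t.repr h z).coeff n - (D.cB.repr h z).coeff n := rfl
  rw [h2, sub_eq_zero] at h1
  exact h1.symm

theorem bar_repr (h : H) (z : W) : D.cB.repr (D.bar h) z = invert (D.cB.repr h z) := by
  classical
  refine D.c_induction (p := fun h => D.cB.repr (D.bar h) z = invert (D.cB.repr h z)) ?_ ?_ ?_ ?_ h
  · intro x
    rw [D.bar_c, ← D.cB_apply, Module.Basis.repr_self, Finsupp.single_apply]
    split_ifs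
    · rw [map_one]
    · rw [map_zero]
  · rw [map_zero, map_zero, Finsupp.zero_apply, map_zero]
  · intro x y hx hy
    rw [map_add, map_add, map_add, Finsupp.add_apply, Finsupp.add_apply, map_add, hx, hy]
  · intro r x hx
    rw [D.bar_smul, map_smul, map_smul, Finsupp.smul_apply, Finsupp.smul_apply, smul_eq_mul,
      smul_eq_mul, map_mul, hx]

theorem bar_coord {h : H} (hb : D.bar h = h) (z : W) :
    invert (D.cB.repr h z) = D.cB.repr h z := by
  rw [← D.bar_repr, hb]

theorem igt_coord [Fintype B] {m : ℕ} {h : H} (hh : h ∈ D.Igt m) {z : W} (hz : alp cs L z ≤ m) :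
    D.cB.repr h z = 0 := by
  rw [Igt, ← D.coe_cB, Module.Basis.mem_span_image] at hh
  by_contra h2
  have h3 := hh (Finset.mem_coe.2 (Finsupp.mem_support_iff.2 h2))
  exact absurd h3 (not_lt.2 hz)

theorem igt_of_coord [Fintype B] {m : ℕ} {h : H}
    (hh : ∀ z, alp cs L z ≤ m → D.cB.repr h z = 0) : h ∈ D.Igt m := by
  rw [Igt, ← D.coe_cB, Module.Basis.mem_span_image]
  intro z hz
  rw [Finset.mem_coe, Finsupp.mem_support_iff] at hz
  by_contra h2
  exact hz (hh z (not_lt.1 h2))

theorem step_iff (y x : W) : D.Step y x ↔ ∃ h, D.cB.repr (h * D.c x) y ≠ 0 := by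
  constructor
  · rintro ⟨h, a, h1, h2⟩
    refine ⟨h, ?_⟩
    rw [h1]
    have h3 : (a.sum fun z r => r • D.c z) = Finsupp.linearCombination Lau D.cB a := by
      rw [Finsupp.linearCombination_apply, coe_cB]
    rw [h3, Module.Basis.repr_linearCombination]
    exact h2
  · rintro ⟨h, h1⟩
    refine ⟨h, D.cB.repr (h * D.c x), ?_, h1⟩
    conv_lhs => rw [← D.cB.linearCombination_repr (h * D.c x)]
    rw [Finsupp.linearCombination_apply, coe_cB]

end KL

end Pool.Agent.Lib.MP_754fa1_al
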