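import Pool.Agent.Lib.MP_754fa1_al.LU
import Pool.Agent.Lib.MP_754fa1_al.OP

open LaurentPolynomial

namespace Pool.Agent.Lib.MP_754fa1_al

universe u v w

variable {B : Type u} {W : Type v} [Group W] {M : CoxeterMatrix B}

/-! ID. `I_{>m}` is a two-sided ideal for every `m`: decreasing induction on `m` (for `m ≥ ∑ L i` it is `0`).
`left_ideal`: a `C_z` with `alp z = m + 1` is `C_{x u}` with `u` tight, `alp u = m + 1` (`exists_tight`), so it is in
`H C_u + I_{>m+1}` (`lu_mem`), and `H C_u ⊆ I_{>m}` by `lu_span`.  Right ideal: apply `left_ideal` to the opposite data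
`opp D` (OP.lean, done) on `Hᵐᵒᵖ` with `t' x = op (t x⁻¹)`, `c' x = op (c x⁻¹)`, and `alp_inv`. -/

namespace KL
variable {cs : CoxeterSystem M W} {L : B → ℕ} {H : Type w} [Ring H] [Algebra Lau H]

variable [Fintype B] (D : KL cs L H)

theorem igt_anti {m n : ℕ} (h : m ≤ n) : D.Igt n ≤ D.Igt m := by
  unfold Igt
  apply Submodule.span_mono
  apply Set.image_mono
  intro z hz
  exact lt_of_le_of_lt h hz

theorem c_mem_igt {m : ℕ} {z : W} (h : m < alp cs L z) : D.c z ∈ D.Igt m :=
  Submodule.subset_span ⟨z, h, rfl⟩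

theorem mem_igt_iff {m : ℕ} {h : H} :
    h ∈ D.Igt m ↔ ∀ z, alp cs L z ≤ m → D.cB.repr h z = 0 :=
  ⟨fun hh _ hz => D.igt_coord hh hz, fun hh => D.igt_of_coord hh⟩

theorem left_ideal (hL : ∀ i, 0 < L i) (hM : RightAngled M) (m : ℕ)
    (hI : TwoSided (D.Igt (m + 1))) : ∀ x ∈ D.Igt m, ∀ h : H, h * x ∈ D.Igt m := by
  intro x hx h
  unfold Igt at hx
  induction hx using Submodule.span_induction with
  | mem x hx =>
    obtain ⟨z, hz, rfl⟩ := hx
    have hz' : m < alp cs L z := hz
    rcases Nat.lt_or_ge (m + 1) (alp cs L z) with h1 | h1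
    · exact D.igt_anti (Nat.le_succ m) (hI _ (D.c_mem_igt h1) h).1
    · have h2 : alp cs L z = m + 1 := by omega
      obtain ⟨u, hu, hs, ha⟩ := exists_tight cs L z
      rw [suf_iff] at hs
      obtain ⟨x, rfl, hlen⟩ := hs
      obtain ⟨k, hk⟩ := D.lu_mem hL hM (m + 1) hI x u hlen hu (ha.trans h2)
      have e : h * D.c (x * u) = h * (D.c (x * u) - k * D.c u) + (h * k) * D.c u := by
        rw [mul_sub, mul_assoc]; abel
      rw [e]
      refine (D.Igt m).add_mem (D.igt_anti (Nat.le_succ m) (hI _ hk h).1) ?_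
      rw [D.mem_igt_iff]
      intro w hw
      by_contra hne
      rcases D.lu_span hL hM (m + 1) hI u hu (ha.trans h2) (h * k) w hne with h3 | h3
      · omega
      · have := alp_mono cs L h3
        omega
  | zero => rw [mul_zero]; exact (D.Igt m).zero_mem
  | add x y _ _ hx hy => rw [mul_add]; exact (D.Igt m).add_mem hx hy
  | smul a x _ hx => rw [mul_smul_comm]; exact (D.Igt m).smul_mem a hx

theorem opp_igt (hM : RightAngled M) (m : ℕ) (h : Hᵐᵒᵖ) :
    h ∈ D.opp.Igt m ↔ MulOpposite.unop h ∈ D.Igt m := by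
  rw [mem_igt_iff, mem_igt_iff]
  constructor
  · intro k z hz
    have := k z⁻¹ (by rw [alp_inv cs L hM]; exact hz)
    rw [opp_cB_repr, inv_inv] at this
    exact this
  · intro k z hz
    rw [opp_cB_repr]
    exact k _ (by rw [alp_inv cs L hM]; exact hz)

theorem opp_two_sided (hM : RightAngled M) (m : ℕ) (h : TwoSided (D.Igt m)) :
    TwoSided (D.opp.Igt m) := by
  intro x hx k
  rw [opp_igt D hM] at hx
  rw [opp_igt D hM, opp_igt D hM, MulOpposite.unop_mul, MulOpposite.unop_mul]
  exact ⟨(h _ hx _).2, (h _ hx _).1⟩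

theorem two_sided (hL : ∀ i, 0 < L i) (hM : RightAngled M) (m : ℕ) : TwoSided (D.Igt m) := by
  have key : ∀ n : ℕ, ∀ m : ℕ, (∑ i, L i) ≤ m + n → TwoSided (D.Igt m) := by
    intro n
    induction n with
    | zero =>
      intro m hm x hx h
      have e : D.Igt m = ⊥ := by
        unfold Igt
        have : {z : W | m < alp cs L z} = ∅ := by
          ext z
          simp only [Set.mem_setOf_eq, Set.mem_empty_iff_false, iff_false, not_lt]
          have := alp_le_total cs L z
          omega
        rw [this, Set.image_empty, Submodule.span_empty]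
      rw [e, Submodule.mem_bot] at hx
      rw [hx, mul_zero, zero_mul]
      exact ⟨(D.Igt m).zero_mem, (D.Igt m).zero_mem⟩
    | succ n ih =>
      intro m hm
      have hI := ih (m + 1) (by omega)
      intro x hx h
      refine ⟨D.left_ideal hL hM m hI x hx h, ?_⟩
      have hx' : MulOpposite.op x ∈ D.opp.Igt m := by
        rw [opp_igt D hM, MulOpposite.unop_op]; exact hx
      have := D.opp.left_ideal hL hM m (D.opp_two_sided hM _ hI) _ hx' (MulOpposite.op h)
      rw [opp_igt D hM, MulOpposite.unop_mul, MulOpposite.unop_op, MulOpposite.unop_op] at this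
      exact this
  exact key (∑ i, L i) m (by omega)

end KL

end Pool.Agent.Lib.MP_754fa1_al
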