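import Pool.Agent.Lib.MP_754fa1_al.Comb

open LaurentPolynomial

namespace Pool.Agent.Lib.MP_754fa1_al

universe u v w

variable {B : Type u} {W : Type v} [Group W] {M : CoxeterMatrix B}

/-! LP. Laurent polynomials: degrees, leading coefficients, the involution `invert`. -/

theorem lp_coeff_add (p q : Lau) (k : ℤ) : (p + q).coeff k = p.coeff k + q.coeff k := rfl
theorem lp_coeff_sub (p q : Lau) (k : ℤ) : (p - q).coeff k = p.coeff k - q.coeff k := rfl
theorem lp_coeff_neg (p : Lau) (k : ℤ) : (-p).coeff k = - p.coeff k := rfl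
theorem lp_coeff_zero (k : ℤ) : (0 : Lau).coeff k = 0 := rfl

theorem DegLe.mono {m n : ℤ} {p : Lau} (h : DegLe m p) (hmn : m ≤ n) : DegLe n p :=
  fun k hk => h k (lt_of_le_of_lt hmn hk)

theorem DegLe.add {n : ℤ} {p q : Lau} (h : DegLe n p) (k : DegLe n q) : DegLe n (p + q) :=
  fun l hl => by rw [lp_coeff_add, h l hl, k l hl, add_zero]

theorem DegLe.neg {n : ℤ} {p : Lau} (h : DegLe n p) : DegLe n (-p) :=
  fun l hl => by rw [lp_coeff_neg, h l hl, neg_zero]

theorem DegLe.sub {n : ℤ} {p q : Lau} (h : DegLe n p) (k : DegLe n q) : DegLe n (p - q) :=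
  fun l hl => by rw [lp_coeff_sub, h l hl, k l hl, sub_zero]

theorem DegLe.zero {n : ℤ} : DegLe n 0 := fun _ _ => rfl

theorem DegLe.sum {ι : Type*} {n : ℤ} (s : Finset ι) (f : ι → Lau) (h : ∀ i ∈ s, DegLe n (f i)) :
    DegLe n (∑ i ∈ s, f i) := by
  classical
  induction s using Finset.induction_on with
  | empty => rw [Finset.sum_empty]; exact DegLe.zero
  | insert a s ha ih =>
    rw [Finset.sum_insert ha]
    exact (h a (Finset.mem_insert_self _ _)).add
      (ih fun i hi => h i (Finset.mem_insert_of_mem hi))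

theorem DegLe.le_of_mem {n : ℤ} {p : Lau} (h : DegLe n p) {a : ℤ} (ha : a ∈ p.coeff.support) :
    a ≤ n := by
  by_contra hcon
  exact (Finsupp.mem_support_iff.mp ha) (h a (not_le.mp hcon))

theorem DegLe.mul {m n : ℤ} {p q : Lau} (h : DegLe m p) (k : DegLe n q) :
    DegLe (m + n) (p * q) := by
  classical
  intro l hl
  rw [AddMonoidAlgebra.coeff_mul]
  refine Finset.sum_eq_zero fun a ha => Finset.sum_eq_zero fun b hb => ?_
  beta_reduce
  rw [if_neg]
  have h1 := h.le_of_mem ha
  have h2 := k.le_of_mem hb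
  omega

theorem DegLe.T {n k : ℤ} (h : k ≤ n) : DegLe n (T k : Lau) := by
  intro l hl
  rw [T_apply, if_neg (by omega)]

theorem DegLe.one : DegLe 0 (1 : Lau) := by
  rw [← T_zero]; exact DegLe.T le_rfl

theorem DegLe.xi (n : ℕ) : DegLe n (xi n) := (DegLe.T le_rfl).sub (DegLe.T (by omega))

theorem DegLe.eta (n : ℕ) : DegLe n (eta n) := (DegLe.T le_rfl).add (DegLe.T (by omega))

/-- every Laurent polynomial has a degree bound -/
theorem DegLe.exists (p : Lau) : ∃ n : ℤ, DegLe n p := by
  obtain ⟨n, hn⟩ := p.coeff.support.exists_le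
  refine ⟨n, fun k hk => ?_⟩
  by_contra hcon
  exact absurd (hn k (Finsupp.mem_support_iff.mpr hcon)) (by omega)

/-- a non-zero Laurent polynomial has a degree -/
theorem DegLe.exists_top {p : Lau} (hp : p ≠ 0) : ∃ d : ℤ, p.coeff d ≠ 0 ∧ DegLe d p := by
  have hne : p.coeff.support.Nonempty := by
    rw [Finset.nonempty_iff_ne_empty]
    intro h
    apply hp
    ext k
    have : k ∉ p.coeff.support := by rw [h]; exact Finset.notMem_empty k
    rw [lp_coeff_zero]
    exact Finsupp.notMem_support_iff.mp this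
  refine ⟨p.coeff.support.max' hne, Finsupp.mem_support_iff.mp (Finset.max'_mem _ _), ?_⟩
  intro k hk
  by_contra hcon
  exact absurd (Finset.le_max' _ k (Finsupp.mem_support_iff.mpr hcon)) (by omega)

theorem DegLe.of_top {n : ℤ} {p : Lau} (h : DegLe n p) (h0 : p.coeff n = 0) :
    DegLe (n - 1) p := by
  intro k hk
  rcases eq_or_lt_of_le (show n ≤ k by omega) with h1 | h1
  · rw [← h1]; exact h0
  · exact h k h1

theorem coeff_mul_top {m n : ℤ} {p q : Lau} (h : DegLe m p) (k : DegLe n q) :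
    (p * q).coeff (m + n) = p.coeff m * q.coeff n := by
  classical
  rw [AddMonoidAlgebra.coeff_mul, Finsupp.sum, Finset.sum_eq_single m]
  · rw [Finsupp.sum, Finset.sum_eq_single n]
    · rw [if_pos rfl]
    · intro b _ hbn
      rw [if_neg (by omega)]
    · intro hn
      rw [Finsupp.notMem_support_iff.mp hn, mul_zero, ite_self]
  · intro a ha ham
    refine Finset.sum_eq_zero fun b hb => ?_
    have h1 := h.le_of_mem ha
    have h2 := k.le_of_mem hb
    beta_reduce
    rw [if_neg (by omega)]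
  · intro hm
    refine Finset.sum_eq_zero fun b hb => ?_
    beta_reduce
    rw [Finsupp.notMem_support_iff.mp hm, zero_mul, ite_self]

theorem coeff_eta_top (n : ℕ) (hn : 0 < n) : (eta n).coeff n = 1 := by
  rw [eta, lp_coeff_add, T_apply, T_apply, if_pos rfl, if_neg (by omega), add_zero]

theorem coeff_xi_top (n : ℕ) (hn : 0 < n) : (xi n).coeff n = 1 := by
  rw [xi, lp_coeff_sub, T_apply, T_apply, if_pos rfl, if_neg (by omega), sub_zero]

theorem wl_nil (L : B → ℕ) : wl L [] = 0 := rfl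
theorem wl_cons (L : B → ℕ) (i : B) (P : List B) : wl L (i :: P) = L i + wl L P := by
  simp [wl]
theorem etaL_nil (L : B → ℕ) : etaL L [] = 1 := rfl
theorem etaL_cons (L : B → ℕ) (i : B) (P : List B) :
    etaL L (i :: P) = eta (L i) * etaL L P := by simp [etaL]
theorem xiL_nil (L : B → ℕ) : xiL L [] = 1 := rfl
theorem xiL_cons (L : B → ℕ) (i : B) (P : List B) :
    xiL L (i :: P) = xi (L i) * xiL L P := by simp [xiL]

theorem DegLe.etaL (L : B → ℕ) (P : List B) : DegLe (wl L P) (etaL L P) := by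
  induction P with
  | nil => rw [wl_nil, etaL_nil]; exact DegLe.one
  | cons i P ih =>
    rw [wl_cons, etaL_cons, Nat.cast_add]
    exact (DegLe.eta _).mul ih

theorem DegLe.xiL (L : B → ℕ) (P : List B) : DegLe (wl L P) (xiL L P) := by
  induction P with
  | nil => rw [wl_nil, xiL_nil]; exact DegLe.one
  | cons i P ih =>
    rw [wl_cons, xiL_cons, Nat.cast_add]
    exact (DegLe.xi _).mul ih

theorem lp_coeff_one : (1 : Lau).coeff 0 = 1 := by
  rw [← T_zero, T_apply, if_pos rfl]

theorem coeff_etaL_top (L : B → ℕ) (hL : ∀ i, 0 < L i) (P : List B) :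
    (etaL L P).coeff (wl L P) = 1 := by
  induction P with
  | nil => rw [wl_nil, etaL_nil]; exact lp_coeff_one
  | cons i P ih =>
    rw [wl_cons, etaL_cons, Nat.cast_add, coeff_mul_top (DegLe.eta _) (DegLe.etaL L P), ih,
      coeff_eta_top _ (hL i), one_mul]

theorem coeff_xiL_top (L : B → ℕ) (hL : ∀ i, 0 < L i) (P : List B) :
    (xiL L P).coeff (wl L P) = 1 := by
  induction P with
  | nil => rw [wl_nil, xiL_nil]; exact lp_coeff_one
  | cons i P ih =>
    rw [wl_cons, xiL_cons, Nat.cast_add, coeff_mul_top (DegLe.xi _) (DegLe.xiL L P), ih,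
      coeff_xi_top _ (hL i), one_mul]

theorem invert_etaL (L : B → ℕ) (P : List B) : invert (etaL L P) = etaL L P := by
  induction P with
  | nil => rw [etaL_nil, map_one]
  | cons i P ih =>
    rw [etaL_cons, map_mul, ih, eta, map_add, invert_T, invert_T, neg_neg, add_comm]

theorem lau_mul_eq_zero {p q : Lau} (h : p * q = 0) : p = 0 ∨ q = 0 := by
  by_contra hcon
  push Not at hcon
  obtain ⟨a, ha, ha'⟩ := DegLe.exists_top hcon.1
  obtain ⟨b, hb, hb'⟩ := DegLe.exists_top hcon.2
  have h1 := coeff_mul_top ha' hb'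
  rw [h, lp_coeff_zero] at h1
  exact mul_ne_zero ha hb h1.symm

theorem invert_invert' (p : Lau) : invert (invert p) = p := involutive_invert p

/-- bar-invariant of degree `≤ 0` means constant -/
theorem bar_const {p : Lau} (h : invert p = p) (k : DegLe 0 p) : p = C (p.coeff 0) := by
  ext n
  rw [C_apply]
  rcases lt_trichotomy n 0 with hn | hn | hn
  · rw [if_neg hn.ne, ← h, invert_apply]
    exact k _ (by omega)
  · rw [if_pos hn, hn]
  · rw [if_neg hn.ne']
    exact k n hn

/-- bar-invariant of degree `< 0` means zero -/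
theorem bar_neg {p : Lau} (h : invert p = p) (k : DegLe (-1) p) : p = 0 := by
  rw [bar_const h (k.mono (by norm_num)), k 0 (by norm_num), map_zero]

/-- decomposition of an antisymmetric Laurent polynomial -/
theorem exists_half {q : Lau} (h : invert q = -q) :
    ∃ p : Lau, DegLe (-1) p ∧ q = p - invert p := by
  classical
  have hq : ∀ k, q.coeff (-k) = - q.coeff k := by
    intro k
    rw [← invert_apply, h, lp_coeff_neg]
  let p : Lau := AddMonoidAlgebra.ofCoeff (Finsupp.filter (fun n => n < 0) q.coeff)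
  have hp1 : ∀ k, k < 0 → p.coeff k = q.coeff k := fun k hk =>
    Finsupp.filter_apply_pos _ _ hk
  have hp2 : ∀ k, ¬ k < 0 → p.coeff k = 0 := fun k hk =>
    Finsupp.filter_apply_neg _ _ hk
  refine ⟨p, fun k hk => hp2 k (by omega), ?_⟩
  ext k
  rw [lp_coeff_sub, invert_apply]
  rcases lt_trichotomy k 0 with hk | hk | hk
  · rw [hp1 k hk, hp2 (-k) (by omega), sub_zero]
  · have h0 := hq 0
    rw [neg_zero] at h0
    subst hk
    rw [neg_zero, hp2 0 (by omega)]
    omega
  · rw [hp2 k (by omega), hp1 (-k) (by omega), hq]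
    ring

theorem Pos.zero : Pos 0 := Or.inl rfl

theorem Pos.one : Pos 1 := Or.inr ⟨0, by rw [lp_coeff_one]; norm_num, DegLe.one⟩

theorem Pos.add {p q : Lau} (h : Pos p) (k : Pos q) : Pos (p + q) := by
  rcases h with rfl | ⟨d, hd, hd'⟩
  · rw [zero_add]; exact k
  rcases k with rfl | ⟨e, he, he'⟩
  · rw [add_zero]; exact Or.inr ⟨d, hd, hd'⟩
  rcases lt_trichotomy d e with h | h | h
  · refine Or.inr ⟨e, ?_, (hd'.mono h.le).add he'⟩
    rw [lp_coeff_add, hd' e h, zero_add]; exact he
  · subst h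
    refine Or.inr ⟨d, ?_, hd'.add he'⟩
    rw [lp_coeff_add]; exact add_pos hd he
  · refine Or.inr ⟨d, ?_, hd'.add (he'.mono h.le)⟩
    rw [lp_coeff_add, he' d h, add_zero]; exact hd

theorem Pos.mul {p q : Lau} (h : Pos p) (k : Pos q) : Pos (p * q) := by
  rcases h with rfl | ⟨d, hd, hd'⟩
  · rw [zero_mul]; exact Pos.zero
  rcases k with rfl | ⟨e, he, he'⟩
  · rw [mul_zero]; exact Pos.zero
  refine Or.inr ⟨d + e, ?_, hd'.mul he'⟩
  rw [coeff_mul_top hd' he']
  exact mul_pos hd he

theorem Pos.xi {n : ℕ} (hn : 0 < n) : Pos (xi n) :=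
  Or.inr ⟨n, by rw [coeff_xi_top n hn]; norm_num, DegLe.xi n⟩

theorem Pos.xiL (L : B → ℕ) (hL : ∀ i, 0 < L i) (P : List B) : Pos (xiL L P) :=
  Or.inr ⟨wl L P, by rw [coeff_xiL_top L hL P]; norm_num, DegLe.xiL L P⟩

/-- no cancellation of leading terms -/
theorem Pos.top {p q : Lau} {m : ℤ} (hp : DegLe m p) (hq : Pos q) (h : DegLe m (p + q)) :
    p.coeff m ≤ (p + q).coeff m := by
  rw [lp_coeff_add]
  have hqd : DegLe m q := by
    have := h.sub hp
    rwa [add_sub_cancel_left] at this
  rcases hq with rfl | ⟨d, hd, hd'⟩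
  · rw [lp_coeff_zero, add_zero]
  rcases lt_trichotomy d m with h1 | h1 | h1
  · rw [hd' m h1, add_zero]
  · subst h1; linarith
  · exact absurd (hqd d h1) hd.ne'

end Pool.Agent.Lib.MP_754fa1_al
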