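import Pool.Agent.Lib.MP_754fa1_al.BM

open LaurentPolynomial

namespace Pool.Agent.Lib.MP_754fa1_al

universe u v w

variable {B : Type u} {W : Type v} [Group W] {M : CoxeterMatrix B}

/-! LU. The left ideal generated by `C_u`, `u` tight, modulo `I_{>m}`.
`main_formula`: `E = C_{x π(P)} C_u`.  By `c_mul_t` and `eig_factor`, `C_{x π(P)} = k C_P`, so `E = k C_P C_u = etaL P • (k C_u)`
(`cl_mul_c`).  `E = T_{x π(P)} T_u + (elements of Good m (m-1))` by `good_mul` (`C - T ∈ Lat (-1)`), and
`T_{x π(P)} T_u - v^m T_{x u} ∈ Lat (m - 1)` (`lead_tight`).  So for `alp z ≤ m` the `c`-coordinate `e_z` of `E` has degree `≤ m`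
with top coefficient `δ_{z, x u}` (`igt_coord`, `lat_iff`, `top_eq`), it is bar-invariant (`bar_coord`), and
`e_z = etaL P * d_z`, `d_z` the coordinate of `k C_u`; so `d_z` is bar-invariant of degree `≤ 0`, hence
`d_z = δ_{z, x u}`; `igt_of_coord`.
`lu_span`: `h C_P` is a right eigenvector for `P` (`cl_mul_t`), so by `eig_span` it is a combination of `C_z` with
`P ⊆` right descents of `z`, `z = x π(P)`; apply `main_formula` to each and cancel `etaL P`. -/

theorem etaL_ne_zero (L : B → ℕ) (hL : ∀ i, 0 < L i) (P : List B) : etaL L P ≠ 0 := by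
  intro h
  have := coeff_etaL_top L hL P
  rw [h] at this
  simp at this

theorem wl_eq_lam [Fintype B] (cs : CoxeterSystem M W) (L : B → ℕ) (u : W) (P : List B)
    (hP : PC M P) (h1 : ∀ i, i ∈ P ↔ cs.IsLeftDescent u i) : wl L P = lam cs L u := by
  classical
  rw [wl, lam, ← List.sum_toFinset _ hP.nodup]
  refine Finset.sum_congr ?_ fun _ _ => rfl
  ext i
  simp [h1]

/-- the quotient of a bar-invariant Laurent polynomial by `etaL` -/
theorem quot_eta (L : B → ℕ) (hL : ∀ i, 0 < L i) (P : List B) {e d : Lau} (hed : e = etaL L P * d)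
    (hb : invert e = e) (hdeg : DegLe (wl L P) e) : d = C (e.coeff (wl L P)) := by
  have h0 := etaL_ne_zero L hL P
  have hb' : invert d = d := by
    have h2 : etaL L P * (invert d - d) = 0 := by
      rw [mul_sub, ← hed]
      have : invert e = etaL L P * invert d := by
        rw [hed, map_mul, invert_etaL]
      rw [← this, hb, sub_self]
    rcases lau_mul_eq_zero h2 with h | h
    · exact absurd h h0
    · exact sub_eq_zero.1 h
  have hd0 : DegLe 0 d := by
    by_cases hd : d = 0
    · rw [hd]; exact DegLe.zero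
    · obtain ⟨n, hn, hn'⟩ := DegLe.exists_top hd
      have h2 := coeff_mul_top (DegLe.etaL L P) hn'
      rw [← hed, coeff_etaL_top L hL, one_mul] at h2
      have : n ≤ 0 := by
        by_contra hc
        push Not at hc
        have := hdeg (wl L P + n) (by omega)
        rw [h2] at this
        exact hn this
      exact hn'.mono this
  have h3 := bar_const hb' hd0
  have h4 := coeff_mul_top (DegLe.etaL L P) hd0
  rw [← hed, coeff_etaL_top L hL, one_mul, add_zero] at h4
  rw [h4]
  exact h3

namespace KL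
variable [Fintype B] {cs : CoxeterSystem M W} {L : B → ℕ} {H : Type w} [Ring H] [Algebra Lau H]
  (D : KL cs L H)

theorem main_formula (hL : ∀ i, 0 < L i) (hM : RightAngled M) (m : ℕ)
    (hI : TwoSided (D.Igt m)) (x u : W) (P : List B) (hP : PC M P)
    (h1 : ∀ i, i ∈ P ↔ cs.IsLeftDescent u i) (h2 : ∀ i ∈ P, ¬ cs.IsRightDescent x i)
    (hu : Tight cs L u) (hm : alp cs L u = m) :
    ∃ k : H, D.c (x * cs.wordProd P) = k * D.cl P ∧ k * D.c u - D.c (x * u) ∈ D.Igt m := by
  classical
  obtain ⟨k, hk⟩ := D.eig_factor hL hM P hP (h := D.c (x * cs.wordProd P))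
    (fun i hi => D.c_mul_t hL (rdesc_mul_pc cs hM x P hP h2 i hi))
  refine ⟨k, hk, ?_⟩
  have hwl : wl L P = m := by rw [wl_eq_lam cs L u P hP h1, tight_lam cs L hu, hm]
  -- the product
  set E : H := D.c (x * cs.wordProd P) * D.c u with hE
  have hEk : E = etaL L P • (k * D.c u) := by
    rw [hE, hk, mul_assoc, D.cl_mul_c hL P fun i hi => (h1 i).1 hi, mul_smul_comm]
  have hbar : D.bar E = E := by rw [hE, map_mul, D.bar_c, D.bar_c]
  have hgood : D.Good m ((m : ℤ) - 1) (E - (T (m : ℤ) : Lau) • D.t (x * u)) := by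
    have e1 : E - (T (m : ℤ) : Lau) • D.t (x * u) =
        (D.c (x * cs.wordProd P) - D.t (x * cs.wordProd P)) * D.c u +
        (D.t (x * cs.wordProd P) * (D.c u - D.t u) +
        (D.t (x * cs.wordProd P) * D.t u - (T (m : ℤ) : Lau) • D.t (x * u))) := by
      rw [hE, sub_mul, mul_sub]; abel
    rw [e1]
    refine D.good_add ?_ (D.good_add ?_ ?_)
    · exact D.good_mono (D.good_mul hL hM m hI (D.lat_c_sub_t _) (D.lat_c _)) (by omega)
    · exact D.good_mono (D.good_mul hL hM m hI (D.lat_t _) (D.lat_c_sub_t _)) (by omega)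
    · have := D.lead_tight hL hM x u P hP h1 h2 hu (by rw [hwl, hm])
      rw [hm] at this
      exact D.good_of_lat this
  obtain ⟨g, hg, hF⟩ := hgood
  refine D.igt_of_coord fun z hz => ?_
  have hTt : D.Lat m ((T (m : ℤ) : Lau) • D.t (x * u)) := by
    have := D.lat_smul (DegLe.T (le_refl (m : ℤ))) (D.lat_t (x * u))
    simpa using this
  have hsplit : D.cB.repr E z = D.cB.repr (E - (T (m : ℤ) : Lau) • D.t (x * u) - g) z +
      D.cB.repr ((T (m : ℤ) : Lau) • D.t (x * u)) z := by
    have e2 : E = (E - (T (m : ℤ) : Lau) • D.t (x * u) - g) +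
      (T (m : ℤ) : Lau) • D.t (x * u) + g := by abel
    conv_lhs => rw [e2]
    rw [map_add, map_add, Finsupp.add_apply, Finsupp.add_apply, D.igt_coord hg hz, add_zero]
  have hdF := D.lat_iff.1 hF z
  have hdT := D.lat_iff.1 hTt z
  have hdeg : DegLe (wl L P) (D.cB.repr E z) := by
    rw [hsplit, hwl]
    exact (hdF.mono (by omega)).add hdT
  have hcoef : (D.cB.repr E z).coeff (wl L P) = if x * u = z then 1 else 0 := by
    rw [hsplit, hwl]
    have e3 : (D.cB.repr (E - (T (m : ℤ) : Lau) • D.t (x * u) - g) z).coeff (m : ℤ) = 0 :=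
      hdF _ (by omega)
    have e4 := D.top_eq hTt z
    rw [show ((D.cB.repr (E - (T (m : ℤ) : Lau) • D.t (x * u) - g) z) +
      (D.cB.repr ((T (m : ℤ) : Lau) • D.t (x * u)) z)).coeff (m : ℤ) =
      (D.cB.repr (E - (T (m : ℤ) : Lau) • D.t (x * u) - g) z).coeff (m : ℤ) +
      (D.cB.repr ((T (m : ℤ) : Lau) • D.t (x * u)) z).coeff (m : ℤ) by rfl, e3, e4, zero_add]
    rw [map_smul, Finsupp.smul_apply, Module.Basis.repr_self, Finsupp.single_apply]
    split_ifs
    · simp
    · simp
  have hed : D.cB.repr E z = etaL L P * D.cB.repr (k * D.c u) z := by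
    rw [hEk, map_smul, Finsupp.smul_apply, smul_eq_mul]
  have hd := quot_eta L hL P hed (D.bar_coord hbar z) hdeg
  rw [map_sub, Finsupp.sub_apply, hd, hcoef, ← D.cB_apply (x * u), Module.Basis.repr_self,
    Finsupp.single_apply]
  split_ifs
  · simp
  · simp

/-- `C_{xu} ∈ H C_u + I` -/
theorem lu_mem (hL : ∀ i, 0 < L i) (hM : RightAngled M) (m : ℕ)
    (hI : TwoSided (D.Igt m)) (x u : W) (hx : cs.length (x * u) = cs.length x + cs.length u)
    (hu : Tight cs L u) (hm : alp cs L u = m) :
    ∃ k : H, D.c (x * u) - k * D.c u ∈ D.Igt m := by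
  obtain ⟨P, hP, h1, -⟩ := exists_list cs hM L u
  have h2 : ∀ i ∈ P, ¬ cs.IsRightDescent x i := by
    intro i hi hr
    have h3 : cs.length (cs.simple i * u) < cs.length u := (h1 i).1 hi
    have h4 : cs.length (x * cs.simple i) < cs.length x := hr
    have h5 : x * u = (x * cs.simple i) * (cs.simple i * u) := by
      simp [mul_assoc]
    have h6 := cs.length_mul_le (x * cs.simple i) (cs.simple i * u)
    rw [← h5] at h6
    omega
  obtain ⟨k, -, hk⟩ := D.main_formula hL hM m hI x u P hP h1 h2 hu hm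
  refine ⟨k, ?_⟩
  rw [← neg_sub]
  exact Submodule.neg_mem _ hk

/-- `H C_u ⊆ span{C_{xu}} + I` -/
theorem lu_span (hL : ∀ i, 0 < L i) (hM : RightAngled M) (m : ℕ)
    (hI : TwoSided (D.Igt m)) (u : W) (hu : Tight cs L u) (hm : alp cs L u = m) (h : H) (z : W)
    (hz : D.cB.repr (h * D.c u) z ≠ 0) : m < alp cs L z ∨ Suf cs u z := by
  classical
  by_contra hcon
  push Not at hcon
  obtain ⟨hz1, hz2⟩ := hcon
  obtain ⟨P, hP, h1, -⟩ := exists_list cs hM L u
  have hev : ∀ i ∈ P, (h * D.cl P) * D.t (cs.simple i) = (T (L i : ℤ) : Lau) • (h * D.cl P) := by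
    intro i hi
    rw [mul_assoc, D.cl_mul_t hL hM P hP i hi, mul_smul_comm]
  have hprod : (h * D.cl P) * D.c u = etaL L P • (h * D.c u) := by
    rw [mul_assoc, D.cl_mul_c hL P fun i hi => (h1 i).1 hi, mul_smul_comm]
  have hzero : D.cB.repr ((h * D.cl P) * D.c u) z = 0 := by
    have e1 : h * D.cl P = ∑ y ∈ (D.cB.repr (h * D.cl P)).support,
        D.cB.repr (h * D.cl P) y • D.c y := by
      conv_lhs => rw [← D.cB.linearCombination_repr (h * D.cl P),
        Finsupp.linearCombination_apply, Finsupp.sum]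
      refine Finset.sum_congr rfl fun y _ => ?_
      rw [D.cB_apply]
    rw [e1, Finset.sum_mul, map_sum, Finsupp.finsetSum_apply]
    refine Finset.sum_eq_zero fun y hy => ?_
    rw [smul_mul_assoc, map_smul, Finsupp.smul_apply]
    have hy0 : D.cB.repr (h * D.cl P) y ≠ 0 := Finsupp.mem_support_iff.1 hy
    have hyP : ∀ i ∈ P, cs.IsRightDescent y i := fun i hi => D.eig_span hL (hev i hi) y hy0
    obtain ⟨hf1, hf2⟩ := pc_factor_right cs hM y P hP hyP
    obtain ⟨k, hk1, hk2⟩ := D.main_formula hL hM m hI (y * cs.wordProd P) u P hP h1 hf1 hu hm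
    have e2 : y * cs.wordProd P * cs.wordProd P = y := by
      have e2' : cs.wordProd P * cs.wordProd P = 1 := by
        nth_rewrite 1 [← pc_inv cs hM P hP]
        exact inv_mul_cancel _
      rw [mul_assoc, e2', mul_one]
    rw [e2] at hk1
    have hred : cs.length (y * cs.wordProd P * u) =
        cs.length (y * cs.wordProd P) + cs.length u := by
      refine red0 cs hM _ _ ?_
      rintro i ⟨hi1, hi2⟩
      exact hf1 i ((h1 i).2 hi2) hi1
    have hne : y * cs.wordProd P * u ≠ z := by
      rintro rfl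
      exact hz2 (suf_mul cs hred)
    have e3 : D.cB.repr (k * D.c u) z = 0 := by
      have := D.igt_coord hk2 hz1
      rw [map_sub, Finsupp.sub_apply, ← D.cB_apply (y * cs.wordProd P * u),
        Module.Basis.repr_self, Finsupp.single_apply, if_neg hne, sub_zero] at this
      exact this
    rw [hk1, mul_assoc, D.cl_mul_c hL P fun i hi => (h1 i).1 hi, mul_smul_comm, map_smul,
      Finsupp.smul_apply, e3, smul_zero, smul_zero]
  rw [hprod, map_smul, Finsupp.smul_apply, smul_eq_mul] at hzero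
  rcases lau_mul_eq_zero hzero with h3 | h3
  · exact etaL_ne_zero L hL P h3
  · exact hz h3

end KL

end Pool.Agent.Lib.MP_754fa1_al
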