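import Pool.Agent.Lib.MP_754fa1_al.HB1

open LaurentPolynomial

namespace Pool.Agent.Lib.MP_754fa1_al

universe u v w

variable {B : Type u} {W : Type v} [Group W] {M : CoxeterMatrix B}

/-! X2. Existence of the bar involution and of the Kazhdan-Lusztig basis (any Coxeter system).
`bar (∑ a_x t x) = ∑ invert a_x (t x⁻¹)⁻¹` where `(t x)⁻¹` exists because `t (s i)` is invertible
(`t (s i) * (t (s i) - ξ_i) = 1`); `bar (t (s i) * h) = (t (s i))⁻¹ * bar h` on basis elements, hence `bar` is
multiplicative.  `c x = t x + r` with `r - bar r = bar (t x) - t x`, solved downwards in the length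
with `exists_half`. -/

namespace Hecke

variable {cs : CoxeterSystem M W} {L : B → ℕ} {H : Type w} [Ring H] [Algebra Lau H]

variable (D : Hecke cs L H)

theorem isUnit_t (x : W) : IsUnit (D.t x) := by
  induction x using len_induction_left cs with
  | h1 =>
    rw [t_one]
    exact isUnit_one
  | hs i x hx ih =>
    rw [← D.s_mul_up i x hx]
    exact IsUnit.mul ⟨⟨_, _, D.t_s_inv i, D.t_s_inv' i⟩, rfl⟩ ih

/-- the inverse of `t x⁻¹` -/
noncomputable def bt (x : W) : H := Ring.inverse (D.t x⁻¹)

theorem bt_mul (x : W) : D.bt x * D.t x⁻¹ = 1 := Ring.inverse_mul_cancel _ (D.isUnit_t _)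

theorem mul_bt (x : W) : D.t x⁻¹ * D.bt x = 1 := Ring.mul_inverse_cancel _ (D.isUnit_t _)

theorem bt_one : D.bt 1 = 1 := by
  have h1 := D.bt_mul 1
  rwa [inv_one, t_one, mul_one] at h1

theorem bt_s (i : B) : D.bt (cs.simple i) = D.t (cs.simple i) - xi (L i) • (1 : H) := by
  have h1 := D.bt_mul (cs.simple i)
  rw [cs.inv_simple] at h1
  calc D.bt (cs.simple i) = D.bt (cs.simple i) *
        (D.t (cs.simple i) * (D.t (cs.simple i) - xi (L i) • (1 : H))) := by
        rw [t_s_inv, mul_one]
    _ = D.t (cs.simple i) - xi (L i) • (1 : H) := by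
        rw [← mul_assoc, h1, one_mul]

theorem bt_up (i : B) (x : W) (hx : ¬ cs.IsLeftDescent x i) :
    D.bt (cs.simple i * x) = D.bt (cs.simple i) * D.bt x := by
  have h1 : D.t (cs.simple i * x)⁻¹ = D.t x⁻¹ * D.t (cs.simple i)⁻¹ := by
    rw [mul_inv_rev]
    refine (D.t_mul _ _ ?_).symm
    rw [← mul_inv_rev, cs.length_inv, cs.length_inv, cs.length_inv, cs.not_isLeftDescent_iff.1 hx,
      cs.length_simple]
  have h2 := D.bt_mul (cs.simple i * x)
  calc D.bt (cs.simple i * x) = D.bt (cs.simple i * x) *
        (D.t x⁻¹ * (D.t (cs.simple i)⁻¹ * D.bt (cs.simple i)) * D.bt x) := by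
        rw [mul_bt, mul_one, mul_bt, mul_one]
    _ = (D.bt (cs.simple i * x) * (D.t x⁻¹ * D.t (cs.simple i)⁻¹)) *
        (D.bt (cs.simple i) * D.bt x) := by
        simp only [mul_assoc]
    _ = D.bt (cs.simple i) * D.bt x := by
        rw [← h1, h2, one_mul]

theorem bt_s_sq (i : B) : D.bt (cs.simple i) * D.bt (cs.simple i) =
    1 - xi (L i) • D.bt (cs.simple i) := by
  have h1 := D.t_s_inv' i
  rw [← D.bt_s] at h1
  have h2 : D.bt (cs.simple i) * D.bt (cs.simple i) =
      D.bt (cs.simple i) * (D.t (cs.simple i) - xi (L i) • (1 : H)) := by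
    rw [D.bt_s]
  rw [h2, mul_sub, h1, mul_smul_comm, mul_one]

theorem bt_down (i : B) (x : W) (hx : cs.IsLeftDescent x i) :
    D.bt (cs.simple i) * D.bt x = D.bt (cs.simple i * x) - xi (L i) • D.bt x := by
  have h1 := D.bt_up i (cs.simple i * x) (cs.isLeftDescent_iff_not_isLeftDescent_mul.1 hx)
  rw [cs.simple_mul_simple_cancel_left] at h1
  conv_lhs => rw [h1]
  rw [← mul_assoc, bt_s_sq, sub_mul, one_mul, smul_mul_assoc, ← h1]

/-- the bar involution as an additive map -/
noncomputable def bar0 : H →+ H where
  toFun h := (D.t.repr h).sum fun x a => invert a • D.bt x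
  map_zero' := by
    rw [map_zero, Finsupp.sum_zero_index]
  map_add' h k := by
    classical
    rw [map_add]
    apply Finsupp.sum_add_index'
    · intro x
      rw [map_zero, zero_smul]
    · intro x a b
      rw [map_add, add_smul]

theorem bar0_smul_t (r : Lau) (x : W) : D.bar0 (r • D.t x) = invert r • D.bt x := by
  change ((D.t.repr (r • D.t x)).sum fun y a => invert a • D.bt y) = _
  rw [map_smul, Module.Basis.repr_self, Finsupp.smul_single, smul_eq_mul, mul_one,
    Finsupp.sum_single_index]
  rw [map_zero, zero_smul]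

theorem bar0_t (x : W) : D.bar0 (D.t x) = D.bt x := by
  have h1 := D.bar0_smul_t 1 x
  rwa [one_smul, map_one, one_smul] at h1

theorem bar0_smul (r : Lau) (h : H) : D.bar0 (r • h) = invert r • D.bar0 h := by
  have h1 : ∀ h : H, ∀ r : Lau, D.bar0 (r • h) = invert r • D.bar0 h := by
    intro h
    refine D.t_induction (p := fun h => ∀ r : Lau, D.bar0 (r • h) = invert r • D.bar0 h)
      ?_ ?_ ?_ ?_ h
    · intro x r
      rw [bar0_smul_t, bar0_t]
    · intro r
      rw [smul_zero, map_zero, smul_zero]
    · intro a b ha hb r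
      rw [smul_add, map_add, map_add, ha, hb, smul_add]
    · intro r' a ha r
      rw [smul_smul, ha, ha, map_mul, mul_smul]
  exact h1 h r

theorem bar0_s_mul (i : B) (h : H) :
    D.bar0 (D.t (cs.simple i) * h) = D.bt (cs.simple i) * D.bar0 h := by
  refine D.t_induction (p := fun h => D.bar0 (D.t (cs.simple i) * h) =
    D.bt (cs.simple i) * D.bar0 h) ?_ ?_ ?_ ?_ h
  · intro x
    by_cases hx : cs.IsLeftDescent x i
    · rw [D.s_mul_down i x hx, map_add, bar0_smul, bar0_t, bar0_t, D.bt_down i x hx, invert_xi,
        neg_smul, sub_eq_add_neg]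
    · rw [D.s_mul_up i x hx, bar0_t, bar0_t, D.bt_up i x hx]
  · rw [mul_zero, map_zero, mul_zero]
  · intro a b ha hb
    rw [mul_add, map_add, map_add, ha, hb, mul_add]
  · intro r a ha
    rw [mul_smul_comm, bar0_smul, bar0_smul, ha, mul_smul_comm]

theorem bar0_one : D.bar0 1 = 1 := by
  rw [← D.t_one, bar0_t, bt_one, t_one]

theorem bar0_mul (h k : H) : D.bar0 (h * k) = D.bar0 h * D.bar0 k := by
  let S : Submodule Lau H :=
    { carrier := {h | ∀ k, D.bar0 (h * k) = D.bar0 h * D.bar0 k}
      add_mem' := fun {x y} hx hy => by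
        intro k
        rw [add_mul, map_add, map_add, hx k, hy k, add_mul]
      zero_mem' := by
        intro k
        rw [zero_mul, map_zero, zero_mul]
      smul_mem' := fun r x hx => by
        intro k
        rw [smul_mul_assoc, bar0_smul, bar0_smul, hx k, smul_mul_assoc] }
  have h1 : (1 : H) ∈ S := by
    intro k
    rw [one_mul, bar0_one, one_mul]
  have h2 : h ∈ S := by
    refine D.gen_induction S h1 ?_ h
    intro i x hx k
    rw [mul_assoc, bar0_s_mul, bar0_s_mul, hx k, mul_assoc]
  exact h2 k

/-- the bar involution -/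
noncomputable def barR : H →+* H where
  toFun := D.bar0
  map_one' := D.bar0_one
  map_mul' := D.bar0_mul
  map_zero' := D.bar0.map_zero
  map_add' := D.bar0.map_add

theorem barR_apply (h : H) : D.barR h = D.bar0 h := rfl

theorem barR_alg (a : Lau) : D.barR (algebraMap Lau H a) = algebraMap Lau H (invert a) := by
  rw [barR_apply, Algebra.algebraMap_eq_smul_one, bar0_smul, bar0_one,
    Algebra.algebraMap_eq_smul_one]

theorem barR_t (x : W) : D.barR (D.t x) * D.t x⁻¹ = 1 := by
  rw [barR_apply, bar0_t, bt_mul]

/-- the equation `r - bar r = q` -/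
theorem exists_sol (n : ℕ) (q : H) (hq : q ∈ D.Sp n) (hb : D.barR q = -q) :
    ∃ r, D.Lat (-1) r ∧ r - D.barR r = q := by
  classical
  induction n generalizing q with
  | zero =>
    refine ⟨0, D.lat_zero _, ?_⟩
    rw [map_zero, sub_zero, D.sp_zero hq]
  | succ n ih =>
    have h1 : ∀ z : W, ∃ p : Lau, DegLe (-1) p ∧ (cs.length z = n → D.t.repr q z = p - invert p) ∧
        (D.t.repr q z = 0 → p = 0) := by
      intro z
      by_cases hz : cs.length z = n
      · by_cases h0 : D.t.repr q z = 0
        · refine ⟨0, DegLe.zero, fun _ => ?_, fun _ => rfl⟩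
          rw [h0, map_zero, sub_zero]
        · have h2 := D.b_top D.barR D.barR_alg D.barR_t hq hz
          rw [hb, map_neg, Finsupp.neg_apply] at h2
          obtain ⟨p, hp, hpq⟩ := exists_half h2.symm
          exact ⟨p, hp, fun _ => hpq, fun h => absurd h h0⟩
      · exact ⟨0, DegLe.zero, fun h => absurd h hz, fun _ => rfl⟩
    choose p hp hpq hp0 using h1
    -- the top part of the solution
    let r0 : H := ∑ z ∈ (D.t.repr q).support.filter (fun z => cs.length z = n), p z • D.t z
    have hr0L : D.Lat (-1) r0 := by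
      apply D.lat_sum
      intro z _
      exact D.lat_smul (hp z) (D.lat_t z)
    have hr0S : r0 ∈ D.Sp (n + 1) := by
      apply Submodule.sum_mem
      intro z hz
      apply Submodule.smul_mem
      apply D.t_mem_sp
      rw [(Finset.mem_filter.1 hz).2]
      exact Nat.lt_succ_self n
    have hr0c : ∀ z, cs.length z = n → D.t.repr r0 z = p z := by
      intro z hz
      simp only [r0]
      rw [map_sum, Finsupp.finsetSum_apply]
      have h3 : ∀ y, (D.t.repr (p y • D.t y)) z = if y = z then p y else 0 := by
        intro y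
        rw [map_smul, Module.Basis.repr_self, Finsupp.smul_single, smul_eq_mul, mul_one,
          Finsupp.single_apply]
      simp only [h3]
      rw [Finset.sum_ite_eq']
      split_ifs with h4
      · rfl
      · rw [Finset.mem_filter, not_and_or] at h4
        rcases h4 with h4 | h4
        · exact (hp0 z (Finsupp.notMem_support_iff.1 h4)).symm
        · exact absurd hz h4
    have h5 : q - (r0 - D.barR r0) ∈ D.Sp n := by
      rw [mem_sp_iff]
      intro z hz
      rcases Nat.eq_or_lt_of_le hz with h6 | h6
      · rw [map_sub, map_sub, Finsupp.sub_apply, Finsupp.sub_apply,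
          D.b_top D.barR D.barR_alg D.barR_t hr0S h6.symm, hr0c z h6.symm, hpq z h6.symm, sub_self]
      · have h7 : D.barR r0 ∈ D.Sp (n + 1) := by
          simp only [r0]
          rw [map_sum]
          apply Submodule.sum_mem
          intro y hy
          rw [b_smul D.barR D.barR_alg]
          apply Submodule.smul_mem
          have h8 := D.b_tri D.barR D.barR_t y
          have h9 : cs.length y = n := (Finset.mem_filter.1 hy).2
          have h10 : D.barR (D.t y) = (D.barR (D.t y) - D.t y) + D.t y := by
            rw [sub_add_cancel]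
          rw [h10]
          exact Submodule.add_mem _ (D.sp_mono (by omega) h8) (D.t_mem_sp (by omega))
        exact D.mem_sp_iff.1 (Submodule.sub_mem _ hq (Submodule.sub_mem _ hr0S h7)) z (by omega)
    have h6 : D.barR (q - (r0 - D.barR r0)) = -(q - (r0 - D.barR r0)) := by
      rw [map_sub, map_sub, hb, D.b_b D.barR D.barR_alg D.barR_t]
      abel
    obtain ⟨r1, hr1, hr1q⟩ := ih _ h5 h6
    refine ⟨r0 + r1, D.lat_add hr0L hr1, ?_⟩
    rw [map_add, add_sub_add_comm, hr1q]
    abel

end Hecke

theorem exists_KL (cs : CoxeterSystem M W) (L : B → ℕ) {H : Type w} [Ring H] [Algebra Lau H]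
    (D : Hecke cs L H) : Nonempty (KL cs L H) := by
  have h1 : ∀ x : W, ∃ r : H, D.Lat (-1) r ∧ r - D.barR r = D.barR (D.t x) - D.t x := by
    intro x
    apply D.exists_sol (cs.length x) _ (D.b_tri D.barR D.barR_t x)
    rw [map_sub, D.b_b D.barR D.barR_alg D.barR_t, neg_sub]
  choose r hr hrq using h1
  exact ⟨{ toHecke := D
           bar := D.barR
           bar_alg := D.barR_alg
           bar_t := D.barR_t
           c := fun x => D.t x + r x
           bar_c := fun x => by
             have h2 := hrq x
             rw [map_add]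
             rw [sub_eq_sub_iff_add_eq_add] at h2
             rw [← h2, add_comm]
           c_sub := fun x y n hn => by
             rw [add_sub_cancel_left]
             exact hr x y n (by omega) }⟩

end Pool.Agent.Lib.MP_754fa1_al
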