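import Pool.Agent.Lib.MP_754fa1_al.Comb
import Pool.Agent.Lib.MP_754fa1_al.G1a
import Pool.Agent.Lib.MP_754fa1_al.HB1

open LaurentPolynomial

namespace Pool.Agent.Lib.MP_754fa1_al

universe u v w

variable {B : Type u} {W : Type v} [Group W] {M : CoxeterMatrix B}

/-! X1. Existence of the Hecke algebra of a right-angled Coxeter system.
On the free module `V = W →₀ Lau` with basis `e_x` let `λ_i e_x = e_{s_i x}` (`s_i x > x`), `e_{s_i x} + ξ_i e_x` (`s_i x < x`)
and `ρ_i` the same on the right; `λ_i ρ_j = ρ_j λ_i` (only critical case: `s_i x > x`, `x s_j > x`, `s_i x s_j < s_i x`;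
then `s_i x = x s_j` by the exchange property).  `H` = subalgebra of `End V` generated by the `λ_i`; `h ↦ h e_1` is a
linear bijection `H → V` (injective because `H` commutes with the `ρ_j`), `t x` = preimage of `e_x`. -/

/-- in a right-angled Coxeter group distinct generators are not conjugate -/
theorem simple_conj (cs : CoxeterSystem M W) (hM : RightAngled M) {i j : B} {x : W}
    (h : cs.simple i * x = x * cs.simple j) : i = j := by
  classical
  have hlift : M.IsLiftable (fun k : B => if k = i then Multiplicative.ofAdd (1 : ZMod 2) else 1) := by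
    intro k l
    have h2 : ∀ a : Multiplicative (ZMod 2), a ^ 2 = 1 := by decide
    by_cases hkl : k = l
    · rw [← hkl, M.diagonal, pow_one, ← pow_two, h2]
    · rcases hM k l hkl with h3 | h3
      · rw [h3, h2]
      · rw [h3, pow_zero]
  have h1 := congrArg (cs.lift ⟨_, hlift⟩) h
  rw [map_mul, map_mul, cs.lift_apply_simple hlift, cs.lift_apply_simple hlift, mul_comm,
    mul_left_cancel_iff, if_pos rfl] at h1
  by_contra hij
  rw [if_neg (Ne.symm hij)] at h1
  exact absurd h1 (by decide)

/-- folding -/
theorem fold_left (cs : CoxeterSystem M W) (hM : RightAngled M) {i j : B} {x : W}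
    (h1 : ¬ cs.IsLeftDescent x i) (h2 : ¬ cs.IsRightDescent x j)
    (h3 : cs.IsLeftDescent (x * cs.simple j) i) : cs.simple i * x = x * cs.simple j := by
  obtain ⟨ω, hω, rfl⟩ := cs.exists_isReduced x
  have h4 : cs.wordProd (ω ++ [j]) = cs.wordProd ω * cs.simple j := by
    rw [cs.wordProd_append, cs.wordProd_singleton]
  have h5 : cs.IsReduced (ω ++ [j]) := by
    rw [CoxeterSystem.IsReduced, h4, cs.not_isRightDescent_iff.1 h2, hω.eq, List.length_append,
      List.length_singleton]
  rw [← h4] at h3
  obtain ⟨k, hk, hke⟩ := exch_left cs hM _ h5 i h3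
  rw [List.length_append, List.length_singleton] at hk
  rcases Nat.lt_or_ge k ω.length with h6 | h6
  · exfalso
    rw [List.eraseIdx_append_of_lt_length h6, cs.wordProd_append, cs.wordProd_append,
      ← mul_assoc, mul_left_inj] at hke
    have h7 := cs.not_isLeftDescent_iff.1 h1
    rw [hke] at h7
    have h8 := cs.length_wordProd_le (ω.eraseIdx k)
    have h9 := List.length_eraseIdx_of_lt h6
    have h10 := hω.eq
    omega
  · have h7 : k = ω.length := by omega
    rw [h7, List.eraseIdx_append_of_length_le (le_refl _), Nat.sub_self, List.eraseIdx_cons_zero,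
      List.append_nil, h4] at hke
    calc cs.simple i * cs.wordProd ω = cs.simple i * (cs.wordProd ω * cs.simple j) *
          cs.simple j := by rw [← mul_assoc, cs.simple_mul_simple_cancel_right]
      _ = cs.wordProd ω * cs.simple j := by rw [hke]

/-- comparison of the descents of `x`, `s_i x`, `x s_j` -/
theorem key_desc (cs : CoxeterSystem M W) (hM : RightAngled M) (i j : B) (x : W) :
    ((cs.IsLeftDescent (x * cs.simple j) i ↔ cs.IsLeftDescent x i) ∧
      (cs.IsRightDescent (cs.simple i * x) j ↔ cs.IsRightDescent x j)) ∨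
    (cs.simple i * x = x * cs.simple j ∧ i = j ∧
      ((¬ cs.IsLeftDescent x i ∧ cs.IsLeftDescent (x * cs.simple j) i ∧
        ¬ cs.IsRightDescent x j ∧ cs.IsRightDescent (cs.simple i * x) j) ∨
      (cs.IsLeftDescent x i ∧ ¬ cs.IsLeftDescent (x * cs.simple j) i ∧
        cs.IsRightDescent x j ∧ ¬ cs.IsRightDescent (cs.simple i * x) j))) := by
  have e1 : cs.simple i * x * cs.simple j = cs.simple i * (x * cs.simple j) := mul_assoc _ _ _
  have n1 := cs.length_simple_mul x i
  have n2 := cs.length_mul_simple x j
  have n3 := cs.length_simple_mul (x * cs.simple j) i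
  have n4 := cs.length_mul_simple (cs.simple i * x) j
  rw [e1] at n4
  have d1 : cs.IsLeftDescent x i ↔ cs.length (cs.simple i * x) < cs.length x := Iff.rfl
  have d2 : cs.IsRightDescent x j ↔ cs.length (x * cs.simple j) < cs.length x := Iff.rfl
  have d3 : cs.IsLeftDescent (x * cs.simple j) i ↔
      cs.length (cs.simple i * (x * cs.simple j)) < cs.length (x * cs.simple j) := Iff.rfl
  have d4 : cs.IsRightDescent (cs.simple i * x) j ↔
      cs.length (cs.simple i * (x * cs.simple j)) < cs.length (cs.simple i * x) := by
    rw [← e1]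
    exact Iff.rfl
  by_cases a : cs.IsLeftDescent x i
  · by_cases b : cs.IsRightDescent x j
    · by_cases c : cs.IsLeftDescent (x * cs.simple j) i
      · left
        have := d1.1 a
        have := d2.1 b
        have := d3.1 c
        refine ⟨iff_of_true c a, iff_of_true ?_ b⟩
        rw [d4]
        omega
      · right
        have u1 := d1.1 a
        have u2 := d2.1 b
        have u3 := mt d3.2 c
        have c' : ¬ cs.IsRightDescent (cs.simple i * x) j := by
          rw [d4]
          omega
        have f1 : ¬ cs.IsLeftDescent (cs.simple i * x) i :=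
          cs.isLeftDescent_iff_not_isLeftDescent_mul.1 a
        have f2 : cs.IsLeftDescent (cs.simple i * x * cs.simple j) i := by
          rw [e1]
          change cs.length (cs.simple i * (cs.simple i * (x * cs.simple j))) < _
          rw [cs.simple_mul_simple_cancel_left]
          omega
        have f3 := fold_left cs hM f1 c' f2
        rw [cs.simple_mul_simple_cancel_left] at f3
        have f4 : cs.simple i * x = x * cs.simple j := by
          conv_rhs => rw [f3]
          rw [cs.simple_mul_simple_cancel_right]
        exact ⟨f4, simple_conj cs hM f4, Or.inr ⟨a, c, b, c'⟩⟩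
    · left
      have u1 := d1.1 a
      have u2 := mt d2.2 b
      have c : cs.IsLeftDescent (x * cs.simple j) i := by
        rw [d3]
        omega
      refine ⟨iff_of_true c a, iff_of_false ?_ b⟩
      rw [d4]
      omega
  · by_cases b : cs.IsRightDescent x j
    · left
      have u1 := mt d1.2 a
      have u2 := d2.1 b
      refine ⟨iff_of_false ?_ a, iff_of_true ?_ b⟩
      · rw [d3]
        omega
      · rw [d4]
        omega
    · by_cases c : cs.IsLeftDescent (x * cs.simple j) i
      · right
        have u1 := mt d1.2 a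
        have u2 := mt d2.2 b
        have u3 := d3.1 c
        have c' : cs.IsRightDescent (cs.simple i * x) j := by
          rw [d4]
          omega
        have f3 := fold_left cs hM a b c
        exact ⟨f3, simple_conj cs hM f3, Or.inl ⟨a, c, b, c'⟩⟩
      · left
        have u1 := mt d1.2 a
        have u2 := mt d2.2 b
        have u3 := mt d3.2 c
        refine ⟨iff_of_false c a, iff_of_false ?_ b⟩
        rw [d4]
        omega

namespace X1

variable (cs : CoxeterSystem M W) (L : B → ℕ)

/-- basis vector -/
noncomputable def e (x : W) : W →₀ Lau := Finsupp.single x 1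

open Classical in
/-- left multiplication by `t (s i)` -/
noncomputable def lmb (i : B) : (W →₀ Lau) →ₗ[Lau] (W →₀ Lau) :=
  Finsupp.linearCombination Lau fun x =>
    e (cs.simple i * x) + (if cs.IsLeftDescent x i then xi (L i) else 0) • e x

open Classical in
/-- right multiplication by `t (s i)` -/
noncomputable def rho (i : B) : (W →₀ Lau) →ₗ[Lau] (W →₀ Lau) :=
  Finsupp.linearCombination Lau fun x =>
    e (x * cs.simple i) + (if cs.IsRightDescent x i then xi (L i) else 0) • e x

open Classical in
theorem lmb_e (i : B) (x : W) : lmb cs L i (e x) =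
    e (cs.simple i * x) + (if cs.IsLeftDescent x i then xi (L i) else 0) • e x := by
  rw [lmb]
  conv_lhs => rw [e, Finsupp.linearCombination_single, one_smul]

open Classical in
theorem rho_e (i : B) (x : W) : rho cs L i (e x) =
    e (x * cs.simple i) + (if cs.IsRightDescent x i then xi (L i) else 0) • e x := by
  rw [rho]
  conv_lhs => rw [e, Finsupp.linearCombination_single, one_smul]

omit [Group W] in
theorem ext_e {f g : (W →₀ Lau) →ₗ[Lau] (W →₀ Lau)} (h : ∀ x, f (e x) = g (e x)) : f = g :=
  Finsupp.lhom_ext' fun x => LinearMap.ext_ring (h x)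

theorem lmb_up {i : B} {x : W} (h : ¬ cs.IsLeftDescent x i) :
    lmb cs L i (e x) = e (cs.simple i * x) := by
  rw [lmb_e, if_neg h, zero_smul, add_zero]

theorem rho_up {i : B} {x : W} (h : ¬ cs.IsRightDescent x i) :
    rho cs L i (e x) = e (x * cs.simple i) := by
  rw [rho_e, if_neg h, zero_smul, add_zero]

theorem lmb_down {i : B} {x : W} (h : cs.IsLeftDescent x i) :
    lmb cs L i (e x) = e (cs.simple i * x) + xi (L i) • e x := by
  rw [lmb_e, if_pos h]

theorem comm (hM : RightAngled M) (i j : B) (v : W →₀ Lau) :
    lmb cs L i (rho cs L j v) = rho cs L j (lmb cs L i v) := by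
  classical
  have h1 : (lmb cs L i) ∘ₗ (rho cs L j) = (rho cs L j) ∘ₗ (lmb cs L i) := by
    apply ext_e
    intro x
    rw [LinearMap.comp_apply, LinearMap.comp_apply, rho_e, lmb_e, map_add, map_add, map_smul,
      map_smul, lmb_e, lmb_e, rho_e, rho_e, mul_assoc]
    rcases key_desc cs hM i j x with ⟨h2, h3⟩ | ⟨h2, h3, h4 | h4⟩
    · simp only [h2, h3, smul_add, smul_smul, mul_comm (if cs.IsRightDescent x j then xi (L j) else 0)]
      abel
    · obtain ⟨a, b, c, d⟩ := h4
      rw [if_neg a, if_pos b, if_neg c, if_pos d, h2, h3, zero_smul]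
    · obtain ⟨a, b, c, d⟩ := h4
      rw [if_pos a, if_neg b, if_pos c, if_neg d, h2, h3, zero_smul]
  exact LinearMap.congr_fun h1 v

theorem lmb_sq (i : B) (v : W →₀ Lau) :
    lmb cs L i (lmb cs L i v) = v + xi (L i) • lmb cs L i v := by
  have h1 : (lmb cs L i) ∘ₗ (lmb cs L i) = LinearMap.id + xi (L i) • lmb cs L i := by
    apply ext_e
    intro x
    rw [LinearMap.comp_apply, LinearMap.add_apply, LinearMap.smul_apply, LinearMap.id_apply]
    by_cases h : cs.IsLeftDescent x i
    · have h2 := cs.isLeftDescent_iff_not_isLeftDescent_mul.1 h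
      rw [lmb_down cs L h, map_add, map_smul, lmb_up cs L h2, lmb_down cs L h,
        cs.simple_mul_simple_cancel_left]
    · have h2 : cs.IsLeftDescent (cs.simple i * x) i := by
        rw [cs.isLeftDescent_iff_not_isLeftDescent_mul, cs.simple_mul_simple_cancel_left]
        exact h
      rw [lmb_up cs L h, lmb_down cs L h2, cs.simple_mul_simple_cancel_left]
  exact LinearMap.congr_fun h1 v

/-- the Hecke algebra inside the endomorphisms -/
noncomputable def Hs : Subalgebra Lau (Module.End Lau (W →₀ Lau)) :=
  Algebra.adjoin Lau (Set.range (lmb cs L))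

noncomputable instance : Ring (Hs cs L) := Algebra.semiringToRing Lau

/-- the generator as an element of the algebra -/
noncomputable def gen (i : B) : Hs cs L :=
  ⟨lmb cs L i, Algebra.subset_adjoin ⟨i, rfl⟩⟩

theorem hs_comm (hM : RightAngled M) (h : Hs cs L) (j : B) (v : W →₀ Lau) :
    h.1 (rho cs L j v) = rho cs L j (h.1 v) := by
  have h1 : Hs cs L ≤ Subalgebra.centralizer Lau {rho cs L j} := by
    apply Algebra.adjoin_le
    rintro _ ⟨i, rfl⟩
    rw [SetLike.mem_coe, Subalgebra.mem_centralizer_iff]
    rintro g hg
    rw [Set.mem_singleton_iff.1 hg]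
    apply LinearMap.ext
    intro v
    exact (comm cs L hM i j v).symm
  have h2 := (Subalgebra.mem_centralizer_iff (R := Lau)).1 (h1 h.2) _ (Set.mem_singleton _)
  exact (LinearMap.congr_fun h2 v).symm

/-- evaluation at `e 1` -/
noncomputable def ev : Hs cs L →ₗ[Lau] (W →₀ Lau) where
  toFun h := h.1 (e 1)
  map_add' _ _ := rfl
  map_smul' _ _ := rfl

theorem ev_apply (h : Hs cs L) : ev cs L h = h.1 (e 1) := rfl

theorem ev_inj (hM : RightAngled M) : Function.Injective (ev cs L) := by
  rw [injective_iff_map_eq_zero]
  intro h h0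
  have h1 : ∀ x, h.1 (e x) = 0 := by
    intro x
    induction x using len_induction_right cs with
    | h1 => exact h0
    | hs i x hx ih =>
      rw [← rho_up cs L hx, hs_comm cs L hM, ih, map_zero]
  apply Subtype.ext
  apply ext_e
  intro x
  rw [h1]
  rfl

theorem ev_surj : Function.Surjective (ev cs L) := by
  have h1 : ∀ x, ∃ h, ev cs L h = e x := by
    intro x
    induction x using len_induction_left cs with
    | h1 => exact ⟨1, rfl⟩
    | hs i x hx ih =>
      obtain ⟨h, hh⟩ := ih
      refine ⟨gen cs L i * h, ?_⟩
      rw [ev_apply] at hh ⊢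
      change lmb cs L i (h.1 (e 1)) = _
      rw [hh, lmb_up cs L hx]
  rw [← LinearMap.range_eq_top, eq_top_iff]
  intro v _
  induction v using Finsupp.induction_linear with
  | zero => exact Submodule.zero_mem _
  | add f g hf hg => exact Submodule.add_mem _ (hf trivial) (hg trivial)
  | single x r =>
    have h2 : Finsupp.single x r = r • e x := by
      rw [e, Finsupp.smul_single, smul_eq_mul, mul_one]
    rw [h2]
    exact Submodule.smul_mem _ _ (h1 x)

/-- the standard basis -/
noncomputable def basis (hM : RightAngled M) : Module.Basis W Lau (Hs cs L) :=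
  Module.Basis.ofRepr (LinearEquiv.ofBijective (ev cs L) ⟨ev_inj cs L hM, ev_surj cs L⟩)

theorem ev_basis (hM : RightAngled M) (x : W) : ev cs L (basis cs L hM x) = e x := by
  have h1 : (basis cs L hM).repr (basis cs L hM x) = e x := Module.Basis.repr_self _ x
  exact h1

theorem basis_eq (hM : RightAngled M) {x : W} {h : Hs cs L} (hh : ev cs L h = e x) :
    basis cs L hM x = h := by
  apply ev_inj cs L hM
  rw [ev_basis, hh]

theorem basis_one (hM : RightAngled M) : basis cs L hM 1 = 1 := basis_eq cs L hM rfl

theorem basis_s (hM : RightAngled M) (i : B) : basis cs L hM (cs.simple i) = gen cs L i := by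
  apply basis_eq
  change lmb cs L i (e 1) = _
  rw [lmb_up cs L (cs.not_isLeftDescent_one i), mul_one]

theorem basis_up (hM : RightAngled M) {i : B} {x : W} (hx : ¬ cs.IsLeftDescent x i) :
    basis cs L hM (cs.simple i * x) = gen cs L i * basis cs L hM x := by
  apply basis_eq
  change lmb cs L i (ev cs L (basis cs L hM x)) = _
  rw [ev_basis, lmb_up cs L hx]

theorem basis_e (hM : RightAngled M) (x y : W)
    (h : cs.length (x * y) = cs.length x + cs.length y) :
    (basis cs L hM x).1 (e y) = e (x * y) := by
  induction x using len_induction_left cs with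
  | h1 =>
    rw [basis_one, one_mul]
    rfl
  | hs i x hx ih =>
    rw [basis_up cs L hM hx]
    change lmb cs L i ((basis cs L hM x).1 (e y)) = _
    have h1 := cs.not_isLeftDescent_iff.1 hx
    have h2 := cs.length_mul_le x y
    have h3 := cs.length_simple_mul (x * y) i
    rw [mul_assoc, h1] at h
    have h4 : ¬ cs.IsLeftDescent (x * y) i := by
      intro h5
      have h6 : cs.length (cs.simple i * (x * y)) < cs.length (x * y) := h5
      omega
    rw [ih (by omega), lmb_up cs L h4, mul_assoc]

end X1

theorem exists_hecke (cs : CoxeterSystem M W) (hM : RightAngled M) (L : B → ℕ) :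
    ∃ (H : Type v) (_ : Ring H) (_ : Algebra Lau H), Nonempty (Hecke cs L H) := by
  refine ⟨X1.Hs cs L, inferInstance, inferInstance, ⟨?_⟩⟩
  refine ⟨X1.basis cs L hM, ?_, ?_⟩
  · intro x y h
    symm
    apply X1.basis_eq
    change (X1.basis cs L hM x).1 (X1.ev cs L (X1.basis cs L hM y)) = _
    rw [X1.ev_basis, X1.basis_e cs L hM x y h]
  · intro i
    rw [X1.basis_s]
    have h1 : X1.gen cs L i * X1.gen cs L i = 1 + xi (L i) • X1.gen cs L i := by
      apply Subtype.ext
      apply LinearMap.ext
      intro v
      exact X1.lmb_sq cs L i v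
    rw [sub_mul, mul_add, mul_add, ← Algebra.commutes, ← Algebra.smul_def, ← Algebra.smul_def,
      ← map_mul (algebraMap Lau (X1.Hs cs L)), ← T_add, add_neg_cancel, T_zero, map_one, h1, xi,
      sub_smul]
    abel

end Pool.Agent.Lib.MP_754fa1_al
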